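import Mathlib

/-!
# The input and output format of the algorithm
-/

namespace Pool.Agent.Lib.MP_fe081e_lc

/-- The adjacency matrix of a graph on `Fin n`, row by row, as a list of `n * n` bits: the bit
number `q` (counted from `0`) is the entry in row `q / n` and column `q % n`. -/
def adjBits {n : ℕ} (G : SimpleGraph (Fin n)) [DecidableRel G.Adj] : List Bool :=
  List.ofFn (fun q : Fin (n * n) => decide (G.Adj q.divNat q.modNat))

end Pool.Agent.Lib.MP_fe081e_lc
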