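import Pool.Agent.Lib.MP_fe081e_lc.Alg.Lang

/-!
A static polynomial bound for the cost of commands whose loops are bounded by read-only variables.
-/

namespace Pool.Agent.Lib.MP_fe081e_lc.Alg

variable {ι : Type}

/-- `e` is a scalar in `S` or its successor -/
def Exp.isBd (S : ι → Bool) : Exp ι → Bool
  | .get a .zero => S a
  | .succ (.get a .zero) => S a
  | _ => false

/-- all loops are bounded by scalars in `S`, and the arrays in `S` are not written -/
def Cmd.stable (S : ι → Bool) : Cmd ι → Bool
  | .skip => true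
  | .seq c d => c.stable S && d.stable S
  | .set a _ _ => ! S a
  | .cmp _ _ c1 c2 c3 => c1.stable S && c2.stable S && c3.stable S
  | .rep e c => e.isBd S && c.stable S

/-- polynomial bounding the cost -/
noncomputable def Cmd.costPoly : Cmd ι → Polynomial ℕ
  | .skip => 1
  | .seq c d => 1 + c.costPoly + d.costPoly
  | .set _ i e => Polynomial.C (1 + i.size + e.size)
  | .cmp e f c1 c2 c3 => Polynomial.C (1 + e.size + f.size) + c1.costPoly + c2.costPoly +
      c3.costPoly
  | .rep e c => Polynomial.C (1 + e.size) + (Polynomial.X + 1) * (1 + c.costPoly)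

lemma Exp.isBd_le {S : ι → Bool} {e : Exp ι} (h : e.isBd S = true) {s : Store ι} {b : ℕ}
    (hs : ∀ a, S a = true → s a 0 ≤ b) : e.eval s ≤ b + 1 := by
  match e with
  | .zero => simp [Exp.isBd] at h
  | .get a .zero => exact (hs a h).trans (Nat.le_succ _)
  | .get a (.succ e) => simp [Exp.isBd] at h
  | .get a (.get b e) => simp [Exp.isBd] at h
  | .succ (.get a .zero) => exact Nat.succ_le_succ (hs a h)
  | .succ .zero => simp [Exp.isBd] at h
  | .succ (.succ e) => simp [Exp.isBd] at h
  | .succ (.get a (.succ e)) => simp [Exp.isBd] at h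
  | .succ (.get a (.get b e)) => simp [Exp.isBd] at h

variable [DecidableEq ι]

omit [DecidableEq ι] in
lemma Cmd.not_writes_of_stable {S : ι → Bool} {c : Cmd ι} (h : c.stable S = true) {a : ι}
    (ha : S a = true) : ¬ c.writes a := by
  induction c with
  | skip => simp [Cmd.writes]
  | seq c d ihc ihd =>
    simp only [Cmd.stable, Bool.and_eq_true] at h
    simp only [Cmd.writes, not_or]
    exact ⟨ihc h.1, ihd h.2⟩
  | set b i e =>
    simp only [Cmd.stable, Bool.not_eq_true'] at h
    simp only [Cmd.writes]
    rintro rfl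
    rw [ha] at h
    exact absurd h (by decide)
  | cmp e f c1 c2 c3 ih1 ih2 ih3 =>
    simp only [Cmd.stable, Bool.and_eq_true] at h
    simp only [Cmd.writes, not_or]
    exact ⟨ih1 h.1.1, ih2 h.1.2, ih3 h.2⟩
  | rep e c ih =>
    simp only [Cmd.stable, Bool.and_eq_true] at h
    exact ih h.2

omit [DecidableEq ι] in
lemma repCost_mono (f : Store ι → Store ι) (g : Store ι → ℕ) {i j : ℕ} (h : i ≤ j)
    (s : Store ι) : repCost f g i s ≤ repCost f g j s := by
  induction i generalizing j s with
  | zero => exact Nat.zero_le _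
  | succ i ih =>
    obtain ⟨j', rfl⟩ : ∃ j', j = j' + 1 := ⟨j - 1, by omega⟩
    have := ih (j := j') (by omega) (f s)
    simp only [repCost]
    omega

lemma Cmd.cost_le {S : ι → Bool} {c : Cmd ι} (h : c.stable S = true) {b : ℕ} {s : Store ι}
    (hs : ∀ a, S a = true → s a 0 ≤ b) : c.cost s ≤ c.costPoly.eval b := by
  induction c generalizing s with
  | skip => simp [Cmd.cost, Cmd.costPoly]
  | seq c d ihc ihd =>
    simp only [Cmd.stable, Bool.and_eq_true] at h
    have h1 := ihc h.1 hs
    have h2 := ihd h.2 (s := c.exec s) (fun a ha => by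
      rw [c.frame (Cmd.not_writes_of_stable h.1 ha)]; exact hs a ha)
    simp only [Cmd.cost, Cmd.costPoly, Polynomial.eval_add, Polynomial.eval_one]
    omega
  | set a i e =>
    simp [Cmd.cost, Cmd.costPoly]
  | cmp e f c1 c2 c3 ih1 ih2 ih3 =>
    simp only [Cmd.stable, Bool.and_eq_true] at h
    have h1 := ih1 h.1.1 hs
    have h2 := ih2 h.1.2 hs
    have h3 := ih3 h.2 hs
    simp only [Cmd.cost, Cmd.costPoly, Polynomial.eval_add, Polynomial.eval_C]
    split_ifs <;> omega
  | rep e c ih =>
    simp only [Cmd.stable, Bool.and_eq_true] at h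
    have h1 := Exp.isBd_le h.1 hs
    have key : ∀ (m : ℕ) (s : Store ι), (∀ a, S a = true → s a 0 ≤ b) →
        repCost c.exec c.cost m s ≤ m * (1 + c.costPoly.eval b) := by
      intro m
      induction m with
      | zero => intro s _; simp [repCost]
      | succ m ihm =>
        intro s hs
        have h2 := ih h.2 hs
        have h3 := ihm (c.exec s) (fun a ha => by
          rw [c.frame (Cmd.not_writes_of_stable h.2 ha)]; exact hs a ha)
        simp only [repCost]
        rw [Nat.add_mul]
        omega
    have h2 := key (e.eval s) s hs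
    have h3 : e.eval s * (1 + c.costPoly.eval b) ≤ (b + 1) * (1 + c.costPoly.eval b) :=
      Nat.mul_le_mul_right _ h1
    simp only [Cmd.cost, Cmd.costPoly, Polynomial.eval_add, Polynomial.eval_C,
      Polynomial.eval_mul, Polynomial.eval_X, Polynomial.eval_one]
    omega

end Pool.Agent.Lib.MP_fe081e_lc.Alg
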