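import Mathlib

/-!
A small imperative language: arrays of natural numbers, increments, comparisons and bounded
repetition.  All programs terminate; `Cmd.cost` counts the elementary steps.
-/

namespace Pool.Agent.Lib.MP_fe081e_lc.Alg

/-- Expressions: zero, successor, array access. -/
inductive Exp (ι : Type) : Type
  | zero : Exp ι
  | succ : Exp ι → Exp ι
  | get : ι → Exp ι → Exp ι

/-- A store assigns to each array name an infinite array. -/
abbrev Store (ι : Type) : Type := ι → ℕ → ℕ

variable {ι : Type}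

/-- value of an expression -/
def Exp.eval (s : Store ι) : Exp ι → ℕ
  | .zero => 0
  | .succ e => e.eval s + 1
  | .get a e => s a (e.eval s)

@[simp] lemma Exp.eval_zero (s : Store ι) : (Exp.zero : Exp ι).eval s = 0 := rfl
@[simp] lemma Exp.eval_succ (s : Store ι) (e : Exp ι) : (Exp.succ e).eval s = e.eval s + 1 := rfl
@[simp] lemma Exp.eval_get (s : Store ι) (a : ι) (e : Exp ι) :
    (Exp.get a e).eval s = s a (e.eval s) := rfl

/-- Commands. -/
inductive Cmd (ι : Type) : Type
  | skip : Cmd ι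
  | seq : Cmd ι → Cmd ι → Cmd ι
  | set : ι → Exp ι → Exp ι → Cmd ι
  | cmp : Exp ι → Exp ι → Cmd ι → Cmd ι → Cmd ι → Cmd ι
  | rep : Exp ι → Cmd ι → Cmd ι

section Exec

variable [DecidableEq ι]

/-- update of one cell -/
def upd (s : Store ι) (a : ι) (i v : ℕ) : Store ι :=
  fun a' i' => if a' = a ∧ i' = i then v else s a' i'

lemma upd_apply (s : Store ι) (a : ι) (i v : ℕ) (a' : ι) (i' : ℕ) :
    upd s a i v a' i' = if a' = a ∧ i' = i then v else s a' i' := rfl

@[simp] lemma upd_self (s : Store ι) (a : ι) (i v : ℕ) : upd s a i v a i = v := by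
  simp [upd]

lemma upd_of_ne (s : Store ι) {a b : ι} (i v : ℕ) (h : b ≠ a) : upd s a i v b = s b := by
  funext i'
  simp [upd, h]

@[simp] lemma upd_same (s : Store ι) (a : ι) (i v i' : ℕ) :
    upd s a i v a i' = if i' = i then v else s a i' := by
  simp [upd]

/-- execution of a command -/
def Cmd.exec : Cmd ι → Store ι → Store ι
  | .skip, s => s
  | .seq c d, s => d.exec (c.exec s)
  | .set a i e, s => upd s a (i.eval s) (e.eval s)
  | .cmp e f c1 c2 c3, s =>
      if e.eval s < f.eval s then c1.exec s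
      else if e.eval s = f.eval s then c2.exec s else c3.exec s
  | .rep e c, s => c.exec^[e.eval s] s

@[simp] lemma Cmd.exec_skip (s : Store ι) : (Cmd.skip : Cmd ι).exec s = s := rfl
@[simp] lemma Cmd.exec_seq (c d : Cmd ι) (s : Store ι) :
    (Cmd.seq c d).exec s = d.exec (c.exec s) := rfl
@[simp] lemma Cmd.exec_set (a : ι) (i e : Exp ι) (s : Store ι) :
    (Cmd.set a i e).exec s = upd s a (i.eval s) (e.eval s) := rfl
lemma Cmd.exec_cmp (e f : Exp ι) (c1 c2 c3 : Cmd ι) (s : Store ι) :
    (Cmd.cmp e f c1 c2 c3).exec s = if e.eval s < f.eval s then c1.exec s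
      else if e.eval s = f.eval s then c2.exec s else c3.exec s := rfl
lemma Cmd.exec_rep (e : Exp ι) (c : Cmd ι) (s : Store ι) :
    (Cmd.rep e c).exec s = c.exec^[e.eval s] s := rfl

/-- size of an expression -/
def Exp.size : Exp ι → ℕ
  | .zero => 1
  | .succ e => e.size + 1
  | .get _ e => e.size + 1

/-- cost of the `n`-fold repetition -/
def repCost (step : Store ι → Store ι) (cost : Store ι → ℕ) : ℕ → Store ι → ℕ
  | 0, _ => 0
  | n + 1, s => 1 + cost s + repCost step cost n (step s)

/-- number of elementary steps -/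
def Cmd.cost : Cmd ι → Store ι → ℕ
  | .skip, _ => 1
  | .seq c d, s => 1 + c.cost s + d.cost (c.exec s)
  | .set _ i e, _ => 1 + i.size + e.size
  | .cmp e f c1 c2 c3, s => 1 + e.size + f.size +
      (if e.eval s < f.eval s then c1.cost s
        else if e.eval s = f.eval s then c2.cost s else c3.cost s)
  | .rep e c, s => 1 + e.size + repCost c.exec c.cost (e.eval s) s

/-- the array `a` is written by the command -/
def Cmd.writes : Cmd ι → ι → Prop
  | .skip, _ => False
  | .seq c d, a => c.writes a ∨ d.writes a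
  | .set b _ _, a => a = b
  | .cmp _ _ c1 c2 c3, a => c1.writes a ∨ c2.writes a ∨ c3.writes a
  | .rep _ c, a => c.writes a

omit [DecidableEq ι] in
lemma iterate_frame {f : Store ι → Store ι} {a : ι} (h : ∀ s, f s a = s a) (n : ℕ) (s : Store ι) :
    f^[n] s a = s a := by
  induction n generalizing s with
  | zero => rfl
  | succ n ih => rw [Function.iterate_succ_apply, ih, h]

lemma Cmd.frame (c : Cmd ι) {a : ι} (h : ¬ c.writes a) (s : Store ι) : c.exec s a = s a := by
  induction c generalizing s with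
  | skip => rfl
  | seq c d ihc ihd =>
    simp only [Cmd.writes, not_or] at h
    rw [Cmd.exec_seq, ihd h.2, ihc h.1]
  | set b i e =>
    simp only [Cmd.writes] at h
    rw [Cmd.exec_set, upd_of_ne _ _ _ h]
  | cmp e f c1 c2 c3 ih1 ih2 ih3 =>
    simp only [Cmd.writes, not_or] at h
    rw [Cmd.exec_cmp]
    split_ifs
    · exact ih1 h.1 s
    · exact ih2 h.2.1 s
    · exact ih3 h.2.2 s
  | rep e c ih =>
    simp only [Cmd.writes] at h
    rw [Cmd.exec_rep]
    exact iterate_frame (fun s => ih h s) _ _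

/-! ### Derived commands -/

/-- scalar variable -/
def V (a : ι) : Exp ι := .get a .zero

omit [DecidableEq ι] in
@[simp] lemma eval_V (s : Store ι) (a : ι) : (V a).eval s = s a 0 := rfl

/-- assignment to a scalar -/
def setv (a : ι) (e : Exp ι) : Cmd ι := .set a .zero e

@[simp] lemma exec_setv (a : ι) (e : Exp ι) (s : Store ι) :
    (setv a e).exec s = upd s a 0 (e.eval s) := rfl

/-- increment of a scalar -/
def incv (a : ι) : Cmd ι := setv a (.succ (V a))

@[simp] lemma exec_incv (a : ι) (s : Store ι) :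
    (incv a).exec s = upd s a 0 (s a 0 + 1) := rfl

/-- `for x = 0, ..., e - 1 do c` -/
def For (x : ι) (e : Exp ι) (c : Cmd ι) : Cmd ι :=
  .seq (setv x .zero) (.rep e (.seq c (incv x)))

lemma for_rule {x : ι} {e : Exp ι} {c : Cmd ι} {s : Store ι} (N : ℕ)
    (hN : e.eval (upd s x 0 0) = N) (hx : ¬ c.writes x) (I : ℕ → Store ι → Prop)
    (h0 : I 0 (upd s x 0 0))
    (hstep : ∀ j < N, ∀ s', s' x 0 = j → I j s' → I (j + 1) (upd (c.exec s') x 0 (j + 1))) :
    I N ((For x e c).exec s) := by
  unfold For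
  rw [Cmd.exec_seq, Cmd.exec_rep, exec_setv, Exp.eval_zero, hN]
  have key : ∀ m ≤ N, (((c.seq (incv x)).exec)^[m] (upd s x 0 0)) x 0 = m ∧
      I m (((c.seq (incv x)).exec)^[m] (upd s x 0 0)) := by
    intro m
    induction m with
    | zero => intro _; exact ⟨by simp, h0⟩
    | succ m ih =>
      intro hm
      obtain ⟨h1, h2⟩ := ih (by omega)
      rw [Function.iterate_succ_apply', Cmd.exec_seq, exec_incv]
      rw [Cmd.frame c hx, h1]
      exact ⟨by simp, hstep m (by omega) _ h1 h2⟩
  exact (key N le_rfl).2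

/-- if `e = f` then `c` -/
def ifeq (e f : Exp ι) (c : Cmd ι) : Cmd ι := .cmp e f .skip c .skip
/-- if `e ≠ f` then `c` -/
def ifne (e f : Exp ι) (c : Cmd ι) : Cmd ι := .cmp e f c .skip c
/-- if `e < f` then `c` -/
def iflt (e f : Exp ι) (c : Cmd ι) : Cmd ι := .cmp e f c .skip .skip
/-- if `e ≤ f` then `c` -/
def ifle (e f : Exp ι) (c : Cmd ι) : Cmd ι := .cmp e f c c .skip

lemma exec_ifeq (e f : Exp ι) (c : Cmd ι) (s : Store ι) :
    (ifeq e f c).exec s = if e.eval s = f.eval s then c.exec s else s := by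
  unfold ifeq
  rw [Cmd.exec_cmp]
  split_ifs <;> first | rfl | omega

lemma exec_ifne (e f : Exp ι) (c : Cmd ι) (s : Store ι) :
    (ifne e f c).exec s = if e.eval s ≠ f.eval s then c.exec s else s := by
  unfold ifne
  rw [Cmd.exec_cmp]
  split_ifs <;> first | rfl | omega

lemma exec_iflt (e f : Exp ι) (c : Cmd ι) (s : Store ι) :
    (iflt e f c).exec s = if e.eval s < f.eval s then c.exec s else s := by
  unfold iflt
  rw [Cmd.exec_cmp]
  split_ifs <;> rfl

lemma exec_ifle (e f : Exp ι) (c : Cmd ι) (s : Store ι) :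
    (ifle e f c).exec s = if e.eval s ≤ f.eval s then c.exec s else s := by
  unfold ifle
  rw [Cmd.exec_cmp]
  split_ifs <;> first | rfl | omega

lemma ifeq_pos {e f : Exp ι} {c : Cmd ι} {s : Store ι} (h : e.eval s = f.eval s) :
    (ifeq e f c).exec s = c.exec s := by rw [exec_ifeq, if_pos h]

lemma ifeq_neg {e f : Exp ι} {c : Cmd ι} {s : Store ι} (h : e.eval s ≠ f.eval s) :
    (ifeq e f c).exec s = s := by rw [exec_ifeq, if_neg h]

lemma ifne_pos {e f : Exp ι} {c : Cmd ι} {s : Store ι} (h : e.eval s ≠ f.eval s) :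
    (ifne e f c).exec s = c.exec s := by rw [exec_ifne, if_pos h]

lemma ifne_neg {e f : Exp ι} {c : Cmd ι} {s : Store ι} (h : e.eval s = f.eval s) :
    (ifne e f c).exec s = s := by rw [exec_ifne, if_neg (by rw [not_not]; exact h)]

lemma iflt_pos {e f : Exp ι} {c : Cmd ι} {s : Store ι} (h : e.eval s < f.eval s) :
    (iflt e f c).exec s = c.exec s := by rw [exec_iflt, if_pos h]

lemma iflt_neg {e f : Exp ι} {c : Cmd ι} {s : Store ι} (h : ¬ e.eval s < f.eval s) :
    (iflt e f c).exec s = s := by rw [exec_iflt, if_neg h]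

lemma ifle_pos {e f : Exp ι} {c : Cmd ι} {s : Store ι} (h : e.eval s ≤ f.eval s) :
    (ifle e f c).exec s = c.exec s := by rw [exec_ifle, if_pos h]

lemma ifle_neg {e f : Exp ι} {c : Cmd ι} {s : Store ι} (h : ¬ e.eval s ≤ f.eval s) :
    (ifle e f c).exec s = s := by rw [exec_ifle, if_neg h]

end Exec

end Pool.Agent.Lib.MP_fe081e_lc.Alg
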