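import Pool.Agent.Lib.MP_fe081e_lc.PT.Bridge

/-!
Array operations on binary trees, computable in polynomial time.
-/

namespace Pool.Agent.Lib.MP_fe081e_lc.Alg

open Pool.Agent.Lib.MP_fe081e_lc.PT

/-- the `i`-th entry of a tree read as a list (right spine) -/
def nth : ℕ → T → T
  | 0, t => t.left
  | i + 1, t => nth i t.right

/-- replace the `i`-th entry -/
def put : ℕ → T → T → T
  | 0, v, t => T.node v t.right
  | i + 1, v, t => T.node t.left (put i v t.right)

/-- the first `i` entries of `t`, transformed by `h`, followed by `w` -/
def rb (h : T → T) : ℕ → T → T → T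
  | 0, _, w => w
  | i + 1, t, w => T.node (h t.left) (rb h i t.right w)

/-- length of the right spine -/
def len : T → ℕ
  | .nil => 0
  | .node _ r => len r + 1

/-- the right spine in unary -/
def spine : T → T
  | .nil => .nil
  | .node _ r => .node .nil (spine r)

lemma nth_put (i : ℕ) (v t : T) (j : ℕ) : nth j (put i v t) = if j = i then v else nth j t := by
  induction i generalizing j t with
  | zero =>
    cases j with
    | zero => simp [nth, put, T.left]
    | succ j => simp [nth, put, T.right]
  | succ i ih =>
    cases j with
    | zero => simp [nth, put, T.left]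
    | succ j => simp [nth, put, T.right, ih]

lemma nth_eq (i : ℕ) (t : T) : nth i t = (T.right^[i] t).left := by
  induction i generalizing t with
  | zero => rfl
  | succ i ih => rw [nth, ih, Function.iterate_succ_apply]

lemma put_eq (i : ℕ) (v t : T) : put i v t = rb id i t (T.node v (T.right^[i] t).right) := by
  induction i generalizing t with
  | zero => rfl
  | succ i ih => rw [put, rb, ih, Function.iterate_succ_apply]; rfl

lemma size_right (t : T) : t.right.size ≤ t.size := by
  cases t <;> simp [T.right]

lemma size_left (t : T) : t.left.size ≤ t.size := by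
  cases t
  · simp [T.left]
  · simp only [T.left, T.size_node]; omega

lemma size_iter_right (i : ℕ) (t : T) : (T.right^[i] t).size ≤ t.size := by
  induction i generalizing t with
  | zero => exact le_rfl
  | succ i ih => rw [Function.iterate_succ_apply]; exact (ih _).trans (size_right t)

lemma size_nth (i : ℕ) (t : T) : (nth i t).size ≤ t.size := by
  rw [nth_eq]
  exact (size_left _).trans (size_iter_right i t)

lemma len_le_size (t : T) : len t ≤ t.size := by
  induction t with
  | nil => exact le_rfl
  | node l r _ ih => simp only [len, T.size_node]; omega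

lemma size_le_of_nth {M : ℕ} (t : T) (h : ∀ a, (nth a t).size ≤ M) :
    t.size ≤ len t * (M + 1) := by
  induction t with
  | nil => simp
  | node l r _ ih =>
    have h0 := h 0
    have h1 := ih (fun a => h (a + 1))
    simp only [nth, T.left] at h0
    simp only [len, T.size_node]
    rw [Nat.add_mul]
    omega

lemma len_put (i : ℕ) (v t : T) : len (put i v t) ≤ max (len t) (i + 1) := by
  induction i generalizing t with
  | zero =>
    cases t with
    | nil => simp [put, len, T.right]
    | node l r => simp [put, len, T.right]
  | succ i ih =>
    cases t with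
    | nil =>
      have := ih .nil
      simp only [put, len, T.right] at this ⊢
      omega
    | node l r =>
      have := ih r
      simp only [put, len, T.right] at this ⊢
      omega

lemma size_iter_le {h : T → T} {c : ℕ} (hh : ∀ p, (h p).size ≤ p.size + c) (i : ℕ) (p : T) :
    (h^[i] p).size ≤ p.size + c * i := by
  induction i generalizing p with
  | zero => simp
  | succ i ih =>
    rw [Function.iterate_succ_apply]
    have h1 := ih (h p)
    have h2 := hh p
    rw [Nat.mul_add]
    omega

/-! ### Polynomial time -/

section FPlemmas

lemma fp_iter_right {n g : T → T} (hn : FP n) (hg : FP g) :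
    FP (fun x => T.right^[(n x).size] (g x)) := by
  obtain ⟨Qg, hQg⟩ := hg.1
  refine FP.iter hn FP.right hg ⟨Qg, fun x i _ => ?_⟩
  exact (size_iter_right i _).trans (hQg x)

lemma fp_nth {n g : T → T} (hn : FP n) (hg : FP g) : FP (fun x => nth (n x).size (g x)) := by
  have h := FP.comp FP.left (fp_iter_right hn hg)
  have e : (fun x => nth (n x).size (g x)) = fun x => (T.right^[(n x).size] (g x)).left := by
    funext x; rw [nth_eq]
  rw [e]; exact h

/-- move the head of the second list to the first one -/
def mvA (p : T) : T := T.node (T.node p.right.left p.left) p.right.right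

/-- move the head of the first list to the second one, transformed by `h` -/
def mvB (h : T → T) (p : T) : T := T.node p.left.right (T.node (h p.left.left) p.right)

lemma fp_mvA : FP mvA :=
  FP.pair (FP.pair (FP.comp FP.left FP.right) FP.left) (FP.comp FP.right FP.right)

lemma fp_mvB {h : T → T} (hh : FP h) : FP (mvB h) :=
  FP.pair (FP.comp FP.right FP.left)
    (FP.pair (FP.comp hh (FP.comp FP.left FP.left)) FP.right)

lemma size_mvA (p : T) : (mvA p).size ≤ p.size + 2 := by
  unfold mvA
  cases p with
  | nil => simp [T.left, T.right]
  | node l r =>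
    cases r with
    | nil => simp only [T.left, T.right, T.size_node, T.size_nil]; omega
    | node a b => simp only [T.left, T.right, T.size_node]; omega

lemma size_mvB {h : T → T} (hle : ∀ v, (h v).size ≤ v.size + 1) (p : T) :
    (mvB h p).size ≤ p.size + 3 := by
  unfold mvB
  cases p with
  | nil =>
    have := hle .nil
    simp only [T.left, T.right, T.size_node, T.size_nil] at this ⊢; omega
  | node l r =>
    have := hle l.left
    cases l with
    | nil => simp only [T.left, T.right, T.size_node, T.size_nil] at this ⊢; omega
    | node a b => simp only [T.left, T.right, T.size_node] at this ⊢; omega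

lemma mvB_iter (h : T → T) (i : ℕ) (f t w : T) :
    (mvB h)^[i] (T.node (mvA^[i] (T.node f t)).left w) = T.node f (rb h i t w) := by
  induction i generalizing f t with
  | zero => rfl
  | succ i ih =>
    rw [Function.iterate_succ_apply' (mvB h), Function.iterate_succ_apply mvA]
    have h1 : mvA (T.node f t) = T.node (T.node t.left f) t.right := rfl
    rw [h1, ih]
    rfl

lemma fp_rb {h n g w : T → T} (hh : FP h) (hle : ∀ v, (h v).size ≤ v.size + 1) (hn : FP n)
    (hg : FP g) (hw : FP w) : FP (fun x => rb h (n x).size (g x) (w x)) := by
  obtain ⟨Qg, hQg⟩ := hg.1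
  obtain ⟨Qn, hQn⟩ := hn.1
  obtain ⟨Qw, hQw⟩ := hw.1
  have hstart : FP (fun x => T.node .nil (g x)) := FP.pair (FP.const _) hg
  have bd1 : ∀ x, ∀ i ≤ (n x).size, (mvA^[i] (T.node .nil (g x))).size ≤
      (1 + Qg + 2 * Qn).eval x.size := by
    intro x i hi
    have h1 := size_iter_le size_mvA i (T.node .nil (g x))
    have h2 := hQg x
    have h3 := hQn x
    simp only [T.size_node, T.size_nil] at h1
    simp only [Polynomial.eval_add, Polynomial.eval_one, Polynomial.eval_mul,
      Polynomial.eval_ofNat]
    omega
  have hA : FP (fun x => mvA^[(n x).size] (T.node .nil (g x))) :=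
    FP.iter hn fp_mvA hstart ⟨_, bd1⟩
  have hmid : FP (fun x => T.node (mvA^[(n x).size] (T.node .nil (g x))).left (w x)) :=
    FP.pair (FP.comp FP.left hA) hw
  have hB : FP (fun x => (mvB h)^[(n x).size]
      (T.node (mvA^[(n x).size] (T.node .nil (g x))).left (w x))) := by
    refine FP.iter hn (fp_mvB hh) hmid ⟨(1 + (1 + Qg + 2 * Qn) + Qw) + 3 * Qn, fun x i hi => ?_⟩
    have h1 := size_iter_le (size_mvB hle) i
      (T.node (mvA^[(n x).size] (T.node .nil (g x))).left (w x))
    have h2 := bd1 x _ le_rfl
    have h3 := size_left (mvA^[(n x).size] (T.node .nil (g x)))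
    have h4 := hQw x
    have h5 := hQn x
    simp only [T.size_node] at h1
    simp only [Polynomial.eval_add, Polynomial.eval_one, Polynomial.eval_mul,
      Polynomial.eval_ofNat] at h2 ⊢
    omega
  have hR := FP.comp FP.right hB
  have e : (fun x => rb h (n x).size (g x) (w x)) = fun x => ((mvB h)^[(n x).size]
      (T.node (mvA^[(n x).size] (T.node .nil (g x))).left (w x))).right := by
    funext x
    rw [mvB_iter]
    rfl
  rw [e]; exact hR

lemma fp_put {n v g : T → T} (hn : FP n) (hv : FP v) (hg : FP g) :
    FP (fun x => put (n x).size (v x) (g x)) := by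
  have h := fp_rb (h := id) FP.id (fun v => Nat.le_succ _) hn hg
    (FP.pair hv (FP.comp FP.right (fp_iter_right hn hg)))
  have e : (fun x => put (n x).size (v x) (g x)) =
      fun x => rb id (n x).size (g x) (T.node (v x) (T.right^[(n x).size] (g x)).right) := by
    funext x; rw [put_eq]
  rw [e]; exact h

/-- tree subtraction of sizes -/
lemma fp_sub {f g : T → T} (hf : FP f) (hg : FP g) :
    FP (fun x => T.unary ((f x).size - (g x).size)) := by
  obtain ⟨Qf, hQf⟩ := hf.1
  have h1 : FP (fun x => (T.node .nil)^[(f x).size] .nil) := by
    refine FP.iter hf (FP.pair (FP.const _) FP.id) (FP.const .nil) ⟨Qf, fun x i hi => ?_⟩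
    have h2 := size_iter_le (h := T.node .nil) (c := 1)
      (fun p => by simp only [T.size_node, T.size_nil]; omega) i .nil
    have h3 := hQf x
    simp only [T.size_nil] at h2
    omega
  have e1 : ∀ k, (T.node .nil)^[k] .nil = T.unary k := by
    intro k
    induction k with
    | zero => rfl
    | succ k ih => rw [Function.iterate_succ_apply', ih]; rfl
  have h2 := fp_iter_right hg h1
  have e2 : ∀ a b, T.right^[b] (T.unary a) = T.unary (a - b) := by
    intro a b
    induction b generalizing a with
    | zero => rfl
    | succ b ih =>
      rw [Function.iterate_succ_apply]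
      cases a with
      | zero =>
        have := ih 0
        simpa [T.unary, T.right] using this
      | succ a =>
        have := ih a
        simp only [T.unary, T.right]
        rw [this]
        congr 1
        omega
  have e : (fun x => T.unary ((f x).size - (g x).size)) =
      fun x => T.right^[(g x).size] ((T.node .nil)^[(f x).size] .nil) := by
    funext x; rw [e1, e2]
  rw [e]; exact h2

lemma ifnil_unary {α : Type*} (k : ℕ) (a b : α) :
    (T.unary k).ifnil a b = if k = 0 then a else b := by
  cases k <;> simp [T.unary, T.ifnil]

lemma fp_cmp {e f c1 c2 c3 : T → T} (he : FP e) (hf : FP f) (h1 : FP c1) (h2 : FP c2)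
    (h3 : FP c3) : FP (fun x => if (e x).size < (f x).size then c1 x
      else if (e x).size = (f x).size then c2 x else c3 x) := by
  have h := FP.ifnil (fp_sub hf he) (FP.ifnil (fp_sub he hf) h2 h3) h1
  have e' : (fun x => if (e x).size < (f x).size then c1 x
      else if (e x).size = (f x).size then c2 x else c3 x) =
      fun x => (T.unary ((f x).size - (e x).size)).ifnil
        ((T.unary ((e x).size - (f x).size)).ifnil (c2 x) (c3 x)) (c1 x) := by
    funext x
    rw [ifnil_unary, ifnil_unary]
    split_ifs <;> first | rfl | omega
  rw [e']; exact h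

/-- one step of the computation of the spine -/
def spStep (p : T) : T := p.right.ifnil p (T.node (T.node .nil p.left) p.right.right)

lemma fp_spStep : FP spStep :=
  FP.ifnil FP.right FP.id (FP.pair (FP.pair (FP.const _) FP.left) (FP.comp FP.right FP.right))

lemma size_spStep (p : T) : (spStep p).size ≤ p.size + 1 := by
  unfold spStep
  cases p with
  | nil => simp [T.right, T.ifnil]
  | node l r =>
    cases r with
    | nil => simp [T.right, T.ifnil]
    | node a b => simp only [T.left, T.right, T.ifnil, T.size_node, T.size_nil]; omega

lemma spStep_iter (k j : ℕ) (t : T) (h : len t ≤ k) :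
    (spStep^[k] (T.node (T.unary j) t)).left = T.unary (j + len t) := by
  induction k generalizing j t with
  | zero =>
    have : len t = 0 := by omega
    rw [this]; rfl
  | succ k ih =>
    rw [Function.iterate_succ_apply]
    cases t with
    | nil =>
      have h1 : spStep (T.node (T.unary j) .nil) = T.node (T.unary j) .nil := rfl
      rw [h1]
      exact ih j .nil (by simp [len])
    | node a b =>
      have h1 : spStep (T.node (T.unary j) (.node a b)) = T.node (T.unary (j + 1)) b := rfl
      rw [h1, ih (j + 1) b (by simp only [len] at h; omega)]
      simp only [len]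
      congr 1
      omega

lemma fp_len {g : T → T} (hg : FP g) : FP (fun x => T.unary (len (g x))) := by
  obtain ⟨Qg, hQg⟩ := hg.1
  have h1 : FP (fun x => spStep^[(g x).size] (T.node .nil (g x))) := by
    refine FP.iter hg fp_spStep (FP.pair (FP.const _) hg) ⟨1 + 2 * Qg, fun x i hi => ?_⟩
    have h2 := size_iter_le size_spStep i (T.node .nil (g x))
    have h3 := hQg x
    simp only [T.size_nil, T.size_node] at h2
    simp only [Polynomial.eval_add, Polynomial.eval_one, Polynomial.eval_mul,
      Polynomial.eval_ofNat]
    omega
  have h2 := FP.comp FP.left h1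
  have e : (fun x => T.unary (len (g x))) =
      fun x => (spStep^[(g x).size] (T.node .nil (g x))).left := by
    funext x
    have := spStep_iter (g x).size 0 (g x) (len_le_size _)
    rw [Nat.zero_add] at this
    exact this.symm
  rw [e]; exact h2

end FPlemmas

end Pool.Agent.Lib.MP_fe081e_lc.Alg
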