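import Pool.Agent.Lib.MP_fe081e_lc.Alg.Cost
import Pool.Agent.Lib.MP_fe081e_lc.Alg.TreeOps

/-!
Execution of the commands on stores represented by binary trees, in polynomial time.
-/

namespace Pool.Agent.Lib.MP_fe081e_lc.Alg

open Pool.Agent.Lib.MP_fe081e_lc.PT

variable {ι : Type} (ix : ι → ℕ)

/-- the store represented by a tree -/
def absT (t : T) : Store ι := fun a i => (nth i (nth (ix a) t)).size

/-- evaluation of expressions on trees -/
def evalT : Exp ι → T → T
  | .zero, _ => .nil
  | .succ e, t => .node .nil (evalT e t)
  | .get a e, t => nth (evalT e t).size (nth (ix a) t)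

/-- execution of commands on trees -/
def execT : Cmd ι → T → T
  | .skip, t => t
  | .seq c d, t => execT d (execT c t)
  | .set a i e, t => put (ix a) (put (evalT ix i t).size (evalT ix e t) (nth (ix a) t)) t
  | .cmp e f c1 c2 c3, t =>
      if (evalT ix e t).size < (evalT ix f t).size then execT c1 t
      else if (evalT ix e t).size = (evalT ix f t).size then execT c2 t else execT c3 t
  | .rep e c, t => (execT c)^[(evalT ix e t).size] t

lemma size_evalT (e : Exp ι) (t : T) : (evalT ix e t).size = e.eval (absT ix t) := by
  induction e with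
  | zero => rfl
  | succ e ih => simp only [evalT, T.size_node, T.size_nil, ih, Exp.eval_succ]; omega
  | get a e ih => simp only [evalT, ih, Exp.eval_get, absT]

variable [DecidableEq ι]

lemma abs_execT (hix : Function.Injective ix) (c : Cmd ι) (t : T) :
    absT ix (execT ix c t) = c.exec (absT ix t) := by
  induction c generalizing t with
  | skip => rfl
  | seq c d ihc ihd => rw [execT, ihd, ihc, Cmd.exec_seq]
  | set a i e =>
    funext b j
    rw [Cmd.exec_set, upd_apply, ← size_evalT, ← size_evalT]
    simp only [absT, execT]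
    rw [nth_put]
    by_cases hb : b = a
    · subst hb
      rw [if_pos rfl, nth_put]
      by_cases hj : j = (evalT ix i t).size
      · simp [hj]
      · simp [hj]
    · rw [if_neg (fun h => hb (hix h)), if_neg (fun h => hb h.1)]
  | cmp e f c1 c2 c3 ih1 ih2 ih3 =>
    rw [Cmd.exec_cmp, execT, size_evalT, size_evalT]
    split_ifs
    · exact ih1 t
    · exact ih2 t
    · exact ih3 t
  | rep e c ih =>
    rw [Cmd.exec_rep, execT, size_evalT]
    generalize e.eval (absT ix t) = m
    induction m generalizing t with
    | zero => rfl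
    | succ m ihm => rw [Function.iterate_succ_apply, Function.iterate_succ_apply, ihm, ih]

/-- all the dimensions and entries of the tree are at most `N` -/
def Bd (N : ℕ) (t : T) : Prop :=
  len t ≤ N ∧ ∀ a, len (nth a t) ≤ N ∧ ∀ i, (nth i (nth a t)).size ≤ N

lemma Bd.mono {N M : ℕ} {t : T} (h : Bd N t) (hNM : N ≤ M) : Bd M t :=
  ⟨h.1.trans hNM, fun a => ⟨(h.2 a).1.trans hNM, fun i => ((h.2 a).2 i).trans hNM⟩⟩

lemma Bd.self (t : T) : Bd t.size t :=
  ⟨len_le_size t, fun a => ⟨(len_le_size _).trans (size_nth a t),
    fun i => (size_nth _ _).trans (size_nth a t)⟩⟩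

lemma Bd.size_le {N : ℕ} {t : T} (h : Bd N t) : t.size ≤ N * (N * (N + 1) + 1) := by
  have h1 : ∀ a, (nth a t).size ≤ N * (N + 1) := fun a =>
    (size_le_of_nth (nth a t) (h.2 a).2).trans (Nat.mul_le_mul_right _ (h.2 a).1)
  exact (size_le_of_nth t h1).trans (Nat.mul_le_mul_right _ h.1)

omit [DecidableEq ι] in
lemma Bd.evalT {N : ℕ} {t : T} (h : Bd N t) (e : Exp ι) : (evalT ix e t).size ≤ N + e.size := by
  induction e with
  | zero => simp [Alg.evalT]
  | succ e ih => simp only [Alg.evalT, T.size_node, T.size_nil, Exp.size]; omega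
  | get a e _ =>
    simp only [Alg.evalT, Exp.size]
    have := (h.2 (ix a)).2 (Alg.evalT ix e t).size
    omega

lemma Bd.execT (hix : Function.Injective ix) {N : ℕ} (hN : ∀ a, ix a < N) {t : T}
    (c : Cmd ι) (h : Bd N t) : Bd (N + c.cost (absT ix t)) (execT ix c t) := by
  induction c generalizing t N with
  | skip => exact h.mono (Nat.le_add_right _ _)
  | seq c d ihc ihd =>
    have h1 := ihc hN h
    have h2 := ihd (fun a => (hN a).trans_le (Nat.le_add_right _ _)) h1
    rw [abs_execT ix hix] at h2
    refine h2.mono ?_
    simp only [Cmd.cost]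
    omega
  | set a i e =>
    have h1 := h.evalT ix i
    have h2 := h.evalT ix e
    simp only [Alg.execT, Cmd.cost]
    set vi := (Alg.evalT ix i t).size with hvi
    refine ⟨?_, fun b => ?_⟩
    · have h3 := len_put (ix a) (put vi (Alg.evalT ix e t) (nth (ix a) t)) t
      have h4 := h.1
      have h5 := hN a
      omega
    · rw [nth_put]
      by_cases hb : b = ix a
      · rw [if_pos hb]
        refine ⟨?_, fun j => ?_⟩
        · have h3 := len_put vi (Alg.evalT ix e t) (nth (ix a) t)
          have h4 := (h.2 (ix a)).1
          omega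
        · rw [nth_put]
          split_ifs with hj
          · omega
          · have := (h.2 (ix a)).2 j
            omega
      · rw [if_neg hb]
        refine ⟨?_, fun j => ?_⟩
        · have h4 := (h.2 b).1
          omega
        · have := (h.2 b).2 j
          omega
  | cmp e f c1 c2 c3 ih1 ih2 ih3 =>
    simp only [Alg.execT, Cmd.cost, size_evalT]
    split_ifs
    · exact (ih1 hN h).mono (by omega)
    · exact (ih2 hN h).mono (by omega)
    · exact (ih3 hN h).mono (by omega)
  | rep e c ih =>
    simp only [Alg.execT, Cmd.cost, size_evalT]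
    have key : ∀ (m N : ℕ) (t : T), (∀ a, ix a < N) → Bd N t →
        Bd (N + repCost c.exec c.cost m (absT ix t)) ((Alg.execT ix c)^[m] t) := by
      intro m
      induction m with
      | zero => intro N t _ h; exact h.mono (Nat.le_add_right _ _)
      | succ m ihm =>
        intro N t hN h
        rw [Function.iterate_succ_apply]
        have h1 := ih hN h
        have h2 := ihm _ _ (fun a => (hN a).trans_le (Nat.le_add_right _ _)) h1
        rw [abs_execT ix hix] at h2
        refine h2.mono ?_
        simp only [repCost]
        omega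
    exact (key _ _ _ hN h).mono (by omega)

lemma Bd.iterT (hix : Function.Injective ix) (c : Cmd ι) (m : ℕ) {N : ℕ} {t : T}
    (hN : ∀ a, ix a < N) (h : Bd N t) :
    Bd (N + repCost c.exec c.cost m (absT ix t)) ((Alg.execT ix c)^[m] t) := by
  induction m generalizing t N with
  | zero => exact h.mono (Nat.le_add_right _ _)
  | succ m ihm =>
    rw [Function.iterate_succ_apply]
    have h1 := h.execT ix hix hN c
    have h2 := ihm (fun a => (hN a).trans_le (Nat.le_add_right _ _)) h1
    rw [abs_execT ix hix] at h2
    refine h2.mono ?_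
    simp only [repCost]
    omega

/-! ### Polynomial time -/

omit [DecidableEq ι] in
lemma fp_evalT (e : Exp ι) : FP (evalT ix e) := by
  induction e with
  | zero => exact FP.const _
  | succ e ih => exact FP.pair (FP.const _) ih
  | get a e ih =>
    have h := fp_nth ih (fp_nth (FP.const (T.unary (ix a))) FP.id)
    simp only [T.size_unary] at h
    exact h

theorem fp_execT (hix : Function.Injective ix) {B : ℕ} (hB : ∀ a, ix a < B) {S : ι → Bool}
    {c : Cmd ι} (hc : c.stable S = true) : FP (execT ix c) := by
  induction c with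
  | skip => exact FP.id
  | seq c d ihc ihd =>
    simp only [Cmd.stable, Bool.and_eq_true] at hc
    have h := FP.comp (ihd hc.2) (ihc hc.1)
    exact h
  | set a i e =>
    have harr : FP (fun x => nth (ix a) x) := by
      have h := fp_nth (FP.const (T.unary (ix a))) FP.id
      simp only [T.size_unary] at h
      exact h
    have h1 := fp_put (fp_evalT ix i) (fp_evalT ix e) harr
    have h2 := fp_put (FP.const (T.unary (ix a))) h1 FP.id
    simp only [T.size_unary] at h2
    exact h2
  | cmp e f c1 c2 c3 ih1 ih2 ih3 =>
    simp only [Cmd.stable, Bool.and_eq_true] at hc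
    exact fp_cmp (fp_evalT ix e) (fp_evalT ix f) (ih1 hc.1.1) (ih2 hc.1.2) (ih3 hc.2)
  | rep e c ih =>
    have hc' := hc
    simp only [Cmd.stable, Bool.and_eq_true] at hc
    have h1 := ih hc.2
    obtain ⟨R, hR⟩ : ∃ R : Polynomial ℕ,
        R = Polynomial.X + Polynomial.C B + (Cmd.rep e c).costPoly := ⟨_, rfl⟩
    refine FP.iter (fp_evalT ix e) h1 FP.id ⟨R * (R * (R + 1) + 1), fun x i hi => ?_⟩
    have h2 : Bd (x.size + B) x := (Bd.self x).mono (Nat.le_add_right _ _)
    have h3 := h2.iterT ix hix c i (fun a => (hB a).trans_le (Nat.le_add_left _ _))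
    have h4 : repCost c.exec c.cost i (absT ix x) ≤ (Cmd.rep e c).costPoly.eval x.size := by
      rw [size_evalT] at hi
      refine (repCost_mono _ _ hi _).trans ?_
      have h5 := Cmd.cost_le hc' (b := x.size) (s := absT ix x)
        (fun a _ => (size_nth _ _).trans (size_nth _ _))
      simp only [Cmd.cost] at h5
      omega
    have h6 : x.size + B + repCost c.exec c.cost i (absT ix x) ≤ R.eval x.size := by
      rw [hR]
      simp only [Polynomial.eval_add, Polynomial.eval_X, Polynomial.eval_C]
      omega
    have h7 := (h3.mono h6).size_le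
    simp only [Polynomial.eval_mul, Polynomial.eval_add, Polynomial.eval_one]
    exact h7

end Pool.Agent.Lib.MP_fe081e_lc.Alg
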