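import Pool.Agent.Lib.MP_fe081e_lc.Alg.Spec9
import Pool.Agent.Lib.MP_fe081e_lc.Alg.TreeSem
import Pool.Agent.Lib.MP_fe081e_lc.Alg.Bits

/-!
The Turing machine.
-/

namespace Pool.Agent.Lib.MP_fe081e_lc.Alg

open Pool.Agent.Lib.MP_fe081e_lc.PT Nm

/-- numbering of the array names -/
noncomputable def ix (a : Nm) : ℕ := (Fintype.equivFin Nm a : ℕ)

lemma ix_inj : Function.Injective ix := by
  intro a b h
  exact (Fintype.equivFin Nm).injective (Fin.ext h)

lemma ix_lt (a : Nm) : ix a < Fintype.card Nm := (Fintype.equivFin Nm a).2

/-- a bit as a tree -/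
def cb (b : Bool) : T := T.unary (if b then 1 else 0)

/-- normalise a value to a bit -/
def norm (v : T) : T := v.ifnil .nil (T.unary 1)

lemma fp_norm : FP norm := FP.ifnil FP.id (FP.const _) (FP.const _)

lemma size_norm (v : T) : (norm v).size ≤ v.size + 1 := by
  cases v with
  | nil => simp [norm, T.ifnil]
  | node l r => simp only [norm, T.ifnil, T.size_unary, T.size_node]; omega

lemma norm_eq (v : T) : norm v = cb (decide (0 < v.size)) := by
  cases v with
  | nil => simp [norm, T.ifnil, cb]
  | node l r =>
    have : 0 < (T.node l r).size := by simp only [T.size_node]; omega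
    simp only [norm, T.ifnil, cb, this, decide_true, if_true]

/-- the initial store: the input bits and their number -/
noncomputable def t0 (x : T) : T :=
  put (ix MM) (T.node (T.unary (len x)) .nil) (put (ix ADJ) x .nil)

lemma fp_t0 : FP t0 := by
  have h1 := fp_put (FP.const (T.unary (ix ADJ))) FP.id (FP.const .nil)
  have h2 := fp_put (FP.const (T.unary (ix MM))) (FP.pair (fp_len FP.id) (FP.const .nil)) h1
  simp only [T.size_unary] at h2
  exact h2

lemma stable_computeN : computeN.stable (fun a => decide (a = MM)) = true := by decide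

lemma stable_mainBody : mainBody.stable (fun a => decide (a = MM ∨ a = NN)) = true := by decide

lemma fp_program : FP (execT ix program) := by
  have h := FP.comp (fp_execT ix ix_inj ix_lt stable_mainBody)
    (fp_execT ix ix_inj ix_lt stable_computeN)
  exact h

/-- the function on trees computed by the machine -/
noncomputable def treeFun (x : T) : T :=
  rb norm (len x) (nth (ix OUT) (execT ix program (t0 x))) .nil

lemma fp_treeFun : FP treeFun := by
  have h1 := FP.comp fp_program fp_t0
  have h2 := fp_nth (FP.const (T.unary (ix OUT))) h1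
  have h3 := fp_rb fp_norm size_norm (fp_len FP.id) h2 (FP.const .nil)
  simp only [T.size_unary] at h3
  exact h3

lemma rb_norm (m : ℕ) (t : T) : rb norm m t .nil =
    T.ofList cb ((List.range m).map (fun i => decide (0 < (nth i t).size))) := by
  induction m generalizing t with
  | zero => rfl
  | succ m ih =>
    rw [rb, ih, List.range_succ_eq_map, List.map_cons, List.map_map, T.ofList_cons, norm_eq]
    rfl

lemma len_ofList {γ : Type*} (c : γ → T) (l : List γ) : len (T.ofList c l) = l.length := by
  induction l with
  | nil => rfl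
  | cons a l ih => simp [len, ih]

/-- the initial store for the input `l` -/
noncomputable def inStore (l : List Bool) : Store Nm := absT ix (t0 (T.ofList cb l))

/-- the function computed by the machine -/
noncomputable def stcFun (l : List Bool) : List Bool :=
  (List.range l.length).map (fun i => decide (0 < (program.exec (inStore l)) OUT i))

lemma treeFun_ofList (l : List Bool) :
    treeFun (T.ofList cb l) = T.ofList cb (stcFun l) := by
  unfold treeFun
  rw [rb_norm, len_ofList]
  congr 1
  unfold stcFun
  apply List.map_congr_left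
  intro i _
  unfold inStore
  rw [← abs_execT ix ix_inj]
  rfl

theorem polytime_stcFun :
    Nonempty (Turing.TM2ComputableInPolyTime (id : List Bool → List Bool)
      (id : List Bool → List Bool) stcFun) := by
  refine FP.tm2 fp_treeFun cb [false, true] (by intro b; cases b <;> simp) ?_
  intro l
  simp only [id]
  rw [treeFun_ofList]
  congr 1
  funext b
  cases b
  · rfl
  · rfl

/-! ### the initial store -/

lemma inStore_MM (l : List Bool) : inStore l MM 0 = l.length := by
  unfold inStore absT t0
  rw [nth_put, if_pos rfl]
  simp [nth, T.left, len_ofList]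

lemma nth_ofList (l : List Bool) (i : ℕ) (hi : i < l.length) :
    (nth i (T.ofList cb l)).size = if l[i] then 1 else 0 := by
  induction l generalizing i with
  | nil => simp at hi
  | cons a l ih =>
    cases i with
    | zero =>
      simp only [T.ofList_cons, nth, T.left, cb, T.size_unary, List.getElem_cons_zero]
    | succ i =>
      simp only [T.ofList_cons, nth, T.right, List.getElem_cons_succ]
      exact ih i (by simpa using hi)

lemma inStore_ADJ (l : List Bool) (i : ℕ) (hi : i < l.length) :
    inStore l ADJ i = if l[i] then 1 else 0 := by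
  unfold inStore absT t0
  rw [nth_put, if_neg (fun h => by have := ix_inj h; exact absurd this (by decide)), nth_put,
    if_pos rfl]
  exact nth_ofList l i hi

/-! ### adjacency matrices -/

lemma length_adjBits {n : ℕ} (G : SimpleGraph (Fin n)) [DecidableRel G.Adj] :
    (adjBits G).length = n * n := by simp [adjBits]

lemma index_lt {n : ℕ} (i j : Fin n) : (i : ℕ) * n + j < n * n := by
  have h5 := i.2
  have h6 := j.2
  calc (i : ℕ) * n + j < i * n + n := by omega
    _ = (i + 1) * n := by ring
    _ ≤ n * n := Nat.mul_le_mul_right _ h5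

lemma getElem_adjBits {n : ℕ} (G : SimpleGraph (Fin n)) [DecidableRel G.Adj] (i j : Fin n)
    (h : (i : ℕ) * n + j < (adjBits G).length) :
    (adjBits G)[(i : ℕ) * n + j] = decide (G.Adj i j) := by
  have hn : 0 < n := i.pos
  have e := List.getElem_ofFn (f := fun q : Fin (n * n) => decide (G.Adj q.divNat q.modNat))
    (i := (i : ℕ) * n + j) (by rw [List.length_ofFn]; exact index_lt i j)
  refine Eq.trans e ?_
  have h1 : (⟨(i : ℕ) * n + j, index_lt i j⟩ : Fin (n * n)).divNat = i := by
    apply Fin.ext
    rw [Fin.coe_divNat]
    show ((i : ℕ) * n + j) / n = i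
    rw [mul_comm, Nat.mul_add_div hn, Nat.div_eq_of_lt j.2, add_zero]
  have h2 : (⟨(i : ℕ) * n + j, index_lt i j⟩ : Fin (n * n)).modNat = j := by
    apply Fin.ext
    rw [Fin.coe_modNat]
    show ((i : ℕ) * n + j) % n = j
    rw [mul_comm, Nat.mul_add_mod, Nat.mod_eq_of_lt j.2]
  rw [h1, h2]

/-- The machine is correct on connected cographs. -/
theorem stcFun_correct {n : ℕ} (G : SimpleGraph (Fin n)) [DecidableRel G.Adj]
    (hconn : G.Connected) (hcog : IsCograph G) :
    ∃ (T : SimpleGraph (Fin n)) (_ : DecidableRel T.Adj), IsSpanningTree G T ∧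
      treeCongestion G T = stc G ∧ stcFun (adjBits G) = adjBits T := by
  obtain ⟨T, hT, h1, h2, h3⟩ := program_correct hcog hconn (s := inStore (adjBits G))
    (by rw [inStore_MM, length_adjBits])
    (by
      intro i j
      rw [inStore_ADJ _ _ (by rw [length_adjBits]; exact index_lt i j), getElem_adjBits]
      simp)
  refine ⟨T, hT, h1, h2, ?_⟩
  apply List.ext_getElem
  · simp [stcFun, length_adjBits]
  · intro q hq1 hq2
    have hq : q < n * n := by rw [length_adjBits] at hq2; exact hq2
    have hn : 0 < n := by
      rcases Nat.eq_zero_or_pos n with h | h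
      · subst h; simp at hq
      · exact h
    have hdiv : q / n < n := Nat.div_lt_of_lt_mul hq
    have hmod : q % n < n := Nat.mod_lt _ hn
    obtain ⟨i, hi⟩ : ∃ i : Fin n, (i : ℕ) = q / n := ⟨⟨q / n, hdiv⟩, rfl⟩
    obtain ⟨j, hj⟩ : ∃ j : Fin n, (j : ℕ) = q % n := ⟨⟨q % n, hmod⟩, rfl⟩
    have hqe : q = (i : ℕ) * n + j := by
      rw [hi, hj, mul_comm]; exact (Nat.div_add_mod q n).symm
    subst hqe
    rw [getElem_adjBits]
    simp only [stcFun, List.getElem_map, List.getElem_range]
    rw [h3 i j]
    by_cases hadj : T.Adj i j <;> simp [hadj]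

end Pool.Agent.Lib.MP_fe081e_lc.Alg
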