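import Pool.Agent.Lib.MP_fe081e_lc.Alg.Lang

/-!
The program.
-/

namespace Pool.Agent.Lib.MP_fe081e_lc.Alg

/-- the array names -/
inductive Nm : Type
  | ADJ | MM | NN | SQ | RB | DEG | RR | RY | CNT | USED | PAR | RES | OUT | FOUND | OK | KK
  | X1 | X2 | R | C | Y | X | BX | BD | S | P | I | J | T
  deriving DecidableEq

open Nm

instance : Fintype Nm where
  elems := {ADJ, MM, NN, SQ, RB, DEG, RR, RY, CNT, USED, PAR, RES, OUT, FOUND, OK, KK,
    X1, X2, R, C, Y, X, BX, BD, S, P, I, J, T}
  complete x := by cases x <;> decide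

/-- the constant one -/
def one : Exp Nm := .succ .zero

/-- `NN := √MM` for a perfect square -/
def computeN : Cmd Nm :=
  .seq (setv NN .zero) (.seq (setv SQ .zero)
    (.rep (V MM) (iflt (V SQ) (V MM)
      (.seq (incv SQ) (.seq (For T (V MM) (iflt (V T) (V NN) (.seq (incv SQ) (incv SQ))))
        (incv NN))))))

/-- `RB[i] := i * n` -/
def computeRB : Cmd Nm :=
  .seq (setv P .zero) (For I (V NN) (.seq (.set RB (V I) (V P)) (For J (V NN) (incv P))))

/-- `dest[j] := ADJ[e * n + j]` -/
def loadRow (dest : Nm) (e : Exp Nm) : Cmd Nm :=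
  .seq (setv P (.get RB e)) (For J (V NN) (.seq (.set dest (V J) (.get ADJ (V P))) (incv P)))

/-- degrees -/
def computeDEG : Cmd Nm :=
  For I (V NN) (.seq (loadRow RY (V I)) (.seq (.set DEG (V I) .zero)
    (For T (V NN) (iflt .zero (.get RY (V T)) (.set DEG (V I) (.succ (.get DEG (V I))))))))

/-- all vertices but the root have degree at most `k` -/
def checkDeg : Cmd Nm :=
  For T (V NN) (ifne (V T) (V R) (iflt (V KK) (.get DEG (V T)) (setv OK .zero)))

/-- conditions on the special pair, both indices being vertices -/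
def checkPair : Cmd Nm :=
    .seq (ifeq (V X1) (V X2) (setv OK .zero))
    (.seq (loadRow RY (V X1))
    (.seq (iflt .zero (.get RY (V X2)) (setv OK .zero))
    (.seq (ifne (.succ (.succ (.get DEG (V X1)))) (V NN) (setv OK .zero))
    (.seq (ifne (.succ (.succ (.get DEG (V X2)))) (V NN) (setv OK .zero))
    (.seq (iflt (.succ (.succ (V KK))) (V NN) (setv OK .zero))
    (.seq (ifeq (V R) (V X1) (setv OK .zero))
      (ifeq (V R) (V X2) (setv OK .zero))))))))

/-- conditions on the special pair -/
def checkSpecial : Cmd Nm :=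
  iflt (V X1) (V NN) (.seq (ifle (V NN) (V X2) (setv OK .zero)) (iflt (V X2) (V NN) checkPair))

/-- initialise the arrays -/
def initArrays : Cmd Nm :=
  .seq (loadRow RR (V R))
  (.seq (For T (V NN) (.seq (.set USED (V T) .zero) (.set PAR (V T) (V R))))
    (iflt (V X1) (V NN) (.seq (.set USED (V X1) one) (.set USED (V X2) one))))

/-- counts -/
def counts : Cmd Nm :=
  For Y (V NN) (.seq (.set CNT (V Y) .zero)
    (ifne (V Y) (V R) (ifeq (.get RR (V Y)) .zero
      (.seq (loadRow RY (V Y))
      (.seq (For X (V NN) (ifeq (.get RR (V X)) one (ifeq (.get RY (V X)) one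
        (ifeq (.get USED (V X)) .zero (.set CNT (V Y) (.succ (.get CNT (V Y))))))))
        (iflt (V X1) (V NN) (ifeq (.get CNT (V Y)) .zero
          (.seq (.set PAR (V Y) (V X1)) (.set CNT (V Y) (V NN)))))))))) 

/-- look for the best partner of `Y` -/
def findBest : Cmd Nm :=
  .seq (loadRow RY (V Y)) (.seq (setv BD .zero) (.seq (setv BX .zero)
    (For X (V NN) (ifeq (.get RR (V X)) one (ifeq (.get RY (V X)) one
      (ifeq (.get USED (V X)) .zero
        (.seq (.seq (setv S (.get DEG (V X))) (For T (V NN) (iflt (V T) (.get DEG (V Y)) (incv S))))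
          (ifle (V S) (.succ (.succ (V KK))) (ifle (V BD) (.get DEG (V X))
            (.seq (setv BD (.succ (.get DEG (V X)))) (setv BX (V X)))))))))))) 

/-- process `Y` -/
def process : Cmd Nm :=
  .seq findBest (.cmp (V BD) .zero .skip (setv OK .zero)
    (.seq (.set PAR (V Y) (V BX)) (.set USED (V BX) one)))

/-- the greedy matching -/
def greedy : Cmd Nm :=
  For C (V NN) (For Y (V NN)
    (ifne (V Y) (V R) (ifeq (.get RR (V Y)) .zero (ifeq (.get CNT (V Y)) (V C) process))))

/-- record a success -/
def record : Cmd Nm :=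
  ifeq (V OK) one (ifeq (V FOUND) .zero
    (.seq (setv FOUND one) (For T (V NN) (.set RES (V T) (.get PAR (V T))))))

/-- one attempt -/
def attempt : Cmd Nm :=
  .seq (setv OK one) (.seq checkDeg (.seq checkSpecial (.seq initArrays (.seq counts
    (.seq greedy record)))))

/-- the search -/
def search : Cmd Nm :=
  .seq (setv FOUND .zero)
    (For KK (.succ (V MM)) (For X1 (.succ (V NN)) (For X2 (.succ (V NN)) (For R (V NN) attempt))))

/-- write the adjacency matrix of the tree -/
def output : Cmd Nm :=
  .seq (setv P .zero) (For I (V NN) (For J (V NN)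
    (.seq (.set OUT (V P) .zero)
    (.seq (ifne (V I) (V J) (.seq (ifeq (.get RES (V I)) (V J) (.set OUT (V P) one))
      (ifeq (.get RES (V J)) (V I) (.set OUT (V P) one))))
      (incv P)))))

/-- the whole program after the computation of `n` -/
def mainBody : Cmd Nm :=
  .seq computeRB (.seq computeDEG (.seq search output))

/-- the whole program -/
def program : Cmd Nm := .seq computeN mainBody

end Pool.Agent.Lib.MP_fe081e_lc.Alg
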