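import Pool.Agent.Lib.MP_fe081e_lc.Alg.Prog

/-!
Specifications of the simple blocks.
-/

namespace Pool.Agent.Lib.MP_fe081e_lc.Alg

open Nm

/-! ### computing `n` -/

lemma spec_addTwice (s : Store Nm) :
    let s' := (For T (V MM) (iflt (V T) (V NN) (.seq (incv SQ) (incv SQ)))).exec s
    s' SQ 0 = s SQ 0 + 2 * min (s MM 0) (s NN 0) ∧ ∀ a, a ≠ SQ → a ≠ T → s' a = s a := by
  intro s'
  have hfr : ∀ a, a ≠ SQ → a ≠ T → s' a = s a := by
    intro a h1 h2
    apply Cmd.frame
    simp [For, setv, incv, iflt, Cmd.writes, h1, h2]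
  refine ⟨?_, hfr⟩
  have := for_rule (x := T) (e := V MM) (c := iflt (V T) (V NN) (.seq (incv SQ) (incv SQ)))
    (s := s) (s MM 0) (by simp [upd_apply]) (by simp [iflt, incv, setv, Cmd.writes])
    (fun j s' => s' SQ 0 = s SQ 0 + 2 * min j (s NN 0) ∧ s' NN 0 = s NN 0)
    (by simp [upd_apply])
    (by
      intro j hj s' hT ⟨h1, h2⟩
      rw [exec_iflt]
      simp only [eval_V, hT, h2]
      split_ifs with h
      · simp [upd_apply, h1, h2]
        omega
      · simp [upd_apply, h1, h2]
        omega)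
  exact this.1

lemma spec_computeN (n : ℕ) (s : Store Nm) (hm : s MM 0 = n * n) :
    (computeN.exec s) NN 0 = n ∧ ∀ a, a ≠ NN → a ≠ SQ → a ≠ T → (computeN.exec s) a = s a := by
  have hfr : ∀ a, a ≠ NN → a ≠ SQ → a ≠ T → (computeN.exec s) a = s a := by
    intro a h1 h2 h3
    apply Cmd.frame
    simp [computeN, For, setv, incv, iflt, Cmd.writes, h1, h2, h3]
  refine ⟨?_, hfr⟩
  unfold computeN
  rw [Cmd.exec_seq, Cmd.exec_seq, Cmd.exec_rep]
  set body : Cmd Nm := iflt (V SQ) (V MM)
      (.seq (incv SQ) (.seq (For T (V MM) (iflt (V T) (V NN) (.seq (incv SQ) (incv SQ))))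
        (incv NN))) with hbody
  set s0 := (setv SQ .zero).exec ((setv NN .zero).exec s) with hs0
  have h0 : s0 NN 0 = 0 ∧ s0 SQ 0 = 0 ∧ s0 MM 0 = n * n := by
    simp [hs0, upd_apply, hm]
  have key : ∀ t, (body.exec^[t] s0) NN 0 = min t n ∧
      (body.exec^[t] s0) SQ 0 = (min t n) * (min t n) ∧ (body.exec^[t] s0) MM 0 = n * n := by
    intro t
    induction t with
    | zero => simpa using h0
    | succ t ih =>
      rw [Function.iterate_succ_apply']
      set s1 := body.exec^[t] s0 with hs1
      obtain ⟨e1, e2, e3⟩ := ih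
      rw [hbody, exec_iflt]
      simp only [eval_V, e2, e3]
      split_ifs with h
      · have htn : t < n := by
          by_contra hcon
          rw [min_eq_right (by omega)] at h
          omega
        rw [Cmd.exec_seq, Cmd.exec_seq]
        obtain ⟨g1, g2⟩ := spec_addTwice ((incv SQ).exec s1)
        set s2 := (For T (V MM) (iflt (V T) (V NN) (.seq (incv SQ) (incv SQ)))).exec
          ((incv SQ).exec s1) with hs2
        have hNN2 : s2 NN 0 = min t n := by
          rw [g2 NN (by simp) (by simp)]; simp [upd_apply, e1]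
        have hMM2 : s2 MM 0 = n * n := by
          rw [g2 MM (by simp) (by simp)]; simp [upd_apply, e3]
        have hSQ2 : s2 SQ 0 = (min t n) * (min t n) + 1 + 2 * min (n * n) (min t n) := by
          rw [g1]; simp [upd_apply, e1, e2, e3]
        have hmin : min t n = t := min_eq_left (by omega)
        have hmin1 : min (t + 1) n = t + 1 := min_eq_left (by omega)
        have hmin2 : min (n * n) t = t := min_eq_right (by nlinarith)
        simp only [exec_incv, upd_apply, hmin1, and_self, if_true, hNN2, hSQ2, hMM2, hmin, hmin2,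
          reduceCtorEq, if_false, and_true, true_and]
        ring
      · have htn : n ≤ t := by
          by_contra hcon
          rw [min_eq_left (by omega)] at h
          apply h
          nlinarith
        rw [min_eq_right (by omega)] at e1 e2 ⊢
        exact ⟨e1, e2, e3⟩
  have hM : (V MM).eval s0 = n * n := by simp [h0.2.2]
  rw [hM]
  have := (key (n * n)).1
  rw [this]
  rcases Nat.eq_zero_or_pos n with h | h
  · subst h; simp
  · exact min_eq_right (by nlinarith)

/-! ### row bases -/

lemma spec_addN (n : ℕ) (s : Store Nm) (hn : s NN 0 = n) :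
    ((For J (V NN) (incv P)).exec s) P 0 = s P 0 + n := by
  have := for_rule (x := J) (e := V NN) (c := incv P)
    (s := s) n (by simp [upd_apply, hn]) (by simp [incv, setv, Cmd.writes])
    (fun j s' => s' P 0 = s P 0 + j)
    (by simp [upd_apply])
    (by
      intro j hj s' hT h1
      simp [upd_apply, h1]
      omega)
  exact this

lemma frame_computeRB (s : Store Nm) (a : Nm) (h1 : a ≠ P) (h2 : a ≠ I) (h3 : a ≠ J)
    (h4 : a ≠ RB) : (computeRB.exec s) a = s a := by
  apply Cmd.frame
  simp [computeRB, For, setv, incv, Cmd.writes, h1, h2, h3, h4]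

lemma spec_computeRB (n : ℕ) (s : Store Nm) (hn : s NN 0 = n) :
    ∀ i < n, (computeRB.exec s) RB i = i * n := by
  unfold computeRB
  rw [Cmd.exec_seq]
  set s0 := (setv P .zero).exec s with hs0
  have := for_rule (x := I) (e := V NN) (c := .seq (.set RB (V I) (V P)) (For J (V NN) (incv P)))
    (s := s0) n (by simp [hs0, upd_apply, hn]) (by simp [incv, setv, Cmd.writes, For])
    (fun j s' => s' P 0 = j * n ∧ s' NN 0 = n ∧ ∀ i < j, s' RB i = i * n)
    (by simp [hs0, upd_apply, hn])
    (by
      intro j hj s' hI ⟨h1, h2, h3⟩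
      rw [Cmd.exec_seq]
      set s1 := (Cmd.set RB (V I) (V P)).exec s' with hs1
      have e1 : s1 P 0 = j * n := by simp [hs1, upd_apply, h1]
      have e2 : s1 NN 0 = n := by simp [hs1, upd_apply, h2]
      have e3 : ∀ i < j + 1, s1 RB i = i * n := by
        intro i hi
        simp only [hs1, Cmd.exec_set, eval_V, hI, h1, upd_same]
        split_ifs with h
        · rw [h]
        · exact h3 i (by omega)
      have f : ∀ a, a ≠ J → a ≠ P → ((For J (V NN) (incv P)).exec s1) a = s1 a := by
        intro a ha1 ha2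
        apply Cmd.frame
        simp [For, setv, incv, Cmd.writes, ha1, ha2]
      refine ⟨?_, ?_, ?_⟩
      · rw [upd_of_ne _ _ _ (by simp), spec_addN n s1 e2, e1]; ring
      · rw [upd_of_ne _ _ _ (by simp), f NN (by simp) (by simp), e2]
      · intro i hi
        rw [upd_of_ne _ _ _ (by simp), f RB (by simp) (by simp)]
        exact e3 i hi)
  exact this.2.2

/-! ### rows -/

lemma frame_loadRow (dest : Nm) (e : Exp Nm) (s : Store Nm) (a : Nm) (h1 : a ≠ dest)
    (h2 : a ≠ P) (h3 : a ≠ J) : ((loadRow dest e).exec s) a = s a := by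
  apply Cmd.frame
  simp [loadRow, For, setv, incv, Cmd.writes, h1, h2, h3]

lemma spec_loadRow (n : ℕ) (dest : Nm) (e : Exp Nm) (s : Store Nm) (hn : s NN 0 = n)
    (hd1 : dest ≠ P) (hd2 : dest ≠ J) (hd3 : dest ≠ ADJ) (hd4 : dest ≠ NN) :
    ∀ j < n, ((loadRow dest e).exec s) dest j = s ADJ (s RB (e.eval s) + j) := by
  unfold loadRow
  rw [Cmd.exec_seq]
  set s0 := (setv P (.get RB e)).exec s with hs0
  set b := s RB (e.eval s) with hb
  have := for_rule (x := J) (e := V NN) (c := .seq (.set dest (V J) (.get ADJ (V P))) (incv P))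
    (s := s0) n (by simp [hs0, upd_apply, hn])
    (by simp [incv, setv, Cmd.writes, hd2.symm])
    (fun j s' => s' P 0 = b + j ∧ s' NN 0 = n ∧ s' ADJ = s ADJ ∧
      ∀ i < j, s' dest i = s ADJ (b + i))
    (by
      refine ⟨?_, ?_, ?_, ?_⟩
      · simp [hs0, upd_apply, hb]
      · simp [hs0, upd_apply, hn]
      · rw [upd_of_ne _ _ _ (by simp), hs0, exec_setv, upd_of_ne _ _ _ (by simp)]
      · intro i hi; omega)
    (by
      intro j hj s' hJ ⟨h1, h2, h3, h4⟩
      rw [Cmd.exec_seq, exec_incv, Cmd.exec_set]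
      simp only [eval_V, Exp.eval_get, hJ, h1, h3]
      refine ⟨?_, ?_, ?_, ?_⟩
      · simp [upd_apply, hd1.symm, h1]; omega
      · simp [upd_apply, hd4.symm, h2]
      · rw [upd_of_ne _ _ _ (by simp), upd_of_ne _ _ _ (by simp), upd_of_ne _ _ _ hd3.symm, h3]
      · intro i hi
        rw [upd_of_ne _ _ _ hd2, upd_of_ne _ _ _ hd1, upd_same]
        split_ifs with h
        · rw [h]
        · exact h4 i (by omega))
  exact this.2.2.2

end Pool.Agent.Lib.MP_fe081e_lc.Alg
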