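import Pool.Agent.Lib.MP_fe081e_lc.Alg.Spec1

/-!
The context (adjacency, degrees) and the specification of the checks.
-/

namespace Pool.Agent.Lib.MP_fe081e_lc.Alg

open Nm

/-- the input graph is stored -/
structure Base {n : ℕ} (G : SimpleGraph (Fin n)) [DecidableRel G.Adj] (s : Store Nm) : Prop where
  nn : s NN 0 = n
  mm : s MM 0 = n * n
  adj : ∀ i j : Fin n, s ADJ (i * n + j) = if G.Adj i j then 1 else 0

/-- the input graph, the row bases and the degrees are stored -/
structure Ctx {n : ℕ} (G : SimpleGraph (Fin n)) [DecidableRel G.Adj] (s : Store Nm) : Prop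
    extends Base G s where
  rb : ∀ i : Fin n, s RB i = i * n
  deg : ∀ i : Fin n, s DEG i = G.degree i

variable {n : ℕ} {G : SimpleGraph (Fin n)} [DecidableRel G.Adj]

lemma Base.of_eq {s s' : Store Nm} (h : Base G s) (h1 : s' NN = s NN) (h2 : s' MM = s MM)
    (h3 : s' ADJ = s ADJ) : Base G s' :=
  ⟨by rw [h1]; exact h.nn, by rw [h2]; exact h.mm, by rw [h3]; exact h.adj⟩

lemma Ctx.of_eq {s s' : Store Nm} (h : Ctx G s) (h1 : s' NN = s NN) (h2 : s' MM = s MM)
    (h3 : s' ADJ = s ADJ) (h4 : s' RB = s RB) (h5 : s' DEG = s DEG) : Ctx G s' :=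
  ⟨h.toBase.of_eq h1 h2 h3, by rw [h4]; exact h.rb, by rw [h5]; exact h.deg⟩

/-- Ctx is preserved by a command not writing the context arrays -/
lemma Ctx.exec {s : Store Nm} (h : Ctx G s) (c : Cmd Nm) (h1 : ¬ c.writes NN)
    (h2 : ¬ c.writes MM) (h3 : ¬ c.writes ADJ) (h4 : ¬ c.writes RB) (h5 : ¬ c.writes DEG) :
    Ctx G (c.exec s) :=
  h.of_eq (c.frame h1 s) (c.frame h2 s) (c.frame h3 s) (c.frame h4 s) (c.frame h5 s)

lemma Ctx.upd {s : Store Nm} (h : Ctx G s) {a : Nm} (i v : ℕ) (h1 : NN ≠ a)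
    (h2 : MM ≠ a) (h3 : ADJ ≠ a) (h4 : RB ≠ a) (h5 : DEG ≠ a) :
    Ctx G (upd s a i v) :=
  h.of_eq (upd_of_ne _ _ _ h1) (upd_of_ne _ _ _ h2) (upd_of_ne _ _ _ h3) (upd_of_ne _ _ _ h4)
    (upd_of_ne _ _ _ h5)

/-- `dest` holds the adjacency row of `v` -/
def IsRow (G : SimpleGraph (Fin n)) [DecidableRel G.Adj] (s : Store Nm) (dest : Nm) (v : Fin n) :
    Prop := ∀ j : Fin n, s dest j = if G.Adj v j then 1 else 0

lemma row_loadRow' {dest : Nm} {e : Exp Nm} {s : Store Nm} (h : Base G s)
    (hrb : ∀ i : Fin n, s RB i = i * n)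
    (hd1 : dest ≠ P) (hd2 : dest ≠ J) (hd3 : dest ≠ ADJ) (hd4 : dest ≠ NN) {v : Fin n}
    (he : e.eval s = v) : IsRow G ((loadRow dest e).exec s) dest v := by
  intro j
  rw [spec_loadRow n dest e s h.nn hd1 hd2 hd3 hd4 j j.2, he, hrb, h.adj]

lemma row_loadRow {dest : Nm} {e : Exp Nm} {s : Store Nm} (h : Ctx G s)
    (hd1 : dest ≠ P) (hd2 : dest ≠ J) (hd3 : dest ≠ ADJ) (hd4 : dest ≠ NN) {v : Fin n}
    (he : e.eval s = v) : IsRow G ((loadRow dest e).exec s) dest v :=
  row_loadRow' h.toBase h.rb hd1 hd2 hd3 hd4 he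

/-! ### degrees -/

lemma card_filter_lt_succ (p : Fin n → Prop) [DecidablePred p] (j : ℕ) (hj : j < n) :
    (Finset.univ.filter (fun v : Fin n => (v : ℕ) < j + 1 ∧ p v)).card =
    (Finset.univ.filter (fun v : Fin n => (v : ℕ) < j ∧ p v)).card +
      if p ⟨j, hj⟩ then 1 else 0 := by
  split_ifs with h
  · have : (Finset.univ.filter (fun v : Fin n => (v : ℕ) < j + 1 ∧ p v)) =
      insert (⟨j, hj⟩ : Fin n) (Finset.univ.filter (fun v : Fin n => (v : ℕ) < j ∧ p v)) := by
      ext v
      simp only [Finset.mem_filter, Finset.mem_univ, true_and, Finset.mem_insert]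
      constructor
      · rintro ⟨h1, h2⟩
        rcases Nat.lt_succ_iff_lt_or_eq.1 h1 with h3 | h3
        · exact Or.inr ⟨h3, h2⟩
        · exact Or.inl (Fin.ext h3)
      · rintro (rfl | ⟨h1, h2⟩)
        · exact ⟨Nat.lt_succ_self _, h⟩
        · exact ⟨by omega, h2⟩
    rw [this, Finset.card_insert_of_notMem]
    simp
  · rw [add_zero]
    congr 1
    ext v
    simp only [Finset.mem_filter, Finset.mem_univ, true_and]
    constructor
    · rintro ⟨h1, h2⟩
      refine ⟨?_, h2⟩
      rcases Nat.lt_succ_iff_lt_or_eq.1 h1 with h3 | h3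
      · exact h3
      · exact absurd (by rwa [show v = ⟨j, hj⟩ from Fin.ext h3] at h2) h
    · rintro ⟨h1, h2⟩
      exact ⟨by omega, h2⟩

lemma spec_degLoop {s : Store Nm} {v : Fin n} (hn : s NN 0 = n) (hrow : IsRow G s RY v)
    (hI : s I 0 = v) (h0 : s DEG v = 0) :
    let s' := (For T (V NN) (iflt .zero (.get RY (V T))
      (.set DEG (V I) (.succ (.get DEG (V I)))))).exec s
    s' DEG v = G.degree v ∧ ∀ i, i ≠ (v : ℕ) → s' DEG i = s DEG i := by
  intro s'
  have := for_rule (x := T) (e := V NN) (c := iflt .zero (.get RY (V T))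
      (.set DEG (V I) (.succ (.get DEG (V I)))))
    (s := s) n (by simp [upd_apply, hn]) (by simp [iflt, Cmd.writes])
    (fun j s' => s' DEG v = (Finset.univ.filter
      (fun w : Fin n => (w : ℕ) < j ∧ G.Adj v w)).card ∧
      (∀ i, i ≠ (v : ℕ) → s' DEG i = s DEG i) ∧ s' RY = s RY ∧ s' I = s I)
    (by
      refine ⟨by simp [upd_apply, h0], ?_, ?_, ?_⟩
      · intro i hi; rw [upd_of_ne _ _ _ (by simp)]
      · rw [upd_of_ne _ _ _ (by simp)]
      · rw [upd_of_ne _ _ _ (by simp)])
    (by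
      intro j hj s' hT ⟨h1, h2, h3, h4⟩
      rw [exec_iflt, card_filter_lt_succ (fun w => G.Adj v w) j hj]
      have hr := hrow ⟨j, hj⟩
      simp only [Exp.eval_zero, Exp.eval_get, eval_V, hT, h3]
      simp only at hr
      rw [hr]
      by_cases hadj : G.Adj v ⟨j, hj⟩
      · simp only [if_pos hadj, Nat.lt_one_iff, if_true]
        refine ⟨?_, ?_, ?_, ?_⟩
        · simp [upd_apply, h4, hI, h1]
        · intro i hi
          simp [upd_apply, h4, hI, hi, h2 i hi]
        · rw [upd_of_ne _ _ _ (by simp), Cmd.exec_set, upd_of_ne _ _ _ (by simp), h3]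
        · rw [upd_of_ne _ _ _ (by simp), Cmd.exec_set, upd_of_ne _ _ _ (by simp), h4]
      · simp only [if_neg hadj, lt_irrefl, if_false, add_zero]
        refine ⟨?_, ?_, ?_, ?_⟩
        · rw [upd_of_ne _ _ _ (by simp)]; exact h1
        · intro i hi; rw [upd_of_ne _ _ _ (by simp)]; exact h2 i hi
        · rw [upd_of_ne _ _ _ (by simp)]; exact h3
        · rw [upd_of_ne _ _ _ (by simp)]; exact h4)
  refine ⟨this.1.trans ?_, this.2.1⟩
  rw [← G.card_neighborFinset_eq_degree]
  congr 1
  ext w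
  simp only [Finset.mem_filter, Finset.mem_univ, true_and, SimpleGraph.mem_neighborFinset]
  exact ⟨fun h => h.2, fun h => ⟨w.2, h⟩⟩

lemma spec_computeDEG {s : Store Nm} (h : Base G s) (hrb : ∀ i : Fin n, s RB i = i * n) :
    Ctx G (computeDEG.exec s) := by
  have fr : ∀ a, a ≠ I → a ≠ RY → a ≠ P → a ≠ J → a ≠ DEG → a ≠ T →
      (computeDEG.exec s) a = s a := by
    intro a h1 h2 h3 h4 h5 h6
    apply Cmd.frame
    simp [computeDEG, loadRow, For, setv, incv, iflt, Cmd.writes, h1, h2, h3, h4, h5, h6]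
  refine ⟨h.of_eq (fr NN (by simp) (by simp) (by simp) (by simp) (by simp) (by simp))
    (fr MM (by simp) (by simp) (by simp) (by simp) (by simp) (by simp))
    (fr ADJ (by simp) (by simp) (by simp) (by simp) (by simp) (by simp)), ?_, ?_⟩
  · rw [fr RB (by simp) (by simp) (by simp) (by simp) (by simp) (by simp)]
    exact hrb
  · unfold computeDEG
    have := for_rule (x := I) (e := V NN) (c := (.seq (loadRow RY (V I)) (.seq (.set DEG (V I) .zero)
      (For T (V NN) (iflt .zero (.get RY (V T)) (.set DEG (V I) (.succ (.get DEG (V I)))))))))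
      (s := s) n (by simp [upd_apply, h.nn])
      (by simp [loadRow, For, setv, incv, iflt, Cmd.writes])
      (fun j s' => (∀ v : Fin n, (v : ℕ) < j → s' DEG v = G.degree v) ∧ Base G s' ∧
        (∀ i : Fin n, s' RB i = i * n))
      (by
        refine ⟨fun v hv => by omega, ?_, ?_⟩
        · exact h.of_eq (upd_of_ne _ _ _ (by simp)) (upd_of_ne _ _ _ (by simp))
            (upd_of_ne _ _ _ (by simp))
        · intro i; rw [upd_of_ne _ _ _ (by simp)]; exact hrb i)
      (by
        intro j hj s' hI ⟨h1, h2, h3⟩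
        rw [Cmd.exec_seq, Cmd.exec_seq]
        set s1 := (loadRow RY (V I)).exec s' with hs1
        have f1 : ∀ a, a ≠ RY → a ≠ P → a ≠ J → s1 a = s' a :=
          fun a ha1 ha2 ha3 => frame_loadRow _ _ _ _ ha1 ha2 ha3
        have hrow : IsRow G s1 RY ⟨j, hj⟩ :=
          row_loadRow' h2 h3 (by simp) (by simp) (by simp) (by simp) (by simp [hI])
        have hI1 : s1 I 0 = j := by rw [f1 I (by simp) (by simp) (by simp), hI]
        set s2 := (Cmd.set DEG (V I) .zero).exec s1 with hs2
        have f2 : ∀ a, a ≠ DEG → s2 a = s1 a := by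
          intro a ha; rw [hs2, Cmd.exec_set, upd_of_ne _ _ _ ha]
        have hrow2 : IsRow G s2 RY ⟨j, hj⟩ := by
          intro i; rw [f2 RY (by simp)]; exact hrow i
        have hn2 : s2 NN 0 = n := by
          rw [f2 NN (by simp), f1 NN (by simp) (by simp) (by simp)]; exact h2.nn
        obtain ⟨g1, g2⟩ := spec_degLoop (G := G) (v := ⟨j, hj⟩) hn2 hrow2
          (by rw [f2 I (by simp)]; exact hI1) (by simp [hs2, hI1])
        set s3 := (For T (V NN) (iflt .zero (.get RY (V T))
          (.set DEG (V I) (.succ (.get DEG (V I)))))).exec s2 with hs3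
        have f3 : ∀ a, a ≠ DEG → a ≠ T → s3 a = s2 a := by
          intro a ha1 ha2
          apply Cmd.frame
          simp [For, setv, incv, iflt, Cmd.writes, ha1, ha2]
        refine ⟨?_, ?_, ?_⟩
        · intro v hv
          rw [upd_of_ne _ _ _ (by simp)]
          by_cases hvj : (v : ℕ) = j
          · have : v = ⟨j, hj⟩ := Fin.ext hvj
            rw [this]; exact g1
          · rw [g2 v hvj]
            simp only [hs2, Cmd.exec_set, eval_V, hI1, upd_same, if_neg hvj]
            rw [f1 DEG (by simp) (by simp) (by simp)]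
            exact h1 v (by omega)
        · refine h2.of_eq ?_ ?_ ?_
          · rw [upd_of_ne _ _ _ (by simp), f3 _ (by simp) (by simp), f2 _ (by simp),
              f1 _ (by simp) (by simp) (by simp)]
          · rw [upd_of_ne _ _ _ (by simp), f3 _ (by simp) (by simp), f2 _ (by simp),
              f1 _ (by simp) (by simp) (by simp)]
          · rw [upd_of_ne _ _ _ (by simp), f3 _ (by simp) (by simp), f2 _ (by simp),
              f1 _ (by simp) (by simp) (by simp)]
        · intro i
          rw [upd_of_ne _ _ _ (by simp), f3 _ (by simp) (by simp), f2 _ (by simp),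
              f1 _ (by simp) (by simp) (by simp)]
          exact h3 i)
    intro i
    exact this.1 i i.2

/-! ### the checks -/

lemma spec_checkDeg {s : Store Nm} (h : Ctx G s) {r : Fin n} (hr : s R 0 = r) :
    ((checkDeg.exec s) OK 0 = if (∀ z, z ≠ r → G.degree z ≤ s KK 0) then s OK 0 else 0) ∧
      ∀ a, a ≠ OK → a ≠ T → (checkDeg.exec s) a = s a := by
  have hfr : ∀ a, a ≠ OK → a ≠ T → (checkDeg.exec s) a = s a := by
    intro a h1 h2
    apply Cmd.frame
    simp [checkDeg, For, setv, incv, iflt, ifne, Cmd.writes, h1, h2]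
  refine ⟨?_, hfr⟩
  unfold checkDeg
  have := for_rule (x := T) (e := V NN) (c := ifne (V T) (V R) (iflt (V KK) (.get DEG (V T))
      (setv OK .zero)))
    (s := s) n (by simp [upd_apply, h.nn]) (by simp [iflt, ifne, setv, Cmd.writes])
    (fun j s' => s' OK 0 = (if (∀ z : Fin n, (z : ℕ) < j → z ≠ r → G.degree z ≤ s KK 0)
      then s OK 0 else 0) ∧ s' R = s R ∧ s' KK = s KK ∧ s' DEG = s DEG)
    (by
      refine ⟨?_, ?_, ?_, ?_⟩
      · simp [upd_apply]
      · rw [upd_of_ne _ _ _ (by simp)]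
      · rw [upd_of_ne _ _ _ (by simp)]
      · rw [upd_of_ne _ _ _ (by simp)])
    (by
      intro j hj s' hT ⟨h1, h2, h3, h4⟩
      have hd := h.deg ⟨j, hj⟩
      simp only at hd
      have hiff : (∀ z : Fin n, (z : ℕ) < j + 1 → z ≠ r → G.degree z ≤ s KK 0) ↔
          (∀ z : Fin n, (z : ℕ) < j → z ≠ r → G.degree z ≤ s KK 0) ∧
          ((⟨j, hj⟩ : Fin n) ≠ r → G.degree ⟨j, hj⟩ ≤ s KK 0) := by
        constructor
        · intro hh
          exact ⟨fun z hz => hh z (by omega), hh ⟨j, hj⟩ (by simp)⟩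
        · rintro ⟨h5, h6⟩ z hz hzr
          by_cases hzj : (z : ℕ) = j
          · have : z = ⟨j, hj⟩ := Fin.ext hzj
            rw [this] at hzr ⊢
            exact h6 hzr
          · exact h5 z (by omega) hzr
      rw [exec_ifne, exec_iflt]
      simp only [eval_V, Exp.eval_get, hT, h2, h3, h4, hd, hr]
      have hne : (j ≠ (r : ℕ)) ↔ ((⟨j, hj⟩ : Fin n) ≠ r) := by
        rw [not_iff_not]
        constructor
        · intro h5; exact Fin.ext h5
        · intro h5; rw [← h5]
      refine ⟨?_, ?_, ?_, ?_⟩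
      · rw [upd_of_ne _ _ _ (by simp)]
        by_cases c1 : j ≠ (r : ℕ)
        · rw [if_pos c1]
          by_cases c2 : s KK 0 < G.degree ⟨j, hj⟩
          · rw [if_pos c2, if_neg]
            · simp
            · rw [hiff]
              rintro ⟨_, h6⟩
              have := h6 (hne.1 c1)
              omega
          · rw [if_neg c2, h1]
            congr 1
            rw [eq_iff_iff, hiff]
            exact ⟨fun hh => ⟨hh, fun _ => by omega⟩, fun hh => hh.1⟩
        · rw [if_neg c1, h1]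
          congr 1
          rw [eq_iff_iff, hiff]
          exact ⟨fun hh => ⟨hh, fun h7 => absurd (hne.2 h7) c1⟩, fun hh => hh.1⟩
      all_goals
        rw [upd_of_ne _ _ _ (by simp)]
        split_ifs
        · rw [exec_setv, upd_of_ne _ _ _ (by simp)]; assumption
        · assumption
        · assumption)
  rw [this.1]
  congr 1
  rw [eq_iff_iff]
  exact ⟨fun hh z => hh z z.2, fun hh z _ => hh z⟩

end Pool.Agent.Lib.MP_fe081e_lc.Alg
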