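import Pool.Agent.Lib.MP_fe081e_lc.Alg.Spec2
import Pool.Agent.Lib.MP_fe081e_lc.Greedy

/-!
Specification of `checkSpecial`, `initArrays`, `counts`.
-/

namespace Pool.Agent.Lib.MP_fe081e_lc.Alg

open Nm

variable {n : ℕ} {G : SimpleGraph (Fin n)} [DecidableRel G.Adj]

/-- a conditional reset of `OK` -/
lemma chk {s s' : Store Nm} {b : Prop} [Decidable b]
    (h : s' = if b then upd s OK 0 0 else s) :
    (s' OK 0 = if b then 0 else s OK 0) ∧ ∀ a, a ≠ OK → s' a = s a := by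
  subst h
  split_ifs with hb
  · exact ⟨by simp, fun a ha => upd_of_ne _ _ _ ha⟩
  · exact ⟨rfl, fun _ _ => rfl⟩

lemma spec_checkPair {s : Store Nm} (h : Ctx G s) {x₁ x₂ r : Fin n} (h1 : s X1 0 = x₁)
    (h2 : s X2 0 = x₂) (hr : s R 0 = r) :
    ((¬ Special G (s KK 0) x₁ x₂ r → (checkPair.exec s) OK 0 = 0) ∧
     (Special G (s KK 0) x₁ x₂ r → (checkPair.exec s) OK 0 = s OK 0)) := by
  unfold checkPair
  simp only [Cmd.exec_seq]
  -- step 1
  set s1 := (ifeq (V X1) (V X2) (setv OK .zero)).exec s with hs1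
  obtain ⟨a1, b1⟩ := chk (s := s) (s' := s1) (b := x₁ = x₂) (by
    rw [hs1, exec_ifeq, exec_setv]
    simp only [eval_V, h1, h2, Exp.eval_zero, Fin.ext_iff])
  -- step 2
  set s2 := (loadRow RY (V X1)).exec s1 with hs2
  have b2 : ∀ a, a ≠ RY → a ≠ P → a ≠ J → s2 a = s1 a :=
    fun a ha1 ha2 ha3 => frame_loadRow _ _ _ _ ha1 ha2 ha3
  have hctx1 : Ctx G s1 := h.of_eq (b1 _ (by simp)) (b1 _ (by simp)) (b1 _ (by simp))
    (b1 _ (by simp)) (b1 _ (by simp))
  have hrow : IsRow G s2 RY x₁ := row_loadRow hctx1 (by simp) (by simp) (by simp) (by simp)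
    (by rw [eval_V, b1 X1 (by simp), h1])
  -- step 3
  set s3 := (iflt .zero (.get RY (V X2)) (setv OK .zero)).exec s2 with hs3
  obtain ⟨a3, b3⟩ := chk (s := s2) (s' := s3) (b := G.Adj x₁ x₂) (by
    rw [hs3, exec_iflt, exec_setv]
    have e1 : s2 X2 0 = x₂ := by rw [b2 _ (by simp) (by simp) (by simp), b1 _ (by simp), h2]
    simp only [Exp.eval_zero, Exp.eval_get, eval_V, e1, hrow x₂]
    by_cases hadj : G.Adj x₁ x₂ <;> simp [hadj])
  -- step 4
  set s4 := (ifne (.succ (.succ (.get DEG (V X1)))) (V NN) (setv OK .zero)).exec s3 with hs4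
  have f3 : ∀ a, a ≠ OK → a ≠ RY → a ≠ P → a ≠ J → s3 a = s a := by
    intro a q1 q2 q3 q4
    rw [b3 a q1, b2 a q2 q3 q4, b1 a q1]
  obtain ⟨a4, b4⟩ := chk (s := s3) (s' := s4) (b := G.degree x₁ + 2 ≠ n) (by
    rw [hs4, exec_ifne, exec_setv]
    have e1 : s3 X1 0 = x₁ := by rw [f3 _ (by simp) (by simp) (by simp) (by simp), h1]
    have e2 : s3 NN 0 = n := by rw [f3 _ (by simp) (by simp) (by simp) (by simp), h.nn]
    have e3 : s3 DEG x₁ = G.degree x₁ := by
      rw [f3 _ (by simp) (by simp) (by simp) (by simp), h.deg]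
    simp only [Exp.eval_zero, Exp.eval_get, Exp.eval_succ, eval_V, e1, e2, e3])
  -- step 5
  set s5 := (ifne (.succ (.succ (.get DEG (V X2)))) (V NN) (setv OK .zero)).exec s4 with hs5
  have f4 : ∀ a, a ≠ OK → a ≠ RY → a ≠ P → a ≠ J → s4 a = s a := by
    intro a q1 q2 q3 q4
    rw [b4 a q1, f3 a q1 q2 q3 q4]
  obtain ⟨a5, b5⟩ := chk (s := s4) (s' := s5) (b := G.degree x₂ + 2 ≠ n) (by
    rw [hs5, exec_ifne, exec_setv]
    have e1 : s4 X2 0 = x₂ := by rw [f4 _ (by simp) (by simp) (by simp) (by simp), h2]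
    have e2 : s4 NN 0 = n := by rw [f4 _ (by simp) (by simp) (by simp) (by simp), h.nn]
    have e3 : s4 DEG x₂ = G.degree x₂ := by
      rw [f4 _ (by simp) (by simp) (by simp) (by simp), h.deg]
    simp only [Exp.eval_zero, Exp.eval_get, Exp.eval_succ, eval_V, e1, e2, e3])
  -- step 6
  set s6 := (iflt (.succ (.succ (V KK))) (V NN) (setv OK .zero)).exec s5 with hs6
  have f5 : ∀ a, a ≠ OK → a ≠ RY → a ≠ P → a ≠ J → s5 a = s a := by
    intro a q1 q2 q3 q4
    rw [b5 a q1, f4 a q1 q2 q3 q4]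
  obtain ⟨a6, b6⟩ := chk (s := s5) (s' := s6) (b := s KK 0 + 2 < n) (by
    rw [hs6, exec_iflt, exec_setv]
    have e1 : s5 KK 0 = s KK 0 := by rw [f5 _ (by simp) (by simp) (by simp) (by simp)]
    have e2 : s5 NN 0 = n := by rw [f5 _ (by simp) (by simp) (by simp) (by simp), h.nn]
    simp only [Exp.eval_zero, Exp.eval_succ, eval_V, e1, e2])
  -- step 7
  set s7 := (ifeq (V R) (V X1) (setv OK .zero)).exec s6 with hs7
  have f6 : ∀ a, a ≠ OK → a ≠ RY → a ≠ P → a ≠ J → s6 a = s a := by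
    intro a q1 q2 q3 q4
    rw [b6 a q1, f5 a q1 q2 q3 q4]
  obtain ⟨a7, b7⟩ := chk (s := s6) (s' := s7) (b := r = x₁) (by
    rw [hs7, exec_ifeq, exec_setv]
    have e1 : s6 X1 0 = x₁ := by rw [f6 _ (by simp) (by simp) (by simp) (by simp), h1]
    have e2 : s6 R 0 = r := by rw [f6 _ (by simp) (by simp) (by simp) (by simp), hr]
    simp only [Exp.eval_zero, eval_V, e1, e2, Fin.ext_iff])
  -- step 8
  have f7 : ∀ a, a ≠ OK → a ≠ RY → a ≠ P → a ≠ J → s7 a = s a := by
    intro a q1 q2 q3 q4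
    rw [b7 a q1, f6 a q1 q2 q3 q4]
  obtain ⟨a8, b8⟩ := chk (s := s7) (s' := (ifeq (V R) (V X2) (setv OK .zero)).exec s7)
    (b := r = x₂) (by
    rw [exec_ifeq, exec_setv]
    have e1 : s7 X2 0 = x₂ := by rw [f7 _ (by simp) (by simp) (by simp) (by simp), h2]
    have e2 : s7 R 0 = r := by rw [f7 _ (by simp) (by simp) (by simp) (by simp), hr]
    simp only [Exp.eval_zero, eval_V, e1, e2, Fin.ext_iff])
  have a2 : s2 OK 0 = s1 OK 0 := by rw [b2 _ (by simp) (by simp) (by simp)]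
  rw [a8, a7, a6, a5, a4, a3, a2, a1]
  constructor
  · intro hns
    by_cases c1 : r = x₂
    · rw [if_pos c1]
    rw [if_neg c1]
    by_cases c2 : r = x₁
    · rw [if_pos c2]
    rw [if_neg c2]
    by_cases c3 : s KK 0 + 2 < n
    · rw [if_pos c3]
    rw [if_neg c3]
    by_cases c4 : G.degree x₂ + 2 ≠ n
    · rw [if_pos c4]
    rw [if_neg c4]
    by_cases c5 : G.degree x₁ + 2 ≠ n
    · rw [if_pos c5]
    rw [if_neg c5]
    by_cases c6 : G.Adj x₁ x₂
    · rw [if_pos c6]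
    rw [if_neg c6]
    by_cases c7 : x₁ = x₂
    · rw [if_pos c7]
    exfalso
    apply hns
    rw [not_not] at c4 c5
    exact ⟨c7, c6, by rw [Fintype.card_fin]; exact c5, by rw [Fintype.card_fin]; exact c4,
      by rw [Fintype.card_fin]; omega, c2, c1⟩
  · intro hs
    have q1 := hs.deg1
    have q2 := hs.deg2
    have q3 := hs.card
    rw [Fintype.card_fin] at q1 q2 q3
    rw [if_neg hs.r2, if_neg hs.r1, if_neg (by omega), if_neg (by rw [not_not]; exact q2),
      if_neg (by rw [not_not]; exact q1), if_neg hs.nadj, if_neg hs.ne]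

/-- the attempt parameters `X1`, `X2`: either no special pair, or an admissible special pair -/
def SpecOK (G : SimpleGraph (Fin n)) [DecidableRel G.Adj] (k x₁ x₂ : ℕ) (r : Fin n) : Prop :=
  ∀ h1 : x₁ < n, ∃ h2 : x₂ < n, Special G k ⟨x₁, h1⟩ ⟨x₂, h2⟩ r

lemma frame_checkSpecial (s : Store Nm) (a : Nm) (h1 : a ≠ OK) (h2 : a ≠ RY) (h3 : a ≠ P)
    (h4 : a ≠ J) : (checkSpecial.exec s) a = s a := by
  apply Cmd.frame
  simp [checkSpecial, checkPair, loadRow, For, setv, incv, iflt, ifne, ifeq, ifle, Cmd.writes,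
    h1, h2, h3, h4]

lemma spec_checkSpecial {s : Store Nm} (h : Ctx G s) {r : Fin n} (hr : s R 0 = r) :
    (¬ SpecOK G (s KK 0) (s X1 0) (s X2 0) r → (checkSpecial.exec s) OK 0 = 0) ∧
    (SpecOK G (s KK 0) (s X1 0) (s X2 0) r → (checkSpecial.exec s) OK 0 = s OK 0) := by
  unfold checkSpecial
  by_cases h1 : s X1 0 < n
  · rw [iflt_pos (by rw [eval_V, eval_V, h.nn]; exact h1), Cmd.exec_seq]
    set s1 := (ifle (V NN) (V X2) (setv OK .zero)).exec s with hs1
    obtain ⟨a1, b1⟩ := chk (s := s) (s' := s1) (b := n ≤ s X2 0) (by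
      rw [hs1, exec_ifle, exec_setv]
      simp only [eval_V, h.nn, Exp.eval_zero])
    have e1 : s1 X2 0 = s X2 0 := by rw [b1 _ (by simp)]
    have e2 : s1 NN 0 = n := by rw [b1 _ (by simp), h.nn]
    by_cases h2 : s X2 0 < n
    · rw [iflt_pos (by rw [eval_V, eval_V, e1, e2]; exact h2)]
      have hctx1 : Ctx G s1 := h.of_eq (b1 _ (by simp)) (b1 _ (by simp)) (b1 _ (by simp))
        (b1 _ (by simp)) (b1 _ (by simp))
      have := spec_checkPair (G := G) hctx1 (x₁ := ⟨s X1 0, h1⟩) (x₂ := ⟨s X2 0, h2⟩) (r := r)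
        (by rw [b1 _ (by simp)]) (by rw [b1 _ (by simp)]) (by rw [b1 _ (by simp), hr])
      rw [b1 KK (by simp)] at this
      rw [a1, if_neg (by omega)] at this
      constructor
      · intro hns
        apply this.1
        intro hs
        exact hns (fun _ => ⟨h2, hs⟩)
      · intro hs
        obtain ⟨_, hs'⟩ := hs h1
        exact this.2 hs'
    · rw [iflt_neg (by rw [eval_V, eval_V, e1, e2]; exact h2)]
      constructor
      · intro _; rw [a1, if_pos (by omega)]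
      · intro hs
        obtain ⟨h3, _⟩ := hs h1
        exact absurd h3 h2
  · rw [iflt_neg (by rw [eval_V, eval_V, h.nn]; exact h1)]
    constructor
    · intro hns
      exact absurd (fun h3 => absurd h3 h1) hns
    · intro _; rfl

/-- excluded partners -/
def exSet (n x₁ x₂ : ℕ) : Finset (Fin n) :=
  Finset.univ.filter (fun v : Fin n => x₁ < n ∧ ((v : ℕ) = x₁ ∨ (v : ℕ) = x₂))

lemma mem_exSet {n x₁ x₂ : ℕ} {v : Fin n} :
    v ∈ exSet n x₁ x₂ ↔ x₁ < n ∧ ((v : ℕ) = x₁ ∨ (v : ℕ) = x₂) := by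
  simp [exSet]

lemma exSet_of_not {n x₁ x₂ : ℕ} (h : ¬ x₁ < n) : exSet n x₁ x₂ = ∅ := by
  ext v
  rw [mem_exSet]
  simp [h]

lemma exSet_of_lt {n x₁ x₂ : ℕ} (h1 : x₁ < n) (h2 : x₂ < n) :
    exSet n x₁ x₂ = {⟨x₁, h1⟩, ⟨x₂, h2⟩} := by
  ext v
  rw [mem_exSet, Finset.mem_insert, Finset.mem_singleton, Fin.ext_iff, Fin.ext_iff]
  simp [h1]

lemma frame_initArrays (s : Store Nm) (a : Nm) (h1 : a ≠ RR) (h2 : a ≠ P) (h3 : a ≠ J)
    (h4 : a ≠ T) (h5 : a ≠ USED) (h6 : a ≠ PAR) : (initArrays.exec s) a = s a := by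
  apply Cmd.frame
  simp [initArrays, loadRow, For, setv, incv, iflt, Cmd.writes, h1, h2, h3, h4, h5, h6]

lemma spec_initArrays {s : Store Nm} (h : Ctx G s) {r : Fin n} (hr : s R 0 = r) :
    IsRow G (initArrays.exec s) RR r ∧
    (∀ v : Fin n, (initArrays.exec s) USED v = if v ∈ exSet n (s X1 0) (s X2 0) then 1 else 0) ∧
    (∀ v : Fin n, (initArrays.exec s) PAR v = r) := by
  unfold initArrays
  simp only [Cmd.exec_seq]
  set s1 := (loadRow RR (V R)).exec s with hs1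
  have b1 : ∀ a, a ≠ RR → a ≠ P → a ≠ J → s1 a = s a :=
    fun a ha1 ha2 ha3 => frame_loadRow _ _ _ _ ha1 ha2 ha3
  have hrow : IsRow G s1 RR r := row_loadRow h (by simp) (by simp) (by simp) (by simp)
    (by rw [eval_V, hr])
  have hn1 : s1 NN 0 = n := by rw [b1 _ (by simp) (by simp) (by simp), h.nn]
  have hr1 : s1 R 0 = r := by rw [b1 _ (by simp) (by simp) (by simp), hr]
  set s2 := (For T (V NN) (.seq (.set USED (V T) .zero) (.set PAR (V T) (V R)))).exec s1 with hs2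
  have b2 : ∀ a, a ≠ T → a ≠ USED → a ≠ PAR → s2 a = s1 a := by
    intro a ha1 ha2 ha3
    apply Cmd.frame
    simp [For, setv, incv, Cmd.writes, ha1, ha2, ha3]
  have hloop := for_rule (x := T) (e := V NN)
    (c := .seq (.set USED (V T) .zero) (.set PAR (V T) (V R)))
    (s := s1) n (by simp [upd_apply, hn1]) (by simp [Cmd.writes])
    (fun j s' => (∀ i < j, s' USED i = 0 ∧ s' PAR i = r) ∧ s' R 0 = r)
    (by simp [upd_apply, hr1])
    (by
      intro j hj s' hT ⟨q1, q2⟩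
      simp only [Cmd.exec_seq, Cmd.exec_set, eval_V, hT, Exp.eval_zero]
      refine ⟨?_, ?_⟩
      · intro i hi
        by_cases hij : i = j
        · simp [upd_apply, q2, hij, hT]
        · simp [upd_apply, hij, q1 i (by omega), hT]
      · simp [upd_apply, q2])
  rw [← hs2] at hloop
  have e1 : s2 X1 0 = s X1 0 := by
    rw [b2 _ (by simp) (by simp) (by simp), b1 _ (by simp) (by simp) (by simp)]
  have e2 : s2 X2 0 = s X2 0 := by
    rw [b2 _ (by simp) (by simp) (by simp), b1 _ (by simp) (by simp) (by simp)]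
  have e3 : s2 NN 0 = n := by rw [b2 _ (by simp) (by simp) (by simp), hn1]
  by_cases hx : s X1 0 < n
  · rw [iflt_pos (by rw [eval_V, eval_V, e1, e3]; exact hx)]
    simp only [Cmd.exec_seq, Cmd.exec_set, eval_V, e1, one, Exp.eval_succ, Exp.eval_zero]
    refine ⟨?_, ?_, ?_⟩
    · intro j
      rw [upd_of_ne _ _ _ (by simp), upd_of_ne _ _ _ (by simp), b2 _ (by simp) (by simp) (by simp)]
      exact hrow j
    · intro v
      have e4 : (upd s2 USED (s X1 0) (0 + 1)) X2 0 = s X2 0 := by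
        rw [upd_of_ne _ _ _ (by simp), e2]
      rw [e4, upd_same, upd_same, (hloop.1 v v.2).1]
      simp only [mem_exSet, hx, true_and]
      by_cases c1 : (v : ℕ) = s X2 0
      · simp [c1]
      · by_cases c2 : (v : ℕ) = s X1 0
        · simp [c2]
        · simp [c1, c2]
    · intro v
      rw [upd_of_ne _ _ _ (by simp), upd_of_ne _ _ _ (by simp), (hloop.1 v v.2).2]
  · rw [iflt_neg (by rw [eval_V, eval_V, e1, e3]; exact hx)]
    refine ⟨?_, ?_, ?_⟩
    · intro j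
      rw [b2 _ (by simp) (by simp) (by simp)]
      exact hrow j
    · intro v
      rw [(hloop.1 v v.2).1, exSet_of_not hx]
      simp
    · intro v
      exact (hloop.1 v v.2).2

end Pool.Agent.Lib.MP_fe081e_lc.Alg
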