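import Pool.Agent.Lib.MP_fe081e_lc.Alg.Spec3

/-!
Specification of `counts` and `findBest`.
-/

namespace Pool.Agent.Lib.MP_fe081e_lc.Alg

open Nm

/-- decidability of `writes` -/
instance Cmd.decWrites {ι : Type} [DecidableEq ι] : (c : Cmd ι) → (a : ι) → Decidable (c.writes a)
  | .skip, _ => isFalse id
  | .seq c d, a =>
    letI := Cmd.decWrites c a
    letI := Cmd.decWrites d a
    inferInstanceAs (Decidable (c.writes a ∨ d.writes a))
  | .set b _ _, a => inferInstanceAs (Decidable (a = b))
  | .cmp _ _ c1 c2 c3, a =>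
    letI := Cmd.decWrites c1 a
    letI := Cmd.decWrites c2 a
    letI := Cmd.decWrites c3 a
    inferInstanceAs (Decidable (c1.writes a ∨ c2.writes a ∨ c3.writes a))
  | .rep _ c, a => Cmd.decWrites c a

/-- the read-only environment of an attempt -/
structure Env {n : ℕ} (G : SimpleGraph (Fin n)) [DecidableRel G.Adj] (k x₁ x₂ : ℕ) (r : Fin n)
    (s : Store Nm) : Prop extends Ctx G s where
  kk : s KK 0 = k
  vx1 : s X1 0 = x₁
  vx2 : s X2 0 = x₂
  vr : s R 0 = r
  rr : IsRow G s RR r

variable {n : ℕ} {G : SimpleGraph (Fin n)} [DecidableRel G.Adj] {k x₁ x₂ : ℕ} {r : Fin n}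

/-- the arrays of the environment -/
def IsEnvArr (a : Nm) : Prop :=
  a = NN ∨ a = MM ∨ a = ADJ ∨ a = RB ∨ a = DEG ∨ a = KK ∨ a = X1 ∨ a = X2 ∨ a = R ∨ a = RR

instance : DecidablePred IsEnvArr := fun a => by unfold IsEnvArr; infer_instance

lemma Env.of_eq {s s' : Store Nm} (h : Env G k x₁ x₂ r s) (hs : ∀ a, IsEnvArr a → s' a = s a) :
    Env G k x₁ x₂ r s' := by
  have q : ∀ a, IsEnvArr a → s' a = s a := hs
  refine ⟨h.toCtx.of_eq (q _ (by decide)) (q _ (by decide)) (q _ (by decide)) (q _ (by decide))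
    (q _ (by decide)), ?_, ?_, ?_, ?_, ?_⟩
  · rw [q _ (by decide)]; exact h.kk
  · rw [q _ (by decide)]; exact h.vx1
  · rw [q _ (by decide)]; exact h.vx2
  · rw [q _ (by decide)]; exact h.vr
  · intro j; rw [q _ (by decide)]; exact h.rr j

lemma Env.exec {s : Store Nm} (h : Env G k x₁ x₂ r s) (c : Cmd Nm)
    (hc : ∀ a, IsEnvArr a → ¬ c.writes a) : Env G k x₁ x₂ r (c.exec s) :=
  h.of_eq (fun a ha => c.frame (hc a ha) s)

lemma Env.upd {s : Store Nm} (h : Env G k x₁ x₂ r s) {a : Nm} (i v : ℕ) (ha : ¬ IsEnvArr a) :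
    Env G k x₁ x₂ r (upd s a i v) :=
  h.of_eq (fun b hb => upd_of_ne _ _ _ (by rintro rfl; exact ha hb))

/-! ### counts -/

/-- the loop counting the possible partners -/
def cntLoop : Cmd Nm :=
  For X (V NN) (ifeq (.get RR (V X)) one (ifeq (.get RY (V X)) one
        (ifeq (.get USED (V X)) .zero (.set CNT (V Y) (.succ (.get CNT (V Y)))))))

lemma spec_cntLoop {s : Store Nm} (h : Env G k x₁ x₂ r s) {y : Fin n} (hy : s Y 0 = y)
    (hRY : IsRow G s RY y) {Ex : Finset (Fin n)}
    (hU : ∀ v : Fin n, s USED v = if v ∈ Ex then 1 else 0) (h0 : s CNT y = 0) :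
    (cntLoop.exec s) CNT y = (Ws G r Ex y).card ∧
      ∀ i, i ≠ (y : ℕ) → (cntLoop.exec s) CNT i = s CNT i := by
  unfold cntLoop
  have := for_rule (x := X) (e := V NN) (c := ifeq (.get RR (V X)) one (ifeq (.get RY (V X)) one
        (ifeq (.get USED (V X)) .zero (.set CNT (V Y) (.succ (.get CNT (V Y)))))))
    (s := s) n (by simp [upd_apply, h.nn]) (by decide)
    (fun j s' => s' CNT y = (Finset.univ.filter
      (fun w : Fin n => (w : ℕ) < j ∧ (G.Adj r w ∧ G.Adj y w ∧ w ∉ Ex))).card ∧
      (∀ i, i ≠ (y : ℕ) → s' CNT i = s CNT i) ∧ s' RR = s RR ∧ s' RY = s RY ∧ s' USED = s USED ∧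
        s' Y = s Y)
    (by
      refine ⟨by simp [upd_apply, h0], ?_, ?_, ?_, ?_, ?_⟩
      · intro i hi; rw [upd_of_ne _ _ _ (by decide)]
      all_goals rw [upd_of_ne _ _ _ (by decide)])
    (by
      intro j hj s' hX ⟨h1, h2, h3, h4, h5, h6⟩
      rw [card_filter_lt_succ (fun w => G.Adj r w ∧ G.Adj y w ∧ w ∉ Ex) j hj]
      have e1 : s' RR j = if G.Adj r ⟨j, hj⟩ then 1 else 0 := by rw [h3]; exact h.rr ⟨j, hj⟩
      have e2 : s' RY j = if G.Adj y ⟨j, hj⟩ then 1 else 0 := by rw [h4]; exact hRY ⟨j, hj⟩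
      have e3 : s' USED j = if (⟨j, hj⟩ : Fin n) ∈ Ex then 1 else 0 := by
        rw [h5]; exact hU ⟨j, hj⟩
      have e4 : s' Y 0 = y := by rw [h6]; exact hy
      by_cases hc : G.Adj r ⟨j, hj⟩ ∧ G.Adj y ⟨j, hj⟩ ∧ (⟨j, hj⟩ : Fin n) ∉ Ex
      · rw [ifeq_pos (by simp [one, hX, e1, hc.1]), ifeq_pos (by simp [one, hX, e2, hc.2.1]),
          ifeq_pos (by simp [hX, e3, hc.2.2]), Cmd.exec_set, if_pos hc]
        simp only [eval_V, Exp.eval_succ, Exp.eval_get, e4]
        refine ⟨?_, ?_, ?_, ?_, ?_, ?_⟩
        · rw [upd_of_ne _ _ _ (by decide), upd_self, h1]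
        · intro i hi
          rw [upd_of_ne _ _ _ (by decide), upd_same, if_neg hi, h2 i hi]
        all_goals rw [upd_of_ne _ _ _ (by decide), upd_of_ne _ _ _ (by decide)]; assumption
      · have hsame : (ifeq (.get RR (V X)) one (ifeq (.get RY (V X)) one
            (ifeq (.get USED (V X)) .zero
              (.set CNT (V Y) (.succ (.get CNT (V Y))))))).exec s' = s' := by
          by_cases c1 : G.Adj r ⟨j, hj⟩
          · rw [ifeq_pos (by simp [one, hX, e1, c1])]
            by_cases c2 : G.Adj y ⟨j, hj⟩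
            · rw [ifeq_pos (by simp [one, hX, e2, c2])]
              by_cases c3 : (⟨j, hj⟩ : Fin n) ∈ Ex
              · rw [ifeq_neg (by simp [hX, e3, c3])]
              · exact absurd ⟨c1, c2, c3⟩ hc
            · rw [ifeq_neg (by simp [one, hX, e2, c2])]
          · rw [ifeq_neg (by simp [one, hX, e1, c1])]
        rw [hsame, if_neg hc, add_zero]
        refine ⟨?_, ?_, ?_, ?_, ?_, ?_⟩
        · rw [upd_of_ne _ _ _ (by decide)]; exact h1
        · intro i hi
          rw [upd_of_ne _ _ _ (by decide)]; exact h2 i hi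
        all_goals rw [upd_of_ne _ _ _ (by decide)]; assumption)
  refine ⟨this.1.trans ?_, this.2.1⟩
  unfold Ws
  congr 1
  ext w
  simp only [Finset.mem_filter, Finset.mem_univ, true_and]
  exact ⟨fun h => h.2, fun h => ⟨w.2, h⟩⟩

/-- the class number of `y` -/
def cval (G : SimpleGraph (Fin n)) [DecidableRel G.Adj] (r : Fin n) (x₁ : ℕ)
    (Ex : Finset (Fin n)) (y : Fin n) : ℕ :=
  if y ∈ nonNbr G r then
    (if x₁ < n ∧ Ws G r Ex y = ∅ then n else (Ws G r Ex y).card) else 0

/-- the initial parent of `y` -/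
def pval (G : SimpleGraph (Fin n)) [DecidableRel G.Adj] (r : Fin n) (x₁ : ℕ)
    (Ex : Finset (Fin n)) (y : Fin n) : ℕ :=
  if y ∈ nonNbr G r ∧ x₁ < n ∧ Ws G r Ex y = ∅ then x₁ else r

lemma frame_counts (s : Store Nm) (a : Nm) (h1 : a ≠ Y) (h2 : a ≠ CNT) (h3 : a ≠ RY)
    (h4 : a ≠ P) (h5 : a ≠ J) (h6 : a ≠ X) (h7 : a ≠ PAR) : (counts.exec s) a = s a := by
  apply Cmd.frame
  simp [counts, loadRow, For, setv, incv, ifeq, iflt, ifne, Cmd.writes, h1, h2, h3, h4, h5, h6, h7]

lemma spec_counts {s : Store Nm} (h : Env G k x₁ x₂ r s) {Ex : Finset (Fin n)}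
    (hU : ∀ v : Fin n, s USED v = if v ∈ Ex then 1 else 0)
    (hPAR : ∀ v : Fin n, s PAR v = r) :
    ∀ v : Fin n, (counts.exec s) CNT v = cval G r x₁ Ex v ∧
      (counts.exec s) PAR v = pval G r x₁ Ex v := by
  have hn0 : 0 < n := r.pos
  unfold counts
  set body : Cmd Nm := (.seq (.set CNT (V Y) .zero)
    (ifne (V Y) (V R) (ifeq (.get RR (V Y)) .zero
      (.seq (loadRow RY (V Y))
      (.seq (For X (V NN) (ifeq (.get RR (V X)) one (ifeq (.get RY (V X)) one
        (ifeq (.get USED (V X)) .zero (.set CNT (V Y) (.succ (.get CNT (V Y))))))))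
        (iflt (V X1) (V NN) (ifeq (.get CNT (V Y)) .zero
          (.seq (.set PAR (V Y) (V X1)) (.set CNT (V Y) (V NN)))))))))) with hbody
  have fr : ∀ (s : Store Nm) a, a ≠ CNT → a ≠ RY →
    a ≠ P → a ≠ J → a ≠ X → a ≠ PAR → (body.exec s) a = s a := by
    intro s a h2 h3 h4 h5 h6 h7
    apply Cmd.frame
    simp [hbody, loadRow, For, setv, incv, ifeq, iflt, ifne, Cmd.writes, h2, h3, h4, h5, h6, h7]
  have := for_rule (x := Y) (e := V NN) (c := body)
    (s := s) n (by simp [upd_apply, h.nn]) (by rw [hbody]; decide)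
    (fun j s' => (∀ v : Fin n, (v : ℕ) < j → s' CNT v = cval G r x₁ Ex v ∧
        s' PAR v = pval G r x₁ Ex v) ∧ (∀ v : Fin n, j ≤ (v : ℕ) → s' PAR v = r) ∧
        Env G k x₁ x₂ r s' ∧ s' USED = s USED)
    (by
      refine ⟨fun v hv => by omega, ?_, h.upd _ _ (by decide), upd_of_ne _ _ _ (by decide)⟩
      intro v _
      rw [upd_of_ne _ _ _ (by decide)]
      exact hPAR v)
    (by
      intro j hj s' hY ⟨h1, h2, h3, h4⟩
      have hjn : s' Y 0 = ((⟨j, hj⟩ : Fin n) : ℕ) := hY
      have hother : (∀ v : Fin n, (v : ℕ) ≠ j → (body.exec s') CNT v = s' CNT v ∧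
          (body.exec s') PAR v = s' PAR v) ∧
          (body.exec s') CNT j = cval G r x₁ Ex ⟨j, hj⟩ ∧
          (body.exec s') PAR j = pval G r x₁ Ex ⟨j, hj⟩ := by
        rw [hbody, Cmd.exec_seq]
        set s1 := (Cmd.set CNT (V Y) .zero).exec s' with hs1
        have b1 : ∀ a, a ≠ CNT → s1 a = s' a := fun a ha => by
          rw [hs1, Cmd.exec_set, upd_of_ne _ _ _ ha]
        have c1 : s1 CNT j = 0 := by simp [hs1, upd_apply, hY]
        have c1' : ∀ i, i ≠ j → s1 CNT i = s' CNT i := by
          intro i hi; simp [hs1, upd_apply, hY, hi]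
        have env1 : Env G k x₁ x₂ r s1 := h3.upd _ _ (by decide)
        have hY1 : s1 Y 0 = j := by rw [b1 _ (by decide), hY]
        have hPj : s1 PAR j = r := by rw [b1 _ (by decide)]; exact h2 ⟨j, hj⟩ le_rfl
        have hrow1 := env1.rr ⟨j, hj⟩
        simp only at hrow1
        by_cases hne : (⟨j, hj⟩ : Fin n) = r
        · rw [ifne_neg (by simp [hY1, env1.vr, ← hne])]
          have hnm : ¬ ((⟨j, hj⟩ : Fin n) ∈ nonNbr G r) := by
            rw [mem_nonNbr]; exact fun h => h.1 hne
          refine ⟨fun v hv => ⟨c1' _ hv, by rw [b1 _ (by decide)]⟩, ?_, ?_⟩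
          · unfold cval; rw [if_neg hnm, c1]
          · unfold pval; rw [if_neg (fun h => hnm h.1), hPj]
        · have hne' : j ≠ (r : ℕ) := fun h => hne (Fin.ext h)
          rw [ifne_pos (by simpa [hY1, env1.vr] using hne')]
          by_cases hadj : G.Adj r ⟨j, hj⟩
          · rw [ifeq_neg (by simp [hY1, hrow1, hadj])]
            have hnm : ¬ ((⟨j, hj⟩ : Fin n) ∈ nonNbr G r) := by
              rw [mem_nonNbr]; exact fun h => h.2 hadj
            refine ⟨fun v hv => ⟨c1' _ hv, by rw [b1 _ (by decide)]⟩, ?_, ?_⟩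
            · unfold cval; rw [if_neg hnm, c1]
            · unfold pval; rw [if_neg (fun h => hnm h.1), hPj]
          · rw [ifeq_pos (by simp [hY1, hrow1, hadj]), Cmd.exec_seq, Cmd.exec_seq]
            have hm : (⟨j, hj⟩ : Fin n) ∈ nonNbr G r := by
              rw [mem_nonNbr]; exact ⟨hne, hadj⟩
            set s2 := (loadRow RY (V Y)).exec s1 with hs2
            have b2 : ∀ a, a ≠ RY → a ≠ P → a ≠ J → s2 a = s1 a :=
              fun a ha1 ha2 ha3 => frame_loadRow _ _ _ _ ha1 ha2 ha3
            have hrow2 : IsRow G s2 RY ⟨j, hj⟩ := row_loadRow env1.toCtx (by decide) (by decide)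
              (by decide) (by decide) (by simp [hY1])
            have env2 : Env G k x₁ x₂ r s2 := env1.exec _ (by decide)
            have hY2 : s2 Y 0 = j := by rw [b2 _ (by decide) (by decide) (by decide), hY1]
            have hU2 : ∀ v : Fin n, s2 USED v = if v ∈ Ex then 1 else 0 := by
              intro v
              rw [b2 _ (by decide) (by decide) (by decide), b1 _ (by decide), h4]
              exact hU v
            obtain ⟨g1, g2⟩ := spec_cntLoop (G := G) (y := ⟨j, hj⟩) env2 hY2 hrow2 hU2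
              (by simp only; rw [b2 _ (by decide) (by decide) (by decide), c1])
            set s3 := cntLoop.exec s2 with hs3
            have hs3' : (For X (V NN) (ifeq (.get RR (V X)) one (ifeq (.get RY (V X)) one
              (ifeq (.get USED (V X)) .zero (.set CNT (V Y) (.succ (.get CNT (V Y)))))))).exec s2
                = s3 := rfl
            rw [hs3']
            have b3 : ∀ a, a ≠ CNT → a ≠ X → s3 a = s2 a := by
              intro a ha1 ha2
              apply Cmd.frame
              simp [cntLoop, For, setv, incv, ifeq, Cmd.writes, ha1, ha2]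
            have env3 : Env G k x₁ x₂ r s3 := env2.exec _ (by decide)
            have hY3 : s3 Y 0 = j := by rw [b3 _ (by decide) (by decide), hY2]
            have hC3 : s3 CNT j = (Ws G r Ex ⟨j, hj⟩).card := g1
            have hC3' : ∀ v : Fin n, (v : ℕ) ≠ j → s3 CNT v = s' CNT v := by
              intro v hv
              rw [g2 _ hv, b2 _ (by decide) (by decide) (by decide), c1' _ hv]
            have hP3 : ∀ i, s3 PAR i = s' PAR i := by
              intro i
              rw [b3 _ (by decide) (by decide), b2 _ (by decide) (by decide) (by decide),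
                b1 _ (by decide)]
            by_cases hx : x₁ < n
            · rw [iflt_pos (by simpa [env3.vx1, env3.nn] using hx)]
              by_cases hW : Ws G r Ex ⟨j, hj⟩ = ∅
              · rw [ifeq_pos (by simp [hY3, hC3, hW]), Cmd.exec_seq, Cmd.exec_set, Cmd.exec_set]
                simp only [eval_V, env3.vx1, hY3]
                have e1 : (Alg.upd s3 PAR j x₁) Y 0 = j := by
                  rw [upd_of_ne _ _ _ (by decide), hY3]
                have e2 : (Alg.upd s3 PAR j x₁) NN 0 = n := by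
                  rw [upd_of_ne _ _ _ (by decide), env3.nn]
                rw [e1, e2]
                refine ⟨?_, ?_, ?_⟩
                · intro v hv
                  refine ⟨?_, ?_⟩
                  · rw [upd_same, if_neg hv, upd_of_ne _ _ _ (by decide), hC3' v hv]
                  · rw [upd_of_ne _ _ _ (by decide), upd_same, if_neg hv, hP3]
                · rw [upd_self]
                  unfold cval
                  rw [if_pos hm, if_pos ⟨hx, hW⟩]
                · rw [upd_of_ne _ _ _ (by decide), upd_self]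
                  unfold pval
                  rw [if_pos ⟨hm, hx, hW⟩]
              · have hcard : (Ws G r Ex ⟨j, hj⟩).card ≠ 0 := by
                  rw [Finset.card_ne_zero]
                  exact Finset.nonempty_iff_ne_empty.2 hW
                rw [ifeq_neg (by simpa [hY3, hC3] using hW)]
                refine ⟨fun v hv => ⟨hC3' v hv, hP3 _⟩, ?_, ?_⟩
                · unfold cval
                  rw [if_pos hm, if_neg (fun h => hW h.2), hC3]
                · unfold pval
                  rw [if_neg (fun h => hW h.2.2), hP3]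
                  exact h2 ⟨j, hj⟩ le_rfl
            · rw [iflt_neg (by simpa [env3.vx1, env3.nn] using hx)]
              refine ⟨fun v hv => ⟨hC3' v hv, hP3 _⟩, ?_, ?_⟩
              · unfold cval
                rw [if_pos hm, if_neg (fun h => hx h.1), hC3]
              · unfold pval
                rw [if_neg (fun h => hx h.2.1), hP3]
                exact h2 ⟨j, hj⟩ le_rfl
      obtain ⟨q1, q2, q3⟩ := hother
      refine ⟨?_, ?_, ?_, ?_⟩
      · intro v hv
        rw [upd_of_ne _ _ _ (by decide), upd_of_ne _ _ _ (by decide)]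
        by_cases hvj : (v : ℕ) = j
        · have hv' : v = ⟨j, hj⟩ := Fin.ext hvj
          rw [hvj, hv']
          exact ⟨q2, q3⟩
        · rw [(q1 v hvj).1, (q1 v hvj).2]
          exact h1 v (by omega)
      · intro v hv
        rw [upd_of_ne _ _ _ (by decide), (q1 v (by omega)).2]
        exact h2 v (by omega)
      · exact (h3.exec _ (by rw [hbody]; decide)).upd _ _ (by decide)
      · rw [upd_of_ne _ _ _ (by decide), fr _ _ (by decide) (by decide) (by decide) (by decide)
          (by decide) (by decide), h4])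
  intro v
  exact this.1 v v.2

end Pool.Agent.Lib.MP_fe081e_lc.Alg
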