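import Pool.Agent.Lib.MP_fe081e_lc.Alg.Spec4

/-!
Specification of `findBest` and `process`.
-/

namespace Pool.Agent.Lib.MP_fe081e_lc.Alg

open Nm

variable {n : ℕ} {G : SimpleGraph (Fin n)} [DecidableRel G.Adj] {k x₁ x₂ : ℕ} {r : Fin n}

/-- `x` is an unused eligible partner of `y` -/
def Cand (G : SimpleGraph (Fin n)) [DecidableRel G.Adj] (k : ℕ) (r : Fin n) (U : Finset (Fin n))
    (y x : Fin n) : Prop :=
  G.Adj r x ∧ G.Adj y x ∧ x ∉ U ∧ G.degree x + G.degree y ≤ k + 2

/-- sum of two degrees -/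
def sumLoop : Cmd Nm :=
  .seq (setv S (.get DEG (V X))) (For T (V NN) (iflt (V T) (.get DEG (V Y)) (incv S)))

lemma spec_sumLoop {s : Store Nm} (h : Env G k x₁ x₂ r s) {x y : Fin n} (hx : s X 0 = x)
    (hy : s Y 0 = y) : (sumLoop.exec s) S 0 = G.degree x + G.degree y := by
  unfold sumLoop
  rw [Cmd.exec_seq]
  set s0 := (setv S (.get DEG (V X))).exec s with hs0
  have b0 : ∀ a, a ≠ S → s0 a = s a := fun a ha => by rw [hs0, exec_setv, upd_of_ne _ _ _ ha]
  have e0 : s0 S 0 = G.degree x := by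
    rw [hs0, exec_setv, upd_self]
    simp [hx, h.deg]
  have := for_rule (x := T) (e := V NN) (c := iflt (V T) (.get DEG (V Y)) (incv S))
    (s := s0) n (by rw [eval_V, upd_of_ne _ _ _ (by decide), b0 _ (by decide), h.nn]) (by decide)
    (fun j s' => s' S 0 = G.degree x + min j (G.degree y) ∧ s' DEG = s DEG ∧ s' Y = s Y)
    (by
      refine ⟨?_, ?_, ?_⟩
      · rw [upd_of_ne _ _ _ (by decide), e0]; simp
      · rw [upd_of_ne _ _ _ (by decide), b0 _ (by decide)]
      · rw [upd_of_ne _ _ _ (by decide), b0 _ (by decide)])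
    (by
      intro j hj s' hT ⟨h1, h2, h3⟩
      have e1 : s' DEG (s' Y 0) = G.degree y := by rw [h2, h3, hy, h.deg]
      by_cases hc : j < G.degree y
      · rw [iflt_pos (by simp [hT, e1, hc]), exec_incv]
        refine ⟨?_, ?_, ?_⟩
        · rw [upd_of_ne _ _ _ (by decide), upd_self, h1]; omega
        · rw [upd_of_ne _ _ _ (by decide), upd_of_ne _ _ _ (by decide), h2]
        · rw [upd_of_ne _ _ _ (by decide), upd_of_ne _ _ _ (by decide), h3]
      · rw [iflt_neg (by simpa [hT, e1] using hc)]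
        refine ⟨?_, ?_, ?_⟩
        · rw [upd_of_ne _ _ _ (by decide), h1]; omega
        · rw [upd_of_ne _ _ _ (by decide), h2]
        · rw [upd_of_ne _ _ _ (by decide), h3])
  rw [this.1]
  have hlt : G.degree y < n := by
    have := G.degree_lt_card_verts y
    rwa [Fintype.card_fin] at this
  rw [min_eq_right hlt.le]

/-- the body of the search for the best partner -/
def bestBody : Cmd Nm :=
  ifeq (.get RR (V X)) one (ifeq (.get RY (V X)) one
      (ifeq (.get USED (V X)) .zero
        (.seq (.seq (setv S (.get DEG (V X))) (For T (V NN) (iflt (V T) (.get DEG (V Y)) (incv S))))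
          (ifle (V S) (.succ (.succ (V KK))) (ifle (V BD) (.get DEG (V X))
            (.seq (setv BD (.succ (.get DEG (V X)))) (setv BX (V X))))))))

lemma frame_bestBody (s : Store Nm) (a : Nm) (h1 : a ≠ S) (h2 : a ≠ T) (h3 : a ≠ BD)
    (h4 : a ≠ BX) : (bestBody.exec s) a = s a := by
  apply Cmd.frame
  simp [bestBody, For, setv, incv, ifeq, iflt, ifle, Cmd.writes, h1, h2, h3, h4]

lemma spec_bestBody {s : Store Nm} (h : Env G k x₁ x₂ r s) {x y : Fin n} (hx : s X 0 = x)
    (hy : s Y 0 = y) (hRY : IsRow G s RY y) {U : Finset (Fin n)}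
    (hU : ∀ v : Fin n, s USED v = if v ∈ U then 1 else 0) :
    ((¬ Cand G k r U y x ∨ ¬ s BD 0 ≤ G.degree x) →
      (bestBody.exec s) BD 0 = s BD 0 ∧ (bestBody.exec s) BX 0 = s BX 0) ∧
    ((Cand G k r U y x ∧ s BD 0 ≤ G.degree x) →
      (bestBody.exec s) BD 0 = G.degree x + 1 ∧ (bestBody.exec s) BX 0 = x) := by
  have hrx := h.rr x
  have hryx := hRY x
  have hux := hU x
  unfold bestBody
  by_cases c1 : G.Adj r x
  · rw [ifeq_pos (by simp [one, hx, hrx, c1])]
    by_cases c2 : G.Adj y x
    · rw [ifeq_pos (by simp [one, hx, hryx, c2])]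
      by_cases c3 : x ∈ U
      · rw [ifeq_neg (by simp [hx, hux, c3])]
        exact ⟨fun _ => ⟨rfl, rfl⟩, fun hc => absurd c3 hc.1.2.2.1⟩
      · rw [ifeq_pos (by simp [hx, hux, c3]), Cmd.exec_seq]
        have hS := spec_sumLoop h hx hy
        have hs1 : (Cmd.seq (setv S (.get DEG (V X)))
          (For T (V NN) (iflt (V T) (.get DEG (V Y)) (incv S)))).exec s = sumLoop.exec s := rfl
        rw [hs1]
        set s1 := sumLoop.exec s with hs1'
        have b1 : ∀ a, a ≠ S → a ≠ T → s1 a = s a := by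
          intro a ha1 ha2
          apply Cmd.frame
          simp [sumLoop, For, setv, incv, iflt, Cmd.writes, ha1, ha2]
        have env1 : Env G k x₁ x₂ r s1 := h.exec _ (by decide)
        have hX1 : s1 X 0 = x := by rw [b1 _ (by decide) (by decide), hx]
        have hBD1 : s1 BD 0 = s BD 0 := by rw [b1 _ (by decide) (by decide)]
        have hBX1 : s1 BX 0 = s BX 0 := by rw [b1 _ (by decide) (by decide)]
        by_cases c4 : G.degree x + G.degree y ≤ k + 2
        · rw [ifle_pos (by simp only [eval_V, Exp.eval_succ, hS, env1.kk]; omega)]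
          by_cases c5 : s BD 0 ≤ G.degree x
          · rw [ifle_pos (by simp only [eval_V, Exp.eval_get, hX1, env1.deg, hBD1]; exact c5),
              Cmd.exec_seq, exec_setv, exec_setv]
            simp only [eval_V, Exp.eval_succ, Exp.eval_get, hX1, env1.deg]
            refine ⟨fun hc => ?_, fun _ => ⟨?_, ?_⟩⟩
            · rcases hc with hc | hc
              · exact absurd ⟨c1, c2, c3, c4⟩ hc
              · exact absurd c5 hc
            · rw [upd_of_ne _ _ _ (by decide), upd_self]
            · rw [upd_self, upd_of_ne _ _ _ (by decide), hX1]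
          · rw [ifle_neg (by simp only [eval_V, Exp.eval_get, hX1, env1.deg, hBD1]; exact c5)]
            exact ⟨fun _ => ⟨hBD1, hBX1⟩, fun hc => absurd hc.2 c5⟩
        · rw [ifle_neg (by simp only [eval_V, Exp.eval_succ, hS, env1.kk]; omega)]
          exact ⟨fun _ => ⟨hBD1, hBX1⟩, fun hc => absurd hc.1.2.2.2 c4⟩
    · rw [ifeq_neg (by simp [one, hx, hryx, c2])]
      exact ⟨fun _ => ⟨rfl, rfl⟩, fun hc => absurd hc.1.2.1 c2⟩
  · rw [ifeq_neg (by simp [one, hx, hrx, c1])]
    exact ⟨fun _ => ⟨rfl, rfl⟩, fun hc => absurd hc.1.1 c1⟩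

lemma frame_findBest (s : Store Nm) (a : Nm) (h1 : a ≠ S) (h2 : a ≠ T) (h3 : a ≠ BD)
    (h4 : a ≠ BX) (h5 : a ≠ RY) (h6 : a ≠ P) (h7 : a ≠ J) (h8 : a ≠ X) :
    (findBest.exec s) a = s a := by
  apply Cmd.frame
  simp [findBest, loadRow, For, setv, incv, ifeq, iflt, ifle, Cmd.writes, h1, h2, h3, h4, h5, h6,
    h7, h8]

lemma spec_findBest {s : Store Nm} (h : Env G k x₁ x₂ r s) {y : Fin n} (hy : s Y 0 = y)
    {U : Finset (Fin n)} (hU : ∀ v : Fin n, s USED v = if v ∈ U then 1 else 0) :
    ((findBest.exec s) BD 0 = 0 ∧ ∀ x, ¬ Cand G k r U y x) ∨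
    ∃ xs : Fin n, Cand G k r U y xs ∧ (findBest.exec s) BX 0 = xs ∧
      (findBest.exec s) BD 0 = G.degree xs + 1 ∧ ∀ x, Cand G k r U y x → G.degree x ≤ G.degree xs := by
  unfold findBest
  rw [Cmd.exec_seq, Cmd.exec_seq, Cmd.exec_seq]
  set s1 := (loadRow RY (V Y)).exec s with hs1
  have b1 : ∀ a, a ≠ RY → a ≠ P → a ≠ J → s1 a = s a :=
    fun a ha1 ha2 ha3 => frame_loadRow _ _ _ _ ha1 ha2 ha3
  have hrow : IsRow G s1 RY y := row_loadRow h.toCtx (by decide) (by decide) (by decide)
    (by decide) (by simp [hy])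
  set s2 := (setv BX .zero).exec ((setv BD .zero).exec s1) with hs2
  have b2 : ∀ a, a ≠ BD → a ≠ BX → s2 a = s1 a := by
    intro a ha1 ha2
    rw [hs2, exec_setv, exec_setv, upd_of_ne _ _ _ ha2, upd_of_ne _ _ _ ha1]
  have env2 : Env G k x₁ x₂ r s2 :=
    ((h.exec _ (by decide)).exec _ (by decide)).exec _ (by decide)
  have hrow2 : IsRow G s2 RY y := by
    intro j; rw [b2 _ (by decide) (by decide)]; exact hrow j
  have hy2 : s2 Y 0 = y := by
    rw [b2 _ (by decide) (by decide), b1 _ (by decide) (by decide) (by decide), hy]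
  have hU2 : s2 USED = s USED := by
    rw [b2 _ (by decide) (by decide), b1 _ (by decide) (by decide) (by decide)]
  have hBD2 : s2 BD 0 = 0 := by
    rw [hs2, exec_setv, upd_of_ne _ _ _ (by decide), exec_setv, upd_self]; rfl
  have := for_rule (x := X) (e := V NN) (c := bestBody)
    (s := s2) n (by rw [eval_V, upd_of_ne _ _ _ (by decide), env2.nn]) (by decide)
    (fun j s' => ((s' BD 0 = 0 ∧ ∀ x : Fin n, (x : ℕ) < j → ¬ Cand G k r U y x) ∨
      ∃ xs : Fin n, Cand G k r U y xs ∧ s' BX 0 = xs ∧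
      s' BD 0 = G.degree xs + 1 ∧ ∀ x : Fin n, (x : ℕ) < j → Cand G k r U y x →
        G.degree x ≤ G.degree xs) ∧ (∀ a, a ≠ S → a ≠ T → a ≠ BD → a ≠ BX → a ≠ X → s' a = s2 a))
    (by
      refine ⟨Or.inl ⟨?_, fun x hx => by omega⟩, ?_⟩
      · rw [upd_of_ne _ _ _ (by decide), hBD2]
      · intro a _ _ _ _ ha
        rw [upd_of_ne _ _ _ ha])
    (by
      intro j hj s' hX ⟨h1, h2⟩
      have env' : Env G k x₁ x₂ r s' := env2.of_eq (by
        intro a ha
        refine h2 a ?_ ?_ ?_ ?_ ?_ <;> · rintro rfl; revert ha; decide)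
      obtain ⟨g1, g2⟩ := spec_bestBody (x := ⟨j, hj⟩) (y := y) (U := U) env' hX
        (by rw [h2 _ (by decide) (by decide) (by decide) (by decide) (by decide), hy2])
        (by
          intro i
          rw [h2 _ (by decide) (by decide) (by decide) (by decide) (by decide)]
          exact hrow2 i)
        (by
          intro v
          rw [h2 _ (by decide) (by decide) (by decide) (by decide) (by decide), hU2]
          exact hU v)
      refine ⟨?_, ?_⟩
      · rw [upd_of_ne _ _ _ (by decide), upd_of_ne _ _ _ (by decide)]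
        have hsplit : ∀ x : Fin n, (x : ℕ) < j + 1 → (x : ℕ) < j ∨ x = ⟨j, hj⟩ := by
          intro x hx
          rcases Nat.lt_succ_iff_lt_or_eq.1 hx with h3 | h3
          · exact Or.inl h3
          · exact Or.inr (Fin.ext h3)
        by_cases hc : Cand G k r U y ⟨j, hj⟩
        · rcases h1 with ⟨h3, h4⟩ | ⟨xs, h3, h4, h5, h6⟩
          · obtain ⟨g3, g4⟩ := g2 ⟨hc, by omega⟩
            right
            refine ⟨⟨j, hj⟩, hc, g4, g3, ?_⟩
            intro x hx hcx
            rcases hsplit x hx with hx' | hx'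
            · exact absurd hcx (h4 x hx')
            · rw [hx']
          · by_cases hd : s' BD 0 ≤ G.degree ⟨j, hj⟩
            · obtain ⟨g3, g4⟩ := g2 ⟨hc, hd⟩
              right
              refine ⟨⟨j, hj⟩, hc, g4, g3, ?_⟩
              intro x hx hcx
              rcases hsplit x hx with hx' | hx'
              · have := h6 x hx' hcx
                omega
              · rw [hx']
            · obtain ⟨g3, g4⟩ := g1 (Or.inr hd)
              right
              refine ⟨xs, h3, by rw [g4, h4], by rw [g3, h5], ?_⟩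
              intro x hx hcx
              rcases hsplit x hx with hx' | hx'
              · exact h6 x hx' hcx
              · rw [hx']
                omega
        · obtain ⟨g3, g4⟩ := g1 (Or.inl hc)
          rcases h1 with ⟨h3, h4⟩ | ⟨xs, h3, h4, h5, h6⟩
          · left
            refine ⟨by rw [g3, h3], ?_⟩
            intro x hx
            rcases hsplit x hx with hx' | hx'
            · exact h4 x hx'
            · rw [hx']; exact hc
          · right
            refine ⟨xs, h3, by rw [g4, h4], by rw [g3, h5], ?_⟩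
            intro x hx hcx
            rcases hsplit x hx with hx' | hx'
            · exact h6 x hx' hcx
            · rw [hx'] at hcx; exact absurd hcx hc
      · intro a ha1 ha2 ha3 ha4 ha5
        rw [upd_of_ne _ _ _ ha5, frame_bestBody _ _ ha1 ha2 ha3 ha4, h2 a ha1 ha2 ha3 ha4 ha5])
  rcases this.1 with ⟨h3, h4⟩ | ⟨xs, h3, h4, h5, h6⟩
  · exact Or.inl ⟨h3, fun x => h4 x x.2⟩
  · exact Or.inr ⟨xs, h3, h4, h5, fun x => h6 x x.2⟩

lemma frame_process (s : Store Nm) (a : Nm) (h1 : a ≠ S) (h2 : a ≠ T) (h3 : a ≠ BD)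
    (h4 : a ≠ BX) (h5 : a ≠ RY) (h6 : a ≠ P) (h7 : a ≠ J) (h8 : a ≠ X) (h9 : a ≠ OK)
    (h10 : a ≠ PAR) (h11 : a ≠ USED) :
    (process.exec s) a = s a := by
  apply Cmd.frame
  simp [process, findBest, loadRow, For, setv, incv, ifeq, iflt, ifle, Cmd.writes, h1, h2, h3, h4,
    h5, h6, h7, h8, h9, h10, h11]

lemma spec_process {s : Store Nm} (h : Env G k x₁ x₂ r s) {y : Fin n} (hy : s Y 0 = y)
    {U : Finset (Fin n)} (hU : ∀ v : Fin n, s USED v = if v ∈ U then 1 else 0) :
    ((∀ x, ¬ Cand G k r U y x) ∧ (process.exec s) OK 0 = 0 ∧ (process.exec s) PAR = s PAR ∧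
      (process.exec s) USED = s USED) ∨
    ∃ xs : Fin n, Cand G k r U y xs ∧ (∀ x, Cand G k r U y x → G.degree x ≤ G.degree xs) ∧
      (process.exec s) OK 0 = s OK 0 ∧
      (∀ v : ℕ, (process.exec s) PAR v = if v = y then (xs : ℕ) else s PAR v) ∧
      (∀ v : Fin n, (process.exec s) USED v = if v ∈ insert xs U then 1 else 0) := by
  unfold process
  rw [Cmd.exec_seq]
  set s1 := findBest.exec s with hs1
  have b1 : ∀ a, a ≠ S → a ≠ T → a ≠ BD → a ≠ BX → a ≠ RY → a ≠ P → a ≠ J → a ≠ X →
      s1 a = s a := fun a h1 h2 h3 h4 h5 h6 h7 h8 => frame_findBest s a h1 h2 h3 h4 h5 h6 h7 h8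
  have hOK : s1 OK = s OK := b1 _ (by decide) (by decide) (by decide) (by decide) (by decide)
    (by decide) (by decide) (by decide)
  have hPAR : s1 PAR = s PAR := b1 _ (by decide) (by decide) (by decide) (by decide) (by decide)
    (by decide) (by decide) (by decide)
  have hUSED : s1 USED = s USED := b1 _ (by decide) (by decide) (by decide) (by decide) (by decide)
    (by decide) (by decide) (by decide)
  have hY : s1 Y = s Y := b1 _ (by decide) (by decide) (by decide) (by decide) (by decide)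
    (by decide) (by decide) (by decide)
  rw [Cmd.exec_cmp]
  rcases spec_findBest h hy hU with ⟨h3, h4⟩ | ⟨xs, h3, h4, h5, h6⟩
  · left
    rw [← hs1] at h3
    rw [if_neg (by simp), if_pos (by simp [h3]), exec_setv]
    refine ⟨h4, by rw [upd_self]; rfl, ?_, ?_⟩
    · rw [upd_of_ne _ _ _ (by decide), hPAR]
    · rw [upd_of_ne _ _ _ (by decide), hUSED]
  · right
    rw [← hs1] at h4 h5
    rw [if_neg (by simp), if_neg (by simp [h5]), Cmd.exec_seq, Cmd.exec_set, Cmd.exec_set]
    simp only [eval_V, hY, hy, h4, one, Exp.eval_succ, Exp.eval_zero]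
    refine ⟨xs, h3, h6, ?_, ?_, ?_⟩
    · rw [upd_of_ne _ _ _ (by decide), upd_of_ne _ _ _ (by decide), hOK]
    · intro v
      rw [upd_of_ne _ _ _ (by decide), upd_same, hPAR]
    · intro v
      have e1 : (Alg.upd s1 PAR y xs) BX 0 = xs := by
        rw [upd_of_ne _ _ _ (by decide), h4]
      rw [e1, upd_same, upd_of_ne _ _ _ (by decide), hUSED, hU v]
      by_cases hv : (v : ℕ) = xs
      · have : v = xs := Fin.ext hv
        rw [if_pos hv, if_pos (by simp [this])]
      · have : v ≠ xs := fun h => hv (by rw [h])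
        rw [if_neg hv]
        simp [this]

end Pool.Agent.Lib.MP_fe081e_lc.Alg
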