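import Pool.Agent.Lib.MP_fe081e_lc.Alg.Spec5

/-!
Specification of the greedy matching.
-/

namespace Pool.Agent.Lib.MP_fe081e_lc.Alg

open Nm

variable {n : ℕ} {G : SimpleGraph (Fin n)} [DecidableRel G.Adj] {k x₁ x₂ : ℕ} {r : Fin n}

/-- the non-neighbours of the root that have to be matched -/
def Qs (G : SimpleGraph (Fin n)) [DecidableRel G.Adj] (r : Fin n) (x₁ : ℕ)
    (Ex : Finset (Fin n)) : Finset (Fin n) :=
  (nonNbr G r).filter (fun y => x₁ < n → Ws G r Ex y ≠ ∅)

lemma mem_Qs {Ex : Finset (Fin n)} {y : Fin n} :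
    y ∈ Qs G r x₁ Ex ↔ y ∈ nonNbr G r ∧ (x₁ < n → Ws G r Ex y ≠ ∅) := by
  simp [Qs]

lemma cval_of_mem {Ex : Finset (Fin n)} {y : Fin n} (hy : y ∈ Qs G r x₁ Ex) :
    cval G r x₁ Ex y = (Ws G r Ex y).card := by
  rw [mem_Qs] at hy
  unfold cval
  rw [if_pos hy.1, if_neg (fun h => hy.2 h.1 h.2)]

lemma card_Ws_lt {Ex : Finset (Fin n)} {y : Fin n} : (Ws G r Ex y).card < n := by
  have h1 : Ws G r Ex y ⊂ Finset.univ := by
    refine Finset.ssubset_univ_iff.2 ?_
    intro h
    have := Finset.mem_univ r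
    rw [← h, mem_Ws] at this
    exact G.loopless.irrefl _ this.1
  have := Finset.card_lt_card h1
  simpa using this

lemma mem_Qs_of_cval_lt {Ex : Finset (Fin n)} {y : Fin n} (hy : y ∈ nonNbr G r)
    (h : cval G r x₁ Ex y < n) : y ∈ Qs G r x₁ Ex := by
  rw [mem_Qs]
  refine ⟨hy, fun hx hW => ?_⟩
  unfold cval at h
  rw [if_pos hy, if_pos ⟨hx, hW⟩] at h
  omega

/-- the elements treated before position `(c, j)` -/
def DD (G : SimpleGraph (Fin n)) [DecidableRel G.Adj] (r : Fin n) (x₁ : ℕ)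
    (Ex : Finset (Fin n)) (c j : ℕ) : Finset (Fin n) :=
  (Qs G r x₁ Ex).filter (fun y => cval G r x₁ Ex y < c ∨ (cval G r x₁ Ex y = c ∧ (y : ℕ) < j))

lemma mem_DD {Ex : Finset (Fin n)} {c j : ℕ} {y : Fin n} : y ∈ DD G r x₁ Ex c j ↔
    y ∈ Qs G r x₁ Ex ∧ (cval G r x₁ Ex y < c ∨ (cval G r x₁ Ex y = c ∧ (y : ℕ) < j)) := by
  simp [DD]

/-- the invariant of the greedy matching -/
structure GInv (G : SimpleGraph (Fin n)) [DecidableRel G.Adj] (k x₁ x₂ : ℕ) (r : Fin n) (o : ℕ)
    (D : Finset (Fin n)) (s : Store Nm) : Prop where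
  env : Env G k x₁ x₂ r s
  cnt : ∀ v : Fin n, s CNT v = cval G r x₁ (exSet n x₁ x₂) v
  par : ∀ v : Fin n, v ∉ D → s PAR v = pval G r x₁ (exSet n x₁ x₂) v
  ok : s OK 0 = 1 → o = 1
  used : ∃ U : Finset (Fin n), (∀ v : Fin n, s USED v = if v ∈ U then 1 else 0) ∧
    exSet n x₁ x₂ ⊆ U ∧
    (s OK 0 = 1 → ∃ g : Fin n → Fin n,
      (∀ y ∈ D, s PAR y = g y ∧ Elig G k r (exSet n x₁ x₂) y (g y) ∧ g y ∈ U) ∧
      (∀ a ∈ D, ∀ b ∈ D, g a = g b → a = b)) ∧
    (o = 1 ∧ Compl G k r (exSet n x₁ x₂) (Qs G r x₁ (exSet n x₁ x₂)) ∅ →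
      s OK 0 = 1 ∧ Compl G k r (exSet n x₁ x₂) (Qs G r x₁ (exSet n x₁ x₂) \ D) U)

lemma GInv.of_eq {o : ℕ} {D : Finset (Fin n)} {s s' : Store Nm} (h : GInv G k x₁ x₂ r o D s)
    (henv : Env G k x₁ x₂ r s') (h1 : s' CNT = s CNT) (h2 : s' PAR = s PAR) (h3 : s' OK = s OK)
    (h4 : s' USED = s USED) : GInv G k x₁ x₂ r o D s' := by
  obtain ⟨q1, q2, q3, q4, q5⟩ := h
  exact ⟨henv, by rw [h1]; exact q2, by rw [h2]; exact q3, by rw [h3]; exact q4,
    by rw [h2, h3, h4]; exact q5⟩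

lemma GInv.upd {o : ℕ} {D : Finset (Fin n)} {s : Store Nm} (h : GInv G k x₁ x₂ r o D s)
    {a : Nm} (i v : ℕ) (h0 : ¬ IsEnvArr a) (h1 : CNT ≠ a) (h2 : PAR ≠ a) (h3 : OK ≠ a)
    (h4 : USED ≠ a) : GInv G k x₁ x₂ r o D (upd s a i v) :=
  h.of_eq (h.env.upd _ _ h0) (upd_of_ne _ _ _ h1) (upd_of_ne _ _ _ h2) (upd_of_ne _ _ _ h3)
    (upd_of_ne _ _ _ h4)

lemma GInv.process (hP : P4Free G) {o : ℕ} {D : Finset (Fin n)} {s : Store Nm}
    (h : GInv G k x₁ x₂ r o D s) {y : Fin n} (hy : s Y 0 = y)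
    (hyQ : y ∈ Qs G r x₁ (exSet n x₁ x₂)) (hyD : y ∉ D)
    (hmin : ∀ y' ∈ Qs G r x₁ (exSet n x₁ x₂) \ D,
      (Ws G r (exSet n x₁ x₂) y).card ≤ (Ws G r (exSet n x₁ x₂) y').card) :
    GInv G k x₁ x₂ r o (insert y D) (process.exec s) := by
  obtain ⟨U, hU1, hU2, hU3, hU4⟩ := h.used
  set Ex := exSet n x₁ x₂ with hEx
  have henv : Env G k x₁ x₂ r (Alg.process.exec s) := h.env.exec _ (by decide)
  have hcnt : (Alg.process.exec s) CNT = s CNT :=
    frame_process _ _ (by decide) (by decide) (by decide) (by decide) (by decide) (by decide)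
      (by decide) (by decide) (by decide) (by decide) (by decide)
  have hyR : y ∈ Qs G r x₁ Ex \ D := Finset.mem_sdiff.2 ⟨hyQ, hyD⟩
  rcases spec_process h.env hy hU1 with ⟨q1, q2, q3, q4⟩ | ⟨xs, q1, q2, q3, q4, q5⟩
  · refine ⟨henv, ?_, ?_, ?_, U, ?_, hU2, ?_, ?_⟩
    · intro v; rw [hcnt]; exact h.cnt v
    · intro v hv; rw [q3]; exact h.par v (fun h' => hv (Finset.mem_insert_of_mem h'))
    · intro h1; rw [q2] at h1; omega
    · intro v; rw [q4]; exact hU1 v
    · intro h1; rw [q2] at h1; omega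
    · intro h1
      exfalso
      refine greedy_fail hyR ?_ (hU4 h1).2
      intro x hx
      by_contra hxU
      exact q1 x ⟨hx.1, hx.2.2.1, hxU, hx.2.2.2⟩
  · refine ⟨henv, ?_, ?_, ?_, insert xs U, q5, ?_, ?_, ?_⟩
    · intro v; rw [hcnt]; exact h.cnt v
    · intro v hv
      rw [Finset.mem_insert, not_or] at hv
      rw [q4, if_neg (fun h => hv.1 (Fin.ext h))]
      exact h.par v hv.2
    · intro h1; rw [q3] at h1; exact h.ok h1
    · exact fun v hv => Finset.mem_insert_of_mem (hU2 hv)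
    · intro h1
      rw [q3] at h1
      obtain ⟨g, hg1, hg2⟩ := hU3 h1
      have hxsE : Elig G k r Ex y xs :=
        ⟨q1.1, fun h => q1.2.2.1 (hU2 h), q1.2.1, q1.2.2.2⟩
      refine ⟨fun v => if v = y then xs else g v, ?_, ?_⟩
      · intro v hv
        rw [q4]
        by_cases hvy : v = y
        · subst hvy
          simp only [if_true]
          exact ⟨trivial, hxsE, Finset.mem_insert_self _ _⟩
        · have hvD : v ∈ D := by
            rcases Finset.mem_insert.1 hv with h | h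
            · exact absurd h hvy
            · exact h
          obtain ⟨g1, g2, g3⟩ := hg1 v hvD
          simp only [if_neg hvy, if_neg (show (v : ℕ) ≠ y from fun h => hvy (Fin.ext h))]
          exact ⟨g1, g2, Finset.mem_insert_of_mem g3⟩
      · intro a ha b hb hab
        by_cases hay : a = y <;> by_cases hby : b = y
        · rw [hay, hby]
        · simp only [if_pos hay, if_neg hby] at hab
          have hbD : b ∈ D := by
            rcases Finset.mem_insert.1 hb with h | h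
            · exact absurd h hby
            · exact h
          exact absurd (hab ▸ (hg1 b hbD).2.2) q1.2.2.1
        · simp only [if_neg hay, if_pos hby] at hab
          have haD : a ∈ D := by
            rcases Finset.mem_insert.1 ha with h | h
            · exact absurd h hay
            · exact h
          exact absurd (hab ▸ (hg1 a haD).2.2) q1.2.2.1
        · simp only [if_neg hay, if_neg hby] at hab
          have haD : a ∈ D := by
            rcases Finset.mem_insert.1 ha with h | h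
            · exact absurd h hay
            · exact h
          have hbD : b ∈ D := by
            rcases Finset.mem_insert.1 hb with h | h
            · exact absurd h hby
            · exact h
          exact hg2 a haD b hbD hab
    · intro h1
      obtain ⟨h2, h3⟩ := hU4 h1
      rw [q3]
      refine ⟨h2, ?_⟩
      have h4 : Qs G r x₁ Ex \ insert y D = (Qs G r x₁ Ex \ D).erase y := by
        ext v
        simp only [Finset.mem_sdiff, Finset.mem_insert, Finset.mem_erase]
        tauto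
      rw [h4]
      refine greedy_step hyR ?_ ?_ h3
      · intro x hx hxU
        exact q2 x ⟨hx.1, hx.2.2.1, hxU, hx.2.2.2⟩
      · intro y' hy'
        refine Ws_subset hP (mem_Qs.1 hyQ).1 ?_ (hmin y' hy')
        exact (mem_Qs.1 (Finset.mem_sdiff.1 hy').1).1

/-- the body of the greedy loops -/
def greedyBody : Cmd Nm :=
  ifne (V Y) (V R) (ifeq (.get RR (V Y)) .zero (ifeq (.get CNT (V Y)) (V C) process))

lemma frame_greedyBody (s : Store Nm) (a : Nm) (h1 : a ≠ S) (h2 : a ≠ T) (h3 : a ≠ BD)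
    (h4 : a ≠ BX) (h5 : a ≠ RY) (h6 : a ≠ P) (h7 : a ≠ J) (h8 : a ≠ X) (h9 : a ≠ OK)
    (h10 : a ≠ PAR) (h11 : a ≠ USED) :
    (greedyBody.exec s) a = s a := by
  apply Cmd.frame
  simp [greedyBody, process, findBest, loadRow, For, setv, incv, ifeq, ifne, iflt, ifle,
    Cmd.writes, h1, h2, h3, h4, h5, h6, h7, h8, h9, h10, h11]

lemma spec_greedyBody (hP : P4Free G) {o : ℕ} {s : Store Nm} {c j : ℕ} (hc : c < n) (hj : j < n)
    (h : GInv G k x₁ x₂ r o (DD G r x₁ (exSet n x₁ x₂) c j) s) (hy : s Y 0 = j) (hC : s C 0 = c) :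
    GInv G k x₁ x₂ r o (DD G r x₁ (exSet n x₁ x₂) c (j + 1)) (greedyBody.exec s) := by
  set Ex := exSet n x₁ x₂ with hEx
  have hrr := h.env.rr ⟨j, hj⟩
  have hcnt := h.cnt ⟨j, hj⟩
  simp only at hrr hcnt
  rw [← hEx] at hcnt
  have hskip : ¬ ((⟨j, hj⟩ : Fin n) ∈ Qs G r x₁ Ex ∧ cval G r x₁ Ex ⟨j, hj⟩ = c) →
      DD G r x₁ Ex c (j + 1) = DD G r x₁ Ex c j := by
    intro hn
    ext v
    rw [mem_DD, mem_DD]
    constructor
    · rintro ⟨h1, h2 | h2⟩
      · exact ⟨h1, Or.inl h2⟩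
      · refine ⟨h1, Or.inr ⟨h2.1, ?_⟩⟩
        rcases Nat.lt_succ_iff_lt_or_eq.1 h2.2 with h3 | h3
        · exact h3
        · exfalso
          apply hn
          have : v = ⟨j, hj⟩ := Fin.ext h3
          rw [← this]
          exact ⟨h1, h2.1⟩
    · rintro ⟨h1, h2 | h2⟩
      · exact ⟨h1, Or.inl h2⟩
      · exact ⟨h1, Or.inr ⟨h2.1, by omega⟩⟩
  unfold greedyBody
  by_cases c1 : (⟨j, hj⟩ : Fin n) = r
  · rw [ifne_neg (by simp [hy, h.env.vr, ← c1]), hskip]
    · exact h
    · rintro ⟨h1, _⟩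
      rw [mem_Qs, mem_nonNbr] at h1
      exact h1.1.1 c1
  · have c1' : j ≠ (r : ℕ) := fun h => c1 (Fin.ext h)
    rw [ifne_pos (by simpa [hy, h.env.vr] using c1')]
    by_cases c2 : G.Adj r ⟨j, hj⟩
    · rw [ifeq_neg (by simp [hy, hrr, c2]), hskip]
      · exact h
      · rintro ⟨h1, _⟩
        rw [mem_Qs, mem_nonNbr] at h1
        exact h1.1.2 c2
    · rw [ifeq_pos (by simp [hy, hrr, c2])]
      have hm : (⟨j, hj⟩ : Fin n) ∈ nonNbr G r := by
        rw [mem_nonNbr]; exact ⟨c1, c2⟩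
      by_cases c3 : cval G r x₁ Ex ⟨j, hj⟩ = c
      · rw [ifeq_pos (by simp [hy, hcnt, hC, c3])]
        have hyQ : (⟨j, hj⟩ : Fin n) ∈ Qs G r x₁ Ex := mem_Qs_of_cval_lt hm (by rw [c3]; exact hc)
        have hins : DD G r x₁ Ex c (j + 1) = insert ⟨j, hj⟩ (DD G r x₁ Ex c j) := by
          ext v
          rw [Finset.mem_insert, mem_DD, mem_DD]
          constructor
          · rintro ⟨h1, h2 | h2⟩
            · exact Or.inr ⟨h1, Or.inl h2⟩
            · rcases Nat.lt_succ_iff_lt_or_eq.1 h2.2 with h3 | h3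
              · exact Or.inr ⟨h1, Or.inr ⟨h2.1, h3⟩⟩
              · exact Or.inl (Fin.ext h3)
          · rintro (rfl | ⟨h1, h2 | h2⟩)
            · exact ⟨hyQ, Or.inr ⟨c3, Nat.lt_succ_self _⟩⟩
            · exact ⟨h1, Or.inl h2⟩
            · exact ⟨h1, Or.inr ⟨h2.1, by omega⟩⟩
        rw [hins]
        refine h.process hP hy hyQ ?_ ?_
        · rw [mem_DD]
          rintro ⟨_, h1 | h1⟩
          · omega
          · exact absurd h1.2 (lt_irrefl _)
        · intro y' hy'
          rw [← hEx] at hy' ⊢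
          rw [Finset.mem_sdiff, mem_DD, not_and, not_or] at hy'
          obtain ⟨h1, h2⟩ := hy'
          have h3 := (h2 h1).1
          rw [← cval_of_mem h1, ← cval_of_mem hyQ, c3]
          omega
      · rw [ifeq_neg (by simpa [hy, hcnt, hC] using c3), hskip (fun h' => c3 h'.2)]
        exact h

lemma spec_greedy (hP : P4Free G) {o : ℕ} {s : Store Nm}
    (h : GInv G k x₁ x₂ r o ∅ s) :
    GInv G k x₁ x₂ r o (Qs G r x₁ (exSet n x₁ x₂)) (greedy.exec s) := by
  set Ex := exSet n x₁ x₂ with hEx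
  have h00 : DD G r x₁ Ex 0 0 = ∅ := by
    ext v
    rw [mem_DD]
    simp
  have hstep : ∀ c, DD G r x₁ Ex c n = DD G r x₁ Ex (c + 1) 0 := by
    intro c
    ext v
    rw [mem_DD, mem_DD]
    constructor
    · rintro ⟨h1, h2 | h2⟩
      · exact ⟨h1, Or.inl (by omega)⟩
      · exact ⟨h1, Or.inl (by omega)⟩
    · rintro ⟨h1, h2 | h2⟩
      · refine ⟨h1, ?_⟩
        rcases Nat.lt_succ_iff_lt_or_eq.1 h2 with h3 | h3
        · exact Or.inl h3
        · exact Or.inr ⟨h3, v.2⟩
      · omega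
  have hend : DD G r x₁ Ex n 0 = Qs G r x₁ Ex := by
    ext v
    rw [mem_DD]
    constructor
    · exact fun h => h.1
    · intro h1
      refine ⟨h1, Or.inl ?_⟩
      rw [cval_of_mem h1]
      exact card_Ws_lt
  unfold greedy
  have := for_rule (x := C) (e := V NN) (c := For Y (V NN) greedyBody)
    (s := s) n (by rw [eval_V, upd_of_ne _ _ _ (by decide), h.env.nn]) (by decide)
    (fun c s' => GInv G k x₁ x₂ r o (DD G r x₁ Ex c 0) s')
    (by
      rw [h00]
      exact h.upd _ _ (by decide) (by decide) (by decide) (by decide) (by decide))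
    (by
      intro c hc s' hC hG
      have := for_rule (x := Y) (e := V NN) (c := greedyBody)
        (s := s') n (by rw [eval_V, upd_of_ne _ _ _ (by decide), hG.env.nn]) (by decide)
        (fun j s'' => GInv G k x₁ x₂ r o (DD G r x₁ Ex c j) s'' ∧ s'' C 0 = c)
        (by
          refine ⟨hG.upd _ _ (by decide) (by decide) (by decide) (by decide) (by decide), ?_⟩
          rw [upd_of_ne _ _ _ (by decide), hC])
        (by
          intro j hj s'' hY ⟨h1, h2⟩
          refine ⟨(spec_greedyBody hP hc hj h1 hY h2).upd _ _ (by decide) (by decide)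
            (by decide) (by decide) (by decide), ?_⟩
          rw [upd_of_ne _ _ _ (by decide), frame_greedyBody _ _ (by decide) (by decide)
            (by decide) (by decide) (by decide) (by decide) (by decide) (by decide) (by decide)
            (by decide) (by decide), h2])
      rw [← hstep]
      exact this.1.upd _ _ (by decide) (by decide) (by decide) (by decide) (by decide))
  rw [hend] at this
  exact this

end Pool.Agent.Lib.MP_fe081e_lc.Alg
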