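import Pool.Agent.Lib.MP_fe081e_lc.Alg.Spec6

/-!
Specification of one attempt and of the search.
-/

namespace Pool.Agent.Lib.MP_fe081e_lc.Alg

open Nm

variable {n : ℕ} {G : SimpleGraph (Fin n)} [DecidableRel G.Adj] {k x₁ x₂ : ℕ} {r : Fin n}

/-- the parent function defines a spanning tree of congestion at most `k` -/
def Valid (G : SimpleGraph (Fin n)) (k : ℕ) (par : Fin n → Fin n) : Prop :=
  parentGraph par ≤ G ∧ (parentGraph par).IsTree ∧
    ∀ e ∈ (parentGraph par).edgeSet, edgeCongestion G (parentGraph par) e ≤ k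

/-- the attempt has to succeed -/
def AttemptOK (G : SimpleGraph (Fin n)) [DecidableRel G.Adj] (k x₁ x₂ : ℕ) (r : Fin n) : Prop :=
  (∀ z, z ≠ r → G.degree z ≤ k) ∧ SpecOK G k x₁ x₂ r ∧
    Compl G k r (exSet n x₁ x₂) (Qs G r x₁ (exSet n x₁ x₂)) ∅

/-- soundness of the final parents -/
lemma valid_of_ginv (hP : P4Free G) {o : ℕ} {s : Store Nm}
    (hdeg : ∀ z, z ≠ r → G.degree z ≤ k) (hS : SpecOK G k x₁ x₂ r)
    (h : GInv G k x₁ x₂ r o (Qs G r x₁ (exSet n x₁ x₂)) s) (hok : s OK 0 = 1) :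
    ∃ par : Fin n → Fin n, (∀ v : Fin n, s PAR v = par v) ∧ Valid G k par := by
  classical
  obtain ⟨U, _, _, hU3, _⟩ := h.used
  obtain ⟨g, hg1, hg2⟩ := hU3 hok
  set Ex := exSet n x₁ x₂ with hEx
  let par : Fin n → Fin n := fun v => if v ∈ Qs G r x₁ Ex then g v else
    if h : v ∈ nonNbr G r ∧ x₁ < n ∧ Ws G r Ex v = ∅ then ⟨x₁, h.2.1⟩ else r
  have hpar : ∀ v : Fin n, s PAR v = par v := by
    intro v
    by_cases hv : v ∈ Qs G r x₁ Ex
    · simp only [par, if_pos hv]
      exact (hg1 v hv).1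
    · simp only [par, if_neg hv]
      rw [h.par v hv, ← hEx]
      unfold pval
      split_ifs <;> rfl
  refine ⟨par, hpar, ?_⟩
  by_cases hx : x₁ < n
  · obtain ⟨hx2, hSp⟩ := hS hx
    have hE : Ex = {⟨x₁, hx⟩, ⟨x₂, hx2⟩} := exSet_of_lt hx hx2
    refine special_sound hP hdeg hSp ?_ ?_ ?_ ?_
    · intro v hv
      have h1 : v ∉ Qs G r x₁ Ex := fun h => hv (mem_Qs.1 h).1
      simp only [par, if_neg h1]
      rw [dif_neg (fun h => hv h.1)]
    · intro y hy hW
      rw [← hE] at hW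
      have h1 : y ∉ Qs G r x₁ Ex := fun h => (mem_Qs.1 h).2 hx hW
      simp only [par, if_neg h1]
      rw [dif_pos ⟨hy, hx, hW⟩]
    · intro y hy hW
      rw [← hE] at hW ⊢
      have h1 : y ∈ Qs G r x₁ Ex := mem_Qs.2 ⟨hy, fun _ => hW⟩
      simp only [par, if_pos h1]
      exact (hg1 y h1).2.1
    · intro a ha hWa b hb hWb hab
      rw [← hE] at hWa hWb
      have h1 : a ∈ Qs G r x₁ Ex := mem_Qs.2 ⟨ha, fun _ => hWa⟩
      have h2 : b ∈ Qs G r x₁ Ex := mem_Qs.2 ⟨hb, fun _ => hWb⟩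
      simp only [par, if_pos h1, if_pos h2] at hab
      exact hg2 a h1 b h2 hab
  · have hE : Ex = ∅ := exSet_of_not hx
    have hQ : ∀ y, y ∈ nonNbr G r → y ∈ Qs G r x₁ Ex :=
      fun y hy => mem_Qs.2 ⟨hy, fun h => absurd h hx⟩
    refine normal_sound hdeg ?_ ?_ ?_
    · intro v hv
      have h1 : v ∉ Qs G r x₁ Ex := fun h => hv (mem_Qs.1 h).1
      simp only [par, if_neg h1]
      rw [dif_neg (fun h => hv h.1)]
    · intro y hy
      have h1 := hQ y hy
      simp only [par, if_pos h1]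
      have := (hg1 y h1).2.1
      rw [hE] at this
      exact this
    · intro a ha b hb hab
      have h1 := hQ a ha
      have h2 := hQ b hb
      simp only [par, if_pos h1, if_pos h2] at hab
      exact hg2 a h1 b h2 hab

/-! ### record -/

lemma spec_copy {s : Store Nm} (hn : s NN 0 = n) :
    ∀ v : Fin n, ((For T (V NN) (.set RES (V T) (.get PAR (V T)))).exec s) RES v = s PAR v := by
  have := for_rule (x := T) (e := V NN) (c := .set RES (V T) (.get PAR (V T)))
    (s := s) n (by rw [eval_V, upd_of_ne _ _ _ (by decide), hn]) (by decide)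
    (fun j s' => (∀ v : Fin n, (v : ℕ) < j → s' RES v = s PAR v) ∧ s' PAR = s PAR)
    (by
      refine ⟨fun v hv => by omega, ?_⟩
      rw [upd_of_ne _ _ _ (by decide)])
    (by
      intro j hj s' hT ⟨h1, h2⟩
      refine ⟨?_, ?_⟩
      · intro v hv
        rw [upd_of_ne _ _ _ (by decide), Cmd.exec_set]
        simp only [eval_V, Exp.eval_get, hT, h2]
        rw [upd_same]
        by_cases hvj : (v : ℕ) = j
        · rw [if_pos hvj, hvj]
        · rw [if_neg hvj]
          exact h1 v (by omega)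
      · rw [upd_of_ne _ _ _ (by decide), Cmd.exec_set, upd_of_ne _ _ _ (by decide), h2])
  intro v
  exact this.1 v v.2

lemma spec_record {s : Store Nm} (hn : s NN 0 = n) :
    (s OK 0 = 1 → s FOUND 0 = 0 → (record.exec s) FOUND 0 = 1 ∧
      ∀ v : Fin n, (record.exec s) RES v = s PAR v) ∧
    ((s OK 0 ≠ 1 ∨ s FOUND 0 ≠ 0) → record.exec s = s) := by
  unfold record
  refine ⟨fun h1 h2 => ?_, fun h => ?_⟩
  · rw [ifeq_pos (by simp [one, h1]), ifeq_pos (by simp [h2]), Cmd.exec_seq]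
    set s1 := (setv FOUND one).exec s with hs1
    have e1 : s1 NN 0 = n := by rw [hs1, exec_setv, upd_of_ne _ _ _ (by decide), hn]
    refine ⟨?_, ?_⟩
    · rw [Cmd.frame _ (by decide), hs1, exec_setv, upd_self]; rfl
    · intro v
      rw [spec_copy e1 v, hs1, exec_setv, upd_of_ne _ _ _ (by decide)]
  · by_cases h1 : s OK 0 = 1
    · rw [ifeq_pos (by simp [one, h1])]
      rcases h with h | h
      · exact absurd h1 h
      · rw [ifeq_neg (by simpa using h)]
    · rw [ifeq_neg (by simpa [one] using h1)]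

/-! ### one attempt -/

lemma spec_attempt (hP : P4Free G) {s : Store Nm} (h : Ctx G s) (hk : s KK 0 = k)
    (hx1 : s X1 0 = x₁) (hx2 : s X2 0 = x₂) (hr : s R 0 = r) :
    (s FOUND 0 ≠ 0 → (attempt.exec s) FOUND 0 = s FOUND 0 ∧ (attempt.exec s) RES = s RES) ∧
    (s FOUND 0 = 0 → ((attempt.exec s) FOUND 0 = 0 ∧ ¬ AttemptOK G k x₁ x₂ r) ∨
      ((attempt.exec s) FOUND 0 = 1 ∧ ∃ par : Fin n → Fin n,
        (∀ v : Fin n, (attempt.exec s) RES v = par v) ∧ Valid G k par)) := by
  classical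
  unfold attempt
  rw [Cmd.exec_seq, Cmd.exec_seq, Cmd.exec_seq, Cmd.exec_seq, Cmd.exec_seq, Cmd.exec_seq]
  -- step 1
  set s1 := (setv OK one).exec s with hs1
  have ctx1 : Ctx G s1 := h.exec _ (by decide) (by decide) (by decide) (by decide) (by decide)
  have f1 : ∀ a, a ≠ OK → s1 a = s a := fun a ha => by
    rw [hs1, exec_setv, upd_of_ne _ _ _ ha]
  have ok1 : s1 OK 0 = 1 := by rw [hs1, exec_setv, upd_self]; rfl
  -- step 2
  set s2 := checkDeg.exec s1 with hs2
  obtain ⟨ok2, f2⟩ := spec_checkDeg ctx1 (r := r) (by rw [f1 _ (by decide), hr])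
  rw [← hs2, ok1, f1 KK (by decide), hk] at ok2
  rw [← hs2] at f2
  have ctx2 : Ctx G s2 := ctx1.exec _ (by decide) (by decide) (by decide) (by decide) (by decide)
  have g2 : ∀ a, a ≠ OK → a ≠ T → s2 a = s a := fun a h1 h2 => by rw [f2 a h1 h2, f1 a h1]
  -- step 3
  set s3 := checkSpecial.exec s2 with hs3
  have sp3 := spec_checkSpecial ctx2 (r := r) (by rw [g2 _ (by decide) (by decide), hr])
  rw [g2 KK (by decide) (by decide), g2 X1 (by decide) (by decide), g2 X2 (by decide) (by decide),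
    hk, hx1, hx2, ← hs3] at sp3
  have f3 : ∀ a, a ≠ OK → a ≠ T → a ≠ RY → a ≠ P → a ≠ J → s3 a = s a := by
    intro a h1 h2 h3 h4 h5
    rw [hs3, frame_checkSpecial _ _ h1 h3 h4 h5, g2 a h1 h2]
  have ctx3 : Ctx G s3 := ctx2.exec _ (by decide) (by decide) (by decide) (by decide) (by decide)
  have ok3 : s3 OK 0 = 1 → (∀ z, z ≠ r → G.degree z ≤ k) ∧ SpecOK G k x₁ x₂ r := by
    intro h1
    by_cases hS : SpecOK G k x₁ x₂ r
    · rw [sp3.2 hS, ok2] at h1
      by_cases hd : ∀ z, z ≠ r → G.degree z ≤ k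
      · exact ⟨hd, hS⟩
      · rw [if_neg hd] at h1; omega
    · rw [sp3.1 hS] at h1; omega
  have ok3' : (∀ z, z ≠ r → G.degree z ≤ k) ∧ SpecOK G k x₁ x₂ r → s3 OK 0 = 1 := by
    rintro ⟨hd, hS⟩
    rw [sp3.2 hS, ok2, if_pos hd]
  -- step 4
  set s4 := initArrays.exec s3 with hs4
  obtain ⟨row4, used4, par4⟩ := spec_initArrays ctx3 (r := r)
    (by rw [f3 _ (by decide) (by decide) (by decide) (by decide) (by decide), hr])
  rw [← hs4, f3 X1 (by decide) (by decide) (by decide) (by decide) (by decide), hx1,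
    f3 X2 (by decide) (by decide) (by decide) (by decide) (by decide), hx2] at used4
  rw [← hs4] at row4 par4
  have f4 : ∀ a, a ≠ RR → a ≠ P → a ≠ J → a ≠ T → a ≠ USED → a ≠ PAR → s4 a = s3 a :=
    fun a h1 h2 h3 h4 h5 h6 => frame_initArrays s3 a h1 h2 h3 h4 h5 h6
  have ctx4 : Ctx G s4 := ctx3.exec _ (by decide) (by decide) (by decide) (by decide) (by decide)
  have g4 : ∀ a, a ≠ OK → a ≠ T → a ≠ RY → a ≠ P → a ≠ J → a ≠ RR → a ≠ USED → a ≠ PAR →
      s4 a = s a := by
    intro a h1 h2 h3 h4 h5 h6 h7 h8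
    rw [f4 a h6 h4 h5 h2 h7 h8, f3 a h1 h2 h3 h4 h5]
  have env4 : Env G k x₁ x₂ r s4 := by
    refine ⟨ctx4, ?_, ?_, ?_, ?_, row4⟩
    · rw [g4 _ (by decide) (by decide) (by decide) (by decide) (by decide) (by decide) (by decide)
        (by decide), hk]
    · rw [g4 _ (by decide) (by decide) (by decide) (by decide) (by decide) (by decide) (by decide)
        (by decide), hx1]
    · rw [g4 _ (by decide) (by decide) (by decide) (by decide) (by decide) (by decide) (by decide)
        (by decide), hx2]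
    · rw [g4 _ (by decide) (by decide) (by decide) (by decide) (by decide) (by decide) (by decide)
        (by decide), hr]
  -- step 5
  set s5 := counts.exec s4 with hs5
  have sp5 := spec_counts env4 used4 par4
  rw [← hs5] at sp5
  have f5 : ∀ a, a ≠ Y → a ≠ CNT → a ≠ RY → a ≠ P → a ≠ J → a ≠ X → a ≠ PAR → s5 a = s4 a :=
    fun a h1 h2 h3 h4 h5 h6 h7 => frame_counts s4 a h1 h2 h3 h4 h5 h6 h7
  have env5 : Env G k x₁ x₂ r s5 := env4.exec _ (by decide)
  have ok5 : s5 OK 0 = s3 OK 0 := by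
    rw [f5 _ (by decide) (by decide) (by decide) (by decide) (by decide) (by decide) (by decide),
      f4 _ (by decide) (by decide) (by decide) (by decide) (by decide) (by decide)]
  have ginv5 : GInv G k x₁ x₂ r (s3 OK 0) ∅ s5 := by
    refine ⟨env5, fun v => (sp5 v).1, fun v _ => (sp5 v).2, fun h1 => by rw [← ok5]; exact h1,
      exSet n x₁ x₂, ?_, Finset.Subset.refl _, ?_, ?_⟩
    · intro v
      rw [f5 _ (by decide) (by decide) (by decide) (by decide) (by decide) (by decide)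
        (by decide)]
      exact used4 v
    · intro _
      exact ⟨fun v => v, by simp, by simp⟩
    · rintro ⟨h1, f, h2, h3⟩
      refine ⟨by rw [ok5]; exact h1, f, ?_, ?_⟩
      · intro y hy
        rw [Finset.sdiff_empty] at hy
        exact ⟨(h2 y hy).1, (h2 y hy).1.2.1⟩
      · intro a ha b hb
        rw [Finset.sdiff_empty] at ha hb
        exact h3 a ha b hb
  -- step 6
  set s6 := greedy.exec s5 with hs6
  have ginv6 := spec_greedy hP ginv5
  rw [← hs6] at ginv6
  have hn6 : s6 NN 0 = n := ginv6.env.nn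
  have hF6 : s6 FOUND = s FOUND := by
    rw [hs6, Cmd.frame _ (by decide), f5 _ (by decide) (by decide) (by decide) (by decide)
      (by decide) (by decide) (by decide), g4 _ (by decide) (by decide) (by decide) (by decide)
      (by decide) (by decide) (by decide) (by decide)]
  have hR6 : s6 RES = s RES := by
    rw [hs6, Cmd.frame _ (by decide), f5 _ (by decide) (by decide) (by decide) (by decide)
      (by decide) (by decide) (by decide), g4 _ (by decide) (by decide) (by decide) (by decide)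
      (by decide) (by decide) (by decide) (by decide)]
  -- step 7
  obtain ⟨rec1, rec2⟩ := spec_record (n := n) hn6
  refine ⟨?_, ?_⟩
  · intro h1
    rw [rec2 (Or.inr (by rw [hF6]; exact h1)), hF6, hR6]
    exact ⟨rfl, rfl⟩
  · intro h1
    by_cases hok : s6 OK 0 = 1
    · right
      obtain ⟨q1, q2⟩ := rec1 hok (by rw [hF6]; exact h1)
      obtain ⟨q3, q4⟩ := ok3 (ginv6.ok hok)
      obtain ⟨par, q5, q6⟩ := valid_of_ginv hP q3 q4 ginv6 hok
      exact ⟨q1, par, fun v => by rw [q2 v, q5 v], q6⟩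
    · left
      rw [rec2 (Or.inl hok), hF6]
      refine ⟨h1, ?_⟩
      rintro ⟨q1, q2, q3⟩
      obtain ⟨U, _, _, _, hU4⟩ := ginv6.used
      exact hok (hU4 ⟨ok3' ⟨q1, q2⟩, q3⟩).1

end Pool.Agent.Lib.MP_fe081e_lc.Alg
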