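import Pool.Agent.Lib.MP_fe081e_lc.Alg.Spec7

/-!
Specification of the search and the output.
-/

namespace Pool.Agent.Lib.MP_fe081e_lc.Alg

open Nm

variable {n : ℕ} {G : SimpleGraph (Fin n)} [DecidableRel G.Adj] {k x₁ x₂ : ℕ} {r : Fin n}

/-- no attempt for `k` has to succeed -/
def NoCert (G : SimpleGraph (Fin n)) [DecidableRel G.Adj] (k : ℕ) : Prop :=
  ∀ x₁ x₂ : ℕ, x₁ ≤ n → x₂ ≤ n → ∀ r : Fin n, ¬ AttemptOK G k x₁ x₂ r

/-- the invariant of the search -/
def SInv (G : SimpleGraph (Fin n)) [DecidableRel G.Adj] (k : ℕ) (Q : Prop) (s : Store Nm) : Prop :=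
  Ctx G s ∧ ((s FOUND 0 = 0 ∧ (∀ k' < k, NoCert G k') ∧ Q) ∨
    (s FOUND 0 = 1 ∧ ∃ (k₀ : ℕ) (par : Fin n → Fin n), (∀ v : Fin n, s RES v = par v) ∧
      Valid G k₀ par ∧ ∀ k' < k₀, NoCert G k'))

lemma SInv.upd {Q : Prop} {s : Store Nm} (h : SInv G k Q s) {a : Nm} (i v : ℕ) (h1 : NN ≠ a)
    (h2 : MM ≠ a) (h3 : ADJ ≠ a) (h4 : RB ≠ a) (h5 : DEG ≠ a) (h6 : FOUND ≠ a) (h7 : RES ≠ a) :
    SInv G k Q (upd s a i v) := by
  obtain ⟨q1, q2⟩ := h
  refine ⟨q1.upd _ _ h1 h2 h3 h4 h5, ?_⟩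
  rw [upd_of_ne _ _ _ h6, upd_of_ne _ _ _ h7]
  exact q2

lemma SInv.mono {Q Q' : Prop} {s : Store Nm} (h : SInv G k Q s) (hQ : Q → Q') :
    SInv G k Q' s := by
  obtain ⟨q1, ⟨q2, q3, q4⟩ | q2⟩ := h
  · exact ⟨q1, Or.inl ⟨q2, q3, hQ q4⟩⟩
  · exact ⟨q1, Or.inr q2⟩

lemma SInv.attempt (hP : P4Free G) {Q : Prop} {s : Store Nm} (h : SInv G k Q s) (hk : s KK 0 = k)
    (hx1 : s X1 0 = x₁) (hx2 : s X2 0 = x₂) (hr : s R 0 = r) :
    SInv G k (Q ∧ ¬ AttemptOK G k x₁ x₂ r) (attempt.exec s) := by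
  obtain ⟨h1, h2⟩ := h
  obtain ⟨g1, g2⟩ := spec_attempt hP h1 hk hx1 hx2 hr
  refine ⟨h1.exec _ (by decide) (by decide) (by decide) (by decide) (by decide), ?_⟩
  rcases h2 with ⟨h2, h3, h4⟩ | ⟨h2, h3⟩
  · rcases g2 h2 with ⟨g3, g4⟩ | ⟨g3, par, g4, g5⟩
    · exact Or.inl ⟨g3, h3, h4, g4⟩
    · exact Or.inr ⟨g3, k, par, g4, g5, h3⟩
  · obtain ⟨g3, g4⟩ := g1 (by omega)
    right
    rw [g3, g4]
    exact ⟨h2, h3⟩

lemma spec_loopR (hP : P4Free G) {Q : Prop} {s : Store Nm} (h : SInv G k Q s) (hk : s KK 0 = k)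
    (hx1 : s X1 0 = x₁) (hx2 : s X2 0 = x₂) :
    SInv G k (Q ∧ ∀ r : Fin n, ¬ AttemptOK G k x₁ x₂ r) ((For R (V NN) attempt).exec s) := by
  have := for_rule (x := R) (e := V NN) (c := attempt)
    (s := s) n (by rw [eval_V, upd_of_ne _ _ _ (by decide), h.1.nn]) (by decide)
    (fun j s' => SInv G k (Q ∧ ∀ r : Fin n, (r : ℕ) < j → ¬ AttemptOK G k x₁ x₂ r) s' ∧
      s' KK 0 = k ∧ s' X1 0 = x₁ ∧ s' X2 0 = x₂)
    (by
      refine ⟨(h.mono (fun hq => ⟨hq, fun r hr => by omega⟩)).upd _ _ (by decide) (by decide)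
        (by decide) (by decide) (by decide) (by decide) (by decide), ?_, ?_, ?_⟩
      · rw [upd_of_ne _ _ _ (by decide), hk]
      · rw [upd_of_ne _ _ _ (by decide), hx1]
      · rw [upd_of_ne _ _ _ (by decide), hx2])
    (by
      intro j hj s' hR ⟨h1, h2, h3, h4⟩
      refine ⟨?_, ?_, ?_, ?_⟩
      · refine (SInv.mono (SInv.attempt hP (r := ⟨j, hj⟩) h1 h2 h3 h4 hR) ?_).upd _ _ (by decide)
          (by decide) (by decide) (by decide) (by decide) (by decide) (by decide)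
        rintro ⟨⟨q1, q2⟩, q3⟩
        refine ⟨q1, fun r hr => ?_⟩
        rcases Nat.lt_succ_iff_lt_or_eq.1 hr with h5 | h5
        · exact q2 r h5
        · have : r = ⟨j, hj⟩ := Fin.ext h5
          rw [this]; exact q3
      · rw [upd_of_ne _ _ _ (by decide), Cmd.frame _ (by decide), h2]
      · rw [upd_of_ne _ _ _ (by decide), Cmd.frame _ (by decide), h3]
      · rw [upd_of_ne _ _ _ (by decide), Cmd.frame _ (by decide), h4])
  exact this.1.mono (fun hq => ⟨hq.1, fun r => hq.2 r r.2⟩)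

lemma spec_loopX2 (hP : P4Free G) {Q : Prop} {s : Store Nm} (h : SInv G k Q s) (hk : s KK 0 = k)
    (hx1 : s X1 0 = x₁) :
    SInv G k (Q ∧ ∀ x₂ : ℕ, x₂ ≤ n → ∀ r : Fin n, ¬ AttemptOK G k x₁ x₂ r)
      ((For X2 (.succ (V NN)) (For R (V NN) attempt)).exec s) := by
  have := for_rule (x := X2) (e := .succ (V NN)) (c := For R (V NN) attempt)
    (s := s) (n + 1) (by rw [Exp.eval_succ, eval_V, upd_of_ne _ _ _ (by decide), h.1.nn])
    (by decide)
    (fun j s' => SInv G k (Q ∧ ∀ x₂ : ℕ, x₂ < j → ∀ r : Fin n, ¬ AttemptOK G k x₁ x₂ r) s' ∧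
      s' KK 0 = k ∧ s' X1 0 = x₁)
    (by
      refine ⟨(h.mono (fun hq => ⟨hq, fun r hr => by omega⟩)).upd _ _ (by decide) (by decide)
        (by decide) (by decide) (by decide) (by decide) (by decide), ?_, ?_⟩
      · rw [upd_of_ne _ _ _ (by decide), hk]
      · rw [upd_of_ne _ _ _ (by decide), hx1])
    (by
      intro j hj s' hR ⟨h1, h2, h3⟩
      refine ⟨?_, ?_, ?_⟩
      · refine (SInv.mono (spec_loopR hP h1 h2 h3 hR) ?_).upd _ _ (by decide)
          (by decide) (by decide) (by decide) (by decide) (by decide) (by decide)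
        rintro ⟨⟨q1, q2⟩, q3⟩
        refine ⟨q1, fun x₂ hx₂ => ?_⟩
        rcases Nat.lt_succ_iff_lt_or_eq.1 hx₂ with h5 | h5
        · exact q2 x₂ h5
        · rw [h5]; exact q3
      · rw [upd_of_ne _ _ _ (by decide), Cmd.frame _ (by decide), h2]
      · rw [upd_of_ne _ _ _ (by decide), Cmd.frame _ (by decide), h3])
  exact this.1.mono (fun hq => ⟨hq.1, fun x₂ hx₂ => hq.2 x₂ (by omega)⟩)

lemma spec_loopX1 (hP : P4Free G) {Q : Prop} {s : Store Nm} (h : SInv G k Q s)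
    (hk : s KK 0 = k) :
    SInv G k (Q ∧ NoCert G k)
      ((For X1 (.succ (V NN)) (For X2 (.succ (V NN)) (For R (V NN) attempt))).exec s) := by
  have := for_rule (x := X1) (e := .succ (V NN))
    (c := For X2 (.succ (V NN)) (For R (V NN) attempt))
    (s := s) (n + 1) (by rw [Exp.eval_succ, eval_V, upd_of_ne _ _ _ (by decide), h.1.nn])
    (by decide)
    (fun j s' => SInv G k (Q ∧ ∀ x₁ : ℕ, x₁ < j → ∀ x₂ : ℕ, x₂ ≤ n → ∀ r : Fin n,
      ¬ AttemptOK G k x₁ x₂ r) s' ∧ s' KK 0 = k)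
    (by
      refine ⟨(h.mono (fun hq => ⟨hq, fun r hr => by omega⟩)).upd _ _ (by decide) (by decide)
        (by decide) (by decide) (by decide) (by decide) (by decide), ?_⟩
      rw [upd_of_ne _ _ _ (by decide), hk])
    (by
      intro j hj s' hR ⟨h1, h2⟩
      refine ⟨?_, ?_⟩
      · refine (SInv.mono (spec_loopX2 hP h1 h2 hR) ?_).upd _ _ (by decide)
          (by decide) (by decide) (by decide) (by decide) (by decide) (by decide)
        rintro ⟨⟨q1, q2⟩, q3⟩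
        refine ⟨q1, fun x₁ hx₁ => ?_⟩
        rcases Nat.lt_succ_iff_lt_or_eq.1 hx₁ with h5 | h5
        · exact q2 x₁ h5
        · rw [h5]; exact q3
      · rw [upd_of_ne _ _ _ (by decide), Cmd.frame _ (by decide), h2])
  exact this.1.mono (fun hq => ⟨hq.1, fun x₁ x₂ h1 h2 r => hq.2 x₁ (by omega) x₂ h2 r⟩)

lemma spec_search (hP : P4Free G) {s : Store Nm} (h : Ctx G s) :
    SInv G (n * n + 1) True (search.exec s) := by
  unfold search
  rw [Cmd.exec_seq]
  set s1 := (setv FOUND .zero).exec s with hs1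
  have ctx1 : Ctx G s1 := h.exec _ (by decide) (by decide) (by decide) (by decide) (by decide)
  have hF1 : s1 FOUND 0 = 0 := by rw [hs1, exec_setv, upd_self]; rfl
  have := for_rule (x := KK) (e := .succ (V MM))
    (c := For X1 (.succ (V NN)) (For X2 (.succ (V NN)) (For R (V NN) attempt)))
    (s := s1) (n * n + 1) (by rw [Exp.eval_succ, eval_V, upd_of_ne _ _ _ (by decide), ctx1.mm])
    (by decide)
    (fun j s' => SInv G j True s')
    ⟨ctx1.upd _ _ (by decide) (by decide) (by decide) (by decide) (by decide),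
      Or.inl ⟨by rw [upd_of_ne _ _ _ (by decide), hF1], fun k' hk' => by omega, trivial⟩⟩
    (by
      intro j hj s' hR h1
      have h2 := spec_loopX1 hP h1 hR
      obtain ⟨q1, q2⟩ := h2
      refine SInv.upd ⟨q1, ?_⟩ _ _ (by decide)
          (by decide) (by decide) (by decide) (by decide) (by decide) (by decide)
      rcases q2 with ⟨q2, q3, _, q4⟩ | q2
      · refine Or.inl ⟨q2, fun k' hk' => ?_, trivial⟩
        rcases Nat.lt_succ_iff_lt_or_eq.1 hk' with h5 | h5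
        · exact q3 k' h5
        · rw [h5]; exact q4
      · exact Or.inr q2)
  exact this

/-! ### completeness -/

lemma not_noCert_of_stc_le (hcog : IsCograph G) (hconn : G.Connected) (h : stc G ≤ k) :
    ¬ NoCert G k := by
  classical
  have hP := p4Free_of_isCograph hcog
  intro hno
  rcases (stc_le_iff hcog hconn k).1 h with h1 | ⟨h1, h2⟩
  · rw [good_iff_normalCert] at h1
    obtain ⟨r, h3, h4⟩ := h1
    refine hno n n le_rfl le_rfl r ⟨h3, fun h => absurd h (lt_irrefl _), ?_⟩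
    have hE : exSet n n n = ∅ := exSet_of_not (lt_irrefl _)
    have hQ : Qs G r n ∅ = nonNbr G r := by
      ext v
      rw [mem_Qs]
      exact ⟨fun h => h.1, fun h => ⟨h, fun h' => absurd h' (lt_irrefl _)⟩⟩
    rw [hE, hQ]
    exact h4
  · obtain ⟨x₁, x₂, r, h3, h4, h5⟩ := exceptional_cert hP h1 h2
    refine hno x₁ x₂ x₁.2.le x₂.2.le r ⟨h3, fun _ => ⟨x₂.2, h4⟩, ?_⟩
    have hE : exSet n x₁ x₂ = {x₁, x₂} := exSet_of_lt x₁.2 x₂.2
    have hQ : Qs G r x₁ {x₁, x₂} = (nonNbr G r).filter (fun y => Ws G r {x₁, x₂} y ≠ ∅) := by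
      ext v
      rw [mem_Qs, Finset.mem_filter]
      exact ⟨fun h => ⟨h.1, h.2 x₁.2⟩, fun h => ⟨h.1, fun _ => h.2⟩⟩
    rw [hE, hQ]
    exact h5

lemma stc_le_sq (hcog : IsCograph G) (hconn : G.Connected) : stc G ≤ n * n := by
  classical
  have hP := p4Free_of_isCograph hcog
  rw [stc_le_iff hcog hconn]
  left
  obtain ⟨z, f, hf1, hf2⟩ := exists_root_matching hP hconn
  have hdeg : ∀ v : Fin n, G.degree v + 1 ≤ n := by
    intro v
    have := G.degree_lt_card_verts v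
    rwa [Fintype.card_fin] at this
  have h2 : ∀ v w : Fin n, G.degree v + G.degree w ≤ n * n + 2 := by
    intro v w
    have := hdeg v
    have := hdeg w
    nlinarith [Nat.mul_self_le_mul_self (show 0 ≤ n from Nat.zero_le n), sq_nonneg ((n : ℤ) - 1)]
  refine ⟨z, ?_, f, ?_, hf2⟩
  · intro v _
    have := hdeg v
    nlinarith
  · intro y hy hadj
    obtain ⟨h3, h4⟩ := hf1 y hy hadj
    exact ⟨h3, h4, h2 _ _⟩

/-- the result of the search -/
lemma search_result (hcog : IsCograph G) (hconn : G.Connected) {s : Store Nm} (h : Ctx G s) :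
    Ctx G (search.exec s) ∧ ∃ par : Fin n → Fin n,
      (∀ v : Fin n, (search.exec s) RES v = par v) ∧
      IsSpanningTree G (parentGraph par) ∧ treeCongestion G (parentGraph par) = stc G := by
  have hP := p4Free_of_isCograph hcog
  obtain ⟨h1, h2⟩ := spec_search hP h
  refine ⟨h1, ?_⟩
  rcases h2 with ⟨_, h3, _⟩ | ⟨_, k₀, par, h3, h4, h5⟩
  · exact absurd (h3 (n * n) (Nat.lt_succ_self _))
      (not_noCert_of_stc_le hcog hconn (stc_le_sq hcog hconn))
  · refine ⟨par, h3, ⟨h4.1, h4.2.1⟩, ?_⟩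
    have h6 : treeCongestion G (parentGraph par) ≤ k₀ := by
      rw [treeCongestion_le_iff]; exact h4.2.2
    have h7 : stc G ≤ treeCongestion G (parentGraph par) :=
      Nat.sInf_le ⟨_, ⟨h4.1, h4.2.1⟩, rfl⟩
    have h8 : k₀ ≤ stc G := by
      by_contra hcon
      exact not_noCert_of_stc_le hcog hconn le_rfl (h5 (stc G) (by omega))
    omega

end Pool.Agent.Lib.MP_fe081e_lc.Alg
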