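import Pool.Agent.Lib.MP_fe081e_lc.Alg.Spec8

/-!
Specification of the output and correctness of the whole program.
-/

namespace Pool.Agent.Lib.MP_fe081e_lc.Alg

open Nm

variable {n : ℕ}

/-- the value written for the pair `(i, j)` -/
def outBody : Cmd Nm :=
  .seq (.set OUT (V P) .zero)
    (.seq (ifne (V I) (V J) (.seq (ifeq (.get RES (V I)) (V J) (.set OUT (V P) one))
      (ifeq (.get RES (V J)) (V I) (.set OUT (V P) one))))
      (incv P))

lemma frame_outBody (s : Store Nm) (a : Nm) (h1 : a ≠ OUT) (h2 : a ≠ P) :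
    (outBody.exec s) a = s a := by
  apply Cmd.frame
  simp [outBody, setv, incv, ifeq, ifne, Cmd.writes, h1, h2]

open Classical in
lemma spec_outBody {par : Fin n → Fin n} {s : Store Nm} {i j : Fin n} (hI : s I 0 = i)
    (hJ : s J 0 = j) (hRES : ∀ v : Fin n, s RES v = par v) :
    (outBody.exec s) P 0 = s P 0 + 1 ∧
    ((outBody.exec s) OUT (s P 0) = if (parentGraph par).Adj i j then 1 else 0) ∧
    ∀ q, q ≠ s P 0 → (outBody.exec s) OUT q = s OUT q := by
  unfold outBody
  rw [Cmd.exec_seq, Cmd.exec_seq]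
  set s1 := (Cmd.set OUT (V P) .zero).exec s with hs1
  have f1 : ∀ a, a ≠ OUT → s1 a = s a := fun a ha => by
    rw [hs1, Cmd.exec_set, upd_of_ne _ _ _ ha]
  have e1 : s1 OUT (s P 0) = 0 := by rw [hs1, Cmd.exec_set]; simp
  have e1' : ∀ q, q ≠ s P 0 → s1 OUT q = s OUT q := by
    intro q hq
    rw [hs1, Cmd.exec_set]
    simp [hq]
  have hI1 : s1 I 0 = i := by rw [f1 _ (by decide), hI]
  have hJ1 : s1 J 0 = j := by rw [f1 _ (by decide), hJ]
  have hP1 : s1 P 0 = s P 0 := by rw [f1 _ (by decide)]
  have hR1 : ∀ v : Fin n, s1 RES v = par v := by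
    intro v; rw [f1 _ (by decide)]; exact hRES v
  set cond : Cmd Nm := ifne (V I) (V J) (.seq (ifeq (.get RES (V I)) (V J) (.set OUT (V P) one))
      (ifeq (.get RES (V J)) (V I) (.set OUT (V P) one))) with hcond
  have key : (cond.exec s1 OUT (s P 0) = if (parentGraph par).Adj i j then 1 else 0) ∧
      ∀ q, q ≠ s P 0 → cond.exec s1 OUT q = s OUT q := by
    rw [hcond]
    by_cases hij : i = j
    · rw [ifne_neg (by simp [hI1, hJ1, hij]), e1,
        if_neg (by rw [parentGraph_adj]; exact fun h => h.1 hij)]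
      exact ⟨rfl, e1'⟩
    · have hij' : (i : ℕ) ≠ j := fun h => hij (Fin.ext h)
      rw [ifne_pos (by simpa [hI1, hJ1] using hij'), Cmd.exec_seq]
      set s2 := (ifeq (.get RES (V I)) (V J) (.set OUT (V P) one)).exec s1 with hs2
      have f2 : ∀ a, a ≠ OUT → s2 a = s1 a := by
        intro a ha
        apply Cmd.frame
        simp [ifeq, Cmd.writes, ha]
      have hI2 : s2 I 0 = i := by rw [f2 _ (by decide), hI1]
      have hJ2 : s2 J 0 = j := by rw [f2 _ (by decide), hJ1]
      have hP2 : s2 P 0 = s P 0 := by rw [f2 _ (by decide), hP1]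
      have hR2 : ∀ v : Fin n, s2 RES v = par v := by
        intro v; rw [f2 _ (by decide)]; exact hR1 v
      have e2 : (s2 OUT (s P 0) = if par i = j then 1 else 0) ∧
          ∀ q, q ≠ s P 0 → s2 OUT q = s OUT q := by
        by_cases c1 : par i = j
        · have h1 : s2 = upd s1 OUT (s P 0) 1 := by
            rw [hs2, ifeq_pos (by simp [hI1, hJ1, hR1, c1]), Cmd.exec_set]
            simp only [eval_V, hP1, one, Exp.eval_succ, Exp.eval_zero]
          rw [h1, if_pos c1]
          refine ⟨upd_self _ _ _ _, fun q hq => ?_⟩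
          rw [upd_same, if_neg hq, e1' q hq]
        · have h1 : s2 = s1 := by
            rw [hs2, ifeq_neg (by
              simp only [Exp.eval_get, eval_V, hI1, hJ1, hR1]
              exact fun h => c1 (Fin.ext h))]
          rw [h1, if_neg c1]
          exact ⟨e1, e1'⟩
      by_cases c2 : par j = i
      · rw [ifeq_pos (by simp [hI2, hJ2, hR2, c2]), Cmd.exec_set]
        simp only [eval_V, hP2, one, Exp.eval_succ, Exp.eval_zero]
        rw [if_pos (by rw [parentGraph_adj]; exact ⟨hij, Or.inr c2⟩)]
        refine ⟨upd_self _ _ _ _, fun q hq => ?_⟩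
        rw [upd_same, if_neg hq, e2.2 q hq]
      · rw [ifeq_neg (by
              simp only [Exp.eval_get, eval_V, hI2, hJ2, hR2]
              exact fun h => c2 (Fin.ext h))]
        refine ⟨?_, e2.2⟩
        rw [e2.1]
        congr 1
        rw [parentGraph_adj, eq_iff_iff]
        exact ⟨fun h => ⟨hij, Or.inl h⟩, fun h => h.2.resolve_right c2⟩
  have hPc : cond.exec s1 P 0 = s P 0 := by
    rw [Cmd.frame _ (by rw [hcond]; decide), hP1]
  rw [exec_incv]
  refine ⟨?_, ?_, ?_⟩
  · rw [upd_self, hPc]
  · rw [upd_of_ne _ _ _ (by decide)]; exact key.1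
  · intro q hq
    rw [upd_of_ne _ _ _ (by decide)]; exact key.2 q hq

lemma pair_index {i j i' j' : Fin n} (h : (i : ℕ) * n + j = (i' : ℕ) * n + j') :
    i = i' ∧ j = j' := by
  have hn : 0 < n := i.pos
  have h1 : ((i : ℕ) * n + j) / n = i := by
    rw [mul_comm, Nat.mul_add_div hn, Nat.div_eq_of_lt j.2, add_zero]
  have h2 : ((i' : ℕ) * n + j') / n = i' := by
    rw [mul_comm, Nat.mul_add_div hn, Nat.div_eq_of_lt j'.2, add_zero]
  have h3 : (i : ℕ) = i' := by rw [← h1, ← h2, h]
  have h4 : (j : ℕ) = j' := by rw [h3] at h; omega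
  exact ⟨Fin.ext h3, Fin.ext h4⟩

open Classical in
lemma spec_output {par : Fin n → Fin n} {s : Store Nm} (hn : s NN 0 = n)
    (hRES : ∀ v : Fin n, s RES v = par v) :
    ∀ i j : Fin n, (output.exec s) OUT (i * n + j) =
      if (parentGraph par).Adj i j then 1 else 0 := by
  unfold output
  rw [Cmd.exec_seq]
  set s1 := (setv P .zero).exec s with hs1
  have hn1 : s1 NN 0 = n := by rw [hs1, exec_setv, upd_of_ne _ _ _ (by decide), hn]
  have hR1 : ∀ v : Fin n, s1 RES v = par v := by
    intro v; rw [hs1, exec_setv, upd_of_ne _ _ _ (by decide)]; exact hRES v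
  have hP1 : s1 P 0 = 0 := by rw [hs1, exec_setv, upd_self]; rfl
  have := for_rule (x := I) (e := V NN) (c := For J (V NN) outBody)
    (s := s1) n (by rw [eval_V, upd_of_ne _ _ _ (by decide), hn1]) (by decide)
    (fun t s' => s' P 0 = t * n ∧ s' NN 0 = n ∧ (∀ v : Fin n, s' RES v = par v) ∧
      ∀ i j : Fin n, (i : ℕ) * n + j < t * n → s' OUT (i * n + j) =
        if (parentGraph par).Adj i j then 1 else 0)
    (by
      refine ⟨?_, ?_, ?_, ?_⟩
      · rw [upd_of_ne _ _ _ (by decide), hP1]; simp
      · rw [upd_of_ne _ _ _ (by decide), hn1]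
      · intro v; rw [upd_of_ne _ _ _ (by decide)]; exact hR1 v
      · intro i j hij; simp at hij)
    (by
      intro t ht s' hI ⟨h1, h2, h3, h4⟩
      have := for_rule (x := J) (e := V NN) (c := outBody)
        (s := s') n (by rw [eval_V, upd_of_ne _ _ _ (by decide), h2]) (by decide)
        (fun u s'' => s'' P 0 = t * n + u ∧ s'' NN 0 = n ∧ s'' I 0 = t ∧
          (∀ v : Fin n, s'' RES v = par v) ∧
          ∀ i j : Fin n, (i : ℕ) * n + j < t * n + u → s'' OUT (i * n + j) =
            if (parentGraph par).Adj i j then 1 else 0)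
        (by
          refine ⟨?_, ?_, ?_, ?_, ?_⟩
          · rw [upd_of_ne _ _ _ (by decide), h1]; simp
          · rw [upd_of_ne _ _ _ (by decide), h2]
          · rw [upd_of_ne _ _ _ (by decide), hI]
          · intro v; rw [upd_of_ne _ _ _ (by decide)]; exact h3 v
          · intro i j hij
            rw [upd_of_ne _ _ _ (by decide)]
            exact h4 i j (by omega))
        (by
          intro u hu s'' hJ ⟨g1, g2, g3, g4, g5⟩
          obtain ⟨q1, q2, q3⟩ := spec_outBody (par := par) (i := ⟨t, ht⟩) (j := ⟨u, hu⟩) g3 hJ g4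
          refine ⟨?_, ?_, ?_, ?_, ?_⟩
          · rw [upd_of_ne _ _ _ (by decide), q1, g1]; ring
          · rw [upd_of_ne _ _ _ (by decide), frame_outBody _ _ (by decide) (by decide), g2]
          · rw [upd_of_ne _ _ _ (by decide), frame_outBody _ _ (by decide) (by decide), g3]
          · intro v
            rw [upd_of_ne _ _ _ (by decide), frame_outBody _ _ (by decide) (by decide)]
            exact g4 v
          · intro i j hij
            rw [upd_of_ne _ _ _ (by decide)]
            by_cases hp : (i : ℕ) * n + j = t * n + u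
            · obtain ⟨h5, h6⟩ := pair_index (i' := ⟨t, ht⟩) (j' := ⟨u, hu⟩) hp
              rw [h5, h6]
              rw [g1] at q2
              exact q2
            · rw [q3 _ (by rw [g1]; exact hp)]
              exact g5 i j (by omega))
      obtain ⟨g1, g2, g3, g4, g5⟩ := this
      refine ⟨?_, ?_, ?_, ?_⟩
      · rw [upd_of_ne _ _ _ (by decide), g1]; ring
      · rw [upd_of_ne _ _ _ (by decide), g2]
      · intro v; rw [upd_of_ne _ _ _ (by decide)]; exact g4 v
      · intro i j hij
        rw [upd_of_ne _ _ _ (by decide)]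
        exact g5 i j (by rw [Nat.add_mul] at hij; omega))
  intro i j
  refine this.2.2.2 i j ?_
  have h5 := i.2
  have h6 := j.2
  calc (i : ℕ) * n + j < i * n + n := by omega
    _ = (i + 1) * n := by ring
    _ ≤ n * n := Nat.mul_le_mul_right _ h5

/-- Correctness of the whole program. -/
theorem program_correct {G : SimpleGraph (Fin n)} [DecidableRel G.Adj] (hcog : IsCograph G)
    (hconn : G.Connected) {s : Store Nm} (hmm : s MM 0 = n * n)
    (hadj : ∀ i j : Fin n, s ADJ (i * n + j) = if G.Adj i j then 1 else 0) :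
    ∃ (T : SimpleGraph (Fin n)) (_ : DecidableRel T.Adj), IsSpanningTree G T ∧
      treeCongestion G T = stc G ∧
      ∀ i j : Fin n, (program.exec s) OUT (i * n + j) = if T.Adj i j then 1 else 0 := by
  classical
  unfold program mainBody
  rw [Cmd.exec_seq, Cmd.exec_seq, Cmd.exec_seq, Cmd.exec_seq]
  obtain ⟨h1, f1⟩ := spec_computeN n s hmm
  set s1 := computeN.exec s with hs1
  have base1 : Base G s1 := by
    refine ⟨h1, ?_, ?_⟩
    · rw [f1 _ (by decide) (by decide) (by decide), hmm]
    · intro i j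
      rw [f1 _ (by decide) (by decide) (by decide)]
      exact hadj i j
  set s2 := computeRB.exec s1 with hs2
  have f2 : ∀ a, a ≠ P → a ≠ I → a ≠ J → a ≠ RB → s2 a = s1 a :=
    fun a q1 q2 q3 q4 => frame_computeRB s1 a q1 q2 q3 q4
  have base2 : Base G s2 := base1.of_eq (f2 _ (by decide) (by decide) (by decide) (by decide))
    (f2 _ (by decide) (by decide) (by decide) (by decide))
    (f2 _ (by decide) (by decide) (by decide) (by decide))
  have rb2 : ∀ i : Fin n, s2 RB i = i * n := fun i => spec_computeRB n s1 base1.nn i i.2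
  have ctx3 := spec_computeDEG base2 rb2
  set s3 := computeDEG.exec s2 with hs3
  obtain ⟨ctx4, par, h3, h4, h5⟩ := search_result hcog hconn ctx3
  refine ⟨parentGraph par, fun a b => inferInstance, h4, h5, ?_⟩
  exact spec_output ctx4.nn h3

end Pool.Agent.Lib.MP_fe081e_lc.Alg
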